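import Mathlib

set_option autoImplicit false

open Finset

namespace Pool.Agent.MP_bd74a7_nt

lemma succ_le_mul_rpow {ε : ℝ} (hε : 0 < ε) (a : ℕ) :
    (a : ℝ) + 1 ≤ (1 + 1 / (ε * Real.log 2)) * (2 : ℝ) ^ (ε * a) := by
  have hl : 0 < Real.log 2 := Real.log_pos (by norm_num)
  have hc : 0 < ε * Real.log 2 := by positivity
  have h1 : 1 + ε * Real.log 2 * a ≤ (2 : ℝ) ^ (ε * a) := by
    rw [Real.rpow_def_of_pos (by norm_num)]
    have := Real.add_one_le_exp (Real.log 2 * (ε * a))
    linarith
  have h2 : (a : ℝ) + 1 ≤ (1 + 1 / (ε * Real.log 2)) * (1 + ε * Real.log 2 * a) := by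
    have e : (1 + 1 / (ε * Real.log 2)) * (1 + ε * Real.log 2 * a) =
        1 + a + (ε * Real.log 2 * a + 1 / (ε * Real.log 2)) := by
      field_simp
      ring
    rw [e]
    have : 0 ≤ ε * Real.log 2 * a + 1 / (ε * Real.log 2) := by positivity
    linarith
  exact h2.trans (mul_le_mul_of_nonneg_left h1 (by positivity))

/-- The divisor bound. -/
theorem divisor_bound {ε : ℝ} (hε : 0 < ε) :
    ∃ C : ℝ, 1 ≤ C ∧ ∀ n : ℕ, ((n.divisors.card : ℕ) : ℝ) ≤ C * (n : ℝ) ^ ε := by
  set c : ℝ := 1 + 1 / (ε * Real.log 2) with hc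
  have hl : 0 < Real.log 2 := Real.log_pos (by norm_num)
  have hc1 : 1 ≤ c := by
    have : 0 ≤ 1 / (ε * Real.log 2) := by positivity
    linarith
  set P : ℕ := ⌈(2 : ℝ) ^ (1 / ε)⌉₊ with hP
  refine ⟨c ^ P, one_le_pow₀ hc1, fun n => ?_⟩
  rcases Nat.eq_zero_or_pos n with rfl | hn
  · simp only [Nat.divisors_zero, card_empty, Nat.cast_zero]
    positivity
  rw [Nat.card_divisors hn.ne']
  have hprod : (n : ℝ) ^ ε = ∏ p ∈ n.primeFactors, ((p : ℝ) ^ (n.factorization p)) ^ ε := by
    rw [Real.finsetProd_rpow _ _ (fun p _ => by positivity)]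
    congr 1
    conv_lhs => rw [← Nat.prod_factorization_pow_eq_self hn.ne']
    rw [Finsupp.prod, Nat.support_factorization]
    push_cast
    rfl
  have hfac : ∀ p ∈ n.primeFactors, ((n.factorization p + 1 : ℕ) : ℝ) ≤
      (if p < P then c else 1) * ((p : ℝ) ^ (n.factorization p)) ^ ε := by
    intro p hp
    have hp2 : (2 : ℝ) ≤ p := by exact_mod_cast (Nat.prime_of_mem_primeFactors hp).two_le
    set a := n.factorization p
    have e : ((p : ℝ) ^ a) ^ ε = (p : ℝ) ^ (ε * a) := by
      rw [← Real.rpow_natCast, ← Real.rpow_mul (by positivity), mul_comm]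
    rw [e]
    split_ifs with h
    · have h1 := succ_le_mul_rpow hε a
      have h2 : (2 : ℝ) ^ (ε * a) ≤ (p : ℝ) ^ (ε * a) :=
        Real.rpow_le_rpow (by norm_num) hp2 (by positivity)
      push_cast
      exact h1.trans (mul_le_mul_of_nonneg_left h2 (by linarith))
    · have h1 : (2 : ℝ) ^ (1 / ε) ≤ p := by
        have := Nat.le_ceil ((2 : ℝ) ^ (1 / ε))
        have h' : (P : ℝ) ≤ p := by exact_mod_cast not_lt.1 h
        exact this.trans h'
      have h2 : ((2 : ℝ) ^ (1 / ε)) ^ (ε * a) ≤ (p : ℝ) ^ (ε * a) :=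
        Real.rpow_le_rpow (by positivity) h1 (by positivity)
      rw [← Real.rpow_mul (by norm_num)] at h2
      have e2 : 1 / ε * (ε * a) = (a : ℝ) := by field_simp
      rw [e2, Real.rpow_natCast] at h2
      have h3 : ((a + 1 : ℕ) : ℝ) ≤ (2 : ℝ) ^ a := by
        have : a + 1 ≤ 2 ^ a := Nat.lt_two_pow_self
        exact_mod_cast this
      linarith
  push_cast
  calc ∏ p ∈ n.primeFactors, ((n.factorization p : ℝ) + 1)
      ≤ ∏ p ∈ n.primeFactors,
          ((if p < P then c else 1) * ((p : ℝ) ^ (n.factorization p)) ^ ε) := by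
        refine prod_le_prod (fun p _ => by positivity) fun p hp => ?_
        have := hfac p hp
        push_cast at this
        exact this
    _ = (∏ p ∈ n.primeFactors, (if p < P then c else 1)) * (n : ℝ) ^ ε := by
        rw [prod_mul_distrib, hprod]
    _ ≤ c ^ P * (n : ℝ) ^ ε := by
        apply mul_le_mul_of_nonneg_right _ (by positivity)
        rw [prod_ite, prod_const_one, mul_one, prod_const]
        apply pow_le_pow_right₀ hc1
        calc #(filter (fun p => p < P) n.primeFactors) ≤ #(range P) := by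
              apply card_le_card
              intro p hp
              exact mem_range.2 (mem_filter.1 hp).2
          _ = P := card_range P

end Pool.Agent.MP_bd74a7_nt
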