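import Pool.Agent.MP_bd74a7_nt.ApR

/-!
Points of an exponential curve in a box, outside a small exceptional set of primes.
-/

open Finset Polynomial UniqueFactorizationMonoid

namespace Pool.Agent.MP_bd74a7_nt.Ap

/-- The trinomial attached to two points. -/
noncomputable def tri (a b : ℕ × ℤ) : ℤ[X] := C a.2 * (X ^ b.1 - 1) - C b.2 * (X ^ a.1 - 1)

theorem tri_coeff (a b : ℕ × ℤ) (h : a.1 ≠ b.1) (hb : b.1 ≠ 0) : (tri a b).coeff b.1 = a.2 := by
  simp only [tri, coeff_sub, coeff_C_mul, coeff_X_pow, coeff_one, if_neg hb, if_neg h.symm]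
  simp

theorem tri_deg (a b : ℕ × ℤ) (U : ℕ) (ha : a.1 ≤ U) (hb : b.1 ≤ U) : (tri a b).natDegree ≤ U := by
  have h : ∀ (c : ℤ) (k : ℕ), k ≤ U → (C c * (X ^ k - 1 : ℤ[X])).natDegree ≤ U := fun c k hk =>
    (natDegree_C_mul_le _ _).trans ((natDegree_sub_le _ _).trans
      (max_le ((natDegree_X_pow_le k).trans hk) (by simp)))
  exact (natDegree_sub_le _ _).trans (max_le (h _ _ hb) (h _ _ ha))

theorem tri_l1 (a b : ℕ × ℤ) (H : ℕ) (ha : |a.2| ≤ H) (hb : |b.2| ≤ H) :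
    l1 ((tri a b).map (Int.castRingHom ℂ)) ≤ 4 * H := by
  have e : (tri a b).map (Int.castRingHom ℂ) = (monomial b.1 (a.2 : ℂ) + monomial 0 (-a.2 : ℂ)) +
      (monomial a.1 (-b.2 : ℂ) + monomial 0 (b.2 : ℂ)) := by
    simp only [tri, ← C_mul_X_pow_eq_monomial, Polynomial.map_sub, Polynomial.map_mul,
      Polynomial.map_pow, map_X, Polynomial.map_one, eq_intCast, map_neg, map_intCast,
      Polynomial.map_intCast]
    ring
  have ha' : |(a.2 : ℝ)| ≤ H := by exact_mod_cast ha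
  have hb' : |(b.2 : ℝ)| ≤ H := by exact_mod_cast hb
  rw [e]
  refine (l1_add _ _).trans ((add_le_add (l1_add _ _) (l1_add _ _)).trans ?_)
  simp only [l1_mono, norm_neg, Complex.norm_intCast]
  linarith

theorem act (p : ℕ) [Fact p.Prime] (G c : ZMod p) (hc : c ≠ 0) (M : ℕ)
    (S : Finset (ℕ × ℤ)) (h0 : (0, 0) ∈ S) (h1 : ∀ s ∈ S, (s.2 : ZMod p) = c * (G ^ s.1 - 1))
    (h2 : Set.InjOn (fun s : ℕ × ℤ => G ^ s.1) S) (h3 : ∀ s ∈ S, ∀ s' ∈ S, |s.2 - s'.2| ≤ M)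
    (hS : max 6 (Nat.log 2 M + 2) < S.card) :
    ∃ a ∈ S, ∃ b ∈ S, ∃ d ∈ S, (a.1 ≠ 0 ∧ b.1 ≠ 0 ∧ d.1 ≠ 0) ∧ G ^ a.1 ≠ 1 ∧ a.1 ≠ b.1 ∧ a.2 ≠ 0 ∧
      aeval G (cop (tri a b) (tri a d)) = 0 ∧ aeval G (tri a d) = 0 := by
  classical
  obtain ⟨a, ha, b, hb, hab⟩ := one_lt_card.1 (show 1 < (S.erase (0, 0)).card by
    rw [card_erase_of_mem h0]
    omega)
  obtain ⟨a0, ha⟩ := mem_erase.1 ha
  obtain ⟨b0, hb⟩ := mem_erase.1 hb
  have n1 : ∀ s ∈ S, s ≠ (0, 0) → G ^ s.1 ≠ 1 := fun s hs n e => n (h2 hs h0 (by simpa using e))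
  have n0 : ∀ s ∈ S, s ≠ (0, 0) → s.1 ≠ 0 := fun s hs n e => n1 s hs n (by rw [e, pow_zero])
  have i1 : Set.InjOn Prod.fst (S : Set (ℕ × ℤ)) := fun s hs s' hs' e => h2 hs hs' (by
    simp only [e])
  have i2 : Set.InjOn Prod.snd (S : Set (ℕ × ℤ)) := fun s hs s' hs' e => h2 hs hs' (by
    have := (h1 s hs).symm.trans ((congrArg _ e).trans (h1 s' hs'))
    exact sub_left_injective (mul_left_cancel₀ hc this))
  have ab1 : a.1 ≠ b.1 := fun e => hab (i1 ha hb e)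
  have a2 : (a.2 : ZMod p) ≠ 0 := by
    rw [h1 a ha]
    exact mul_ne_zero hc (sub_ne_zero.2 (n1 a ha a0))
  have a2' : a.2 ≠ 0 := fun e => a2 (by rw [e, Int.cast_zero])
  have z : ∀ d ∈ S, aeval G (tri a d) = 0 := fun d hd => by
    simp only [tri, map_sub, map_mul, map_pow, aeval_X, map_one, eq_intCast, map_intCast,
      h1 a ha, h1 d hd]
    ring
  have co := tri_coeff a b ab1 (n0 b hb b0)
  have F0 : tri a b ≠ 0 := fun e => a2' (by rw [← co, e, coeff_zero])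
  obtain ⟨φ, f1, f2⟩ : ∃ φ ∈ factors (tri a b), aeval G φ = 0 := by
    obtain ⟨u, hu⟩ := (factors_prod F0).symm
    have := congrArg (aeval G) hu
    rw [map_mul, z b hb, zero_mul, eq_comm, map_multiset_prod, Multiset.prod_eq_zero_iff,
      Multiset.mem_map] at this
    exact this
  have hi := irreducible_of_factor φ f1
  have hd : φ.natDegree ≠ 0 := fun e => by
    obtain ⟨k, rfl⟩ := natDegree_eq_zero.1 e
    obtain ⟨t, ht⟩ := (C_dvd_iff_dvd_coeff k _).1 (dvd_of_mem_factors f1) b.1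
    rw [aeval_C, eq_intCast] at f2
    apply a2
    rw [← co, ht, Int.cast_mul, f2, zero_mul]
  by_contra hn
  have dv : ∀ d ∈ S, φ ∣ tri a d := fun d hd' => by
    by_contra c
    obtain ⟨t, ht⟩ : φ ∣ cop (tri a b) (tri a d) :=
      Multiset.dvd_prod (Multiset.mem_filter.2 ⟨f1, c⟩)
    exact hn ⟨a, ha, b, hb, d, hd', ⟨n0 a ha a0, n0 b hb b0, n0 d hd' fun e => c (by simp [e, tri])⟩,
      n1 a ha a0, ab1, a2', by rw [ht, map_mul, f2, zero_mul], z d hd'⟩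
  have := Fact.mk ((IsPrimitive.Int.irreducible_iff_irreducible_map_cast (hi.isPrimitive hd)).1 hi)
  set β := AdjoinRoot.root (φ.map (Int.castRingHom ℚ)) with hβ
  have r0 : aeval β φ = 0 := by
    have := AdjoinRoot.aeval_eq (f := φ.map (Int.castRingHom ℚ)) (φ.map (Int.castRingHom ℚ))
    rwa [AdjoinRoot.mk_self, ← algebraMap_int_eq, aeval_map_algebraMap] at this
  have r1 : β ^ a.1 - 1 ≠ 0 := fun e => by
    obtain ⟨t, ht⟩ := gauss φ (X ^ a.1 - 1) hi hd β r0 (by simpa using e)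
    have := congrArg (aeval G) ht
    rw [map_mul, f2, zero_mul] at this
    exact n1 a ha a0 (by simpa [sub_eq_zero] using this)
  have r2 : ∀ d ∈ S, (d.2 : AdjoinRoot (φ.map (Int.castRingHom ℚ))) - -(a.2 / (β ^ a.1 - 1)) =
      a.2 / (β ^ a.1 - 1) * β ^ d.1 := fun d hd' => by
    obtain ⟨t, ht⟩ := dv d hd'
    have := congrArg (aeval β) ht
    rw [map_mul, r0, zero_mul] at this
    simp only [tri, map_sub, map_mul, map_pow, aeval_X, map_one, eq_intCast,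
      map_intCast] at this
    field_simp
    linear_combination -this
  have r3 : β ≠ 0 := fun e => by
    have e1 := r2 a ha
    have e2 := r2 b hb
    rw [e, zero_pow (n0 a ha a0)] at e1 e2
    rw [zero_pow (n0 b hb b0)] at e2
    exact hab (i2 ha hb (by exact_mod_cast sub_left_injective (e1.trans e2.symm)))
  refine hS.not_ge ((card_image_of_injOn i2).symm.trans_le (lemZ _ β _ (-(a.2 / (β ^ a.1 - 1))) r3
    (div_ne_zero (Int.cast_ne_zero.2 a2') r1) (S.image Prod.snd)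
    (fun w => (Function.invFunOn Prod.snd (S : Set (ℕ × ℤ)) w).1) ?_ M ?_ ?_))
  · intro v hv w hw e
    obtain ⟨s, hs, rfl⟩ := mem_image.1 hv
    obtain ⟨s', hs', rfl⟩ := mem_image.1 hw
    simp only [i2.leftInvOn_invFunOn hs, i2.leftInvOn_invFunOn hs'] at e
    rw [i1 hs hs' e]
  · intro v hv w hw
    obtain ⟨s, hs, rfl⟩ := mem_image.1 hv
    obtain ⟨s', hs', rfl⟩ := mem_image.1 hw
    exact h3 s hs s' hs'
  · intro w hw
    obtain ⟨s, hs, rfl⟩ := mem_image.1 hw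
    rw [i2.leftInvOn_invFunOn hs]
    exact r2 s hs

/-- Patterns of four points up to translation. -/
noncomputable def pats (U H : ℕ) : Finset ((ℕ × ℤ) × (ℕ × ℤ) × (ℕ × ℤ)) :=
  ((Icc 1 U ×ˢ Icc (-(H : ℤ)) H) ×ˢ (Icc 1 U ×ˢ Icc (-(H : ℤ)) H) ×ˢ
    (Icc 1 U ×ˢ Icc (-(H : ℤ)) H)).filter fun π => π.1.1 ≠ π.2.1.1 ∧ π.1.2 ≠ 0

/-- The resultant attached to a pattern. -/
noncomputable def res (U : ℕ) (π : (ℕ × ℤ) × (ℕ × ℤ) × (ℕ × ℤ)) : ℤ :=
  resultant (cop (tri π.1 π.2.1) (tri π.1 π.2.2)) (tri π.1 π.2.2)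
    (cop (tri π.1 π.2.1) (tri π.1 π.2.2)).natDegree U

/-- The pattern has the common root `G`. -/
def Act {p : ℕ} (G : ZMod p) (π : (ℕ × ℤ) × (ℕ × ℤ) × (ℕ × ℤ)) : Prop :=
  aeval G (cop (tri π.1 π.2.1) (tri π.1 π.2.2)) = 0 ∧ aeval G (tri π.1 π.2.2) = 0

theorem pats_card (U H : ℕ) : (pats U H).card ≤ (U * (2 * H + 1)) ^ 3 := by
  refine (card_filter_le _ _).trans_eq ?_
  simp only [card_product, Nat.card_Icc, Int.card_Icc]
  rw [show ((H : ℤ) + 1 - -H).toNat = 2 * H + 1 by omega, Nat.add_sub_cancel]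
  ring

theorem res_pat (U H : ℕ) (hH : 1 ≤ H) (π) (hπ : π ∈ pats U H) :
    res U π ≠ 0 ∧ |(res U π : ℝ)| ≤ (4 * H) ^ (2 * U) := by
  simp only [pats, mem_filter, mem_product, mem_Icc, ← abs_le] at hπ
  obtain ⟨⟨a, b, d⟩, n1, n2⟩ := hπ
  have : (1 : ℝ) ≤ H := by exact_mod_cast hH
  exact res_bd _ _ (fun e => n2 (by rw [← tri_coeff _ _ n1 (by omega), e, coeff_zero])) U
    (tri_deg _ _ U a.1.2 b.1.2) (tri_deg _ _ U a.1.2 d.1.2) _ (by linarith) (tri_l1 _ _ H a.2 b.2)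
    (tri_l1 _ _ H a.2 d.2)

theorem dvd_pat (U H p : ℕ) [Fact p.Prime] (hU : U ≤ H) (hp : 2 * H < p) (π) (hπ : π ∈ pats U H)
    (Γ : Finset (ZMod p)) (h : ∀ G ∈ Γ, Act G π) : (p : ℤ) ^ Γ.card ∣ res U π := by
  simp only [pats, mem_filter, mem_product, mem_Icc, ← abs_le] at hπ
  obtain ⟨⟨a, b, d⟩, n1, n2⟩ := hπ
  have co := tri_coeff _ _ n1 (by omega)
  have F0 : tri π.1 π.2.1 ≠ 0 := fun e => n2 (by rw [← co, e, coeff_zero])
  have dv := cop_dvd _ (tri π.1 π.2.2) F0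
  have d1 := (natDegree_le_of_dvd dv F0).trans (tri_deg _ _ U a.1.2 b.1.2)
  refine pow_dvd_res p _ _ _ U le_rfl (tri_deg _ _ U a.1.2 d.1.2) (by omega) Γ
    (le_add_right ?_) h
  refine (card_le_degree_of_subset_roots (p := (cop (tri π.1 π.2.1) (tri π.1 π.2.2)).map
    (algebraMap ℤ (ZMod p))) fun G hG => ?_).trans natDegree_map_le
  rw [mem_roots, IsRoot, eval_map_algebraMap]
  · exact (h G hG).1
  · intro e
    obtain ⟨k, hk⟩ := dv
    have e1 := congrArg (fun F : ℤ[X] => (F.map (algebraMap ℤ (ZMod p))).coeff π.2.1.1) hk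
    simp only [Polynomial.map_mul, e, zero_mul, coeff_zero, coeff_map, co, eq_intCast] at e1
    have := Int.le_of_dvd (abs_pos.2 n2) ((dvd_abs _ _).2
      ((ZMod.intCast_zmod_eq_zero_iff_dvd _ _).1 e1))
    have := a.2
    omega

open Classical in
theorem cls (p : ℕ) [Fact p.Prime] (g a : ZMod p) (hg : g ≠ 0) (ha : a ≠ 0) (M H Z T : ℕ)
    (hZ : 1 ≤ Z) (hT : Z ≤ T) (hM : M ≤ H) (P : Finset (ℤ × ℤ))
    (h1 : ∀ s ∈ P, (s.2 : ZMod p) = a * g ^ s.1)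
    (h2 : ∀ s ∈ P, ∀ s' ∈ P, |s.1 - s'.1| ≤ M ∧ |s.2 - s'.2| ≤ M)
    (h3 : ∀ s ∈ P, ∀ s' ∈ P, g ^ s.1 = g ^ s'.1 → s = s') :
    P.card ≤ ((pats (H / Z) H).filter (Act (g ^ T))).card + max 6 (Nat.log 2 M + 2) * T := by
  set Q : ℤ × ℤ → Prop := fun s => ∃ π ∈ pats (H / Z) H, Act (g ^ T) π ∧
    (π.1.2 : ZMod p) = s.2 * ((g ^ T) ^ π.1.1 - 1) ∧ (g ^ T) ^ π.1.1 ≠ 1 with hQ
  rw [← card_filter_add_card_filter_not (s := P) Q]
  refine add_le_add (card_le_card_of_forall_subsingleton (fun s π =>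
    (π.1.2 : ZMod p) = s.2 * ((g ^ T) ^ π.1.1 - 1) ∧ (g ^ T) ^ π.1.1 ≠ 1) ?_ ?_) ?_
  · intro s hs
    obtain ⟨π, a1, a2, a3⟩ := (mem_filter.1 hs).2
    exact ⟨π, mem_filter.2 ⟨a1, a2⟩, a3⟩
  · rintro π - s ⟨hs, a1, a2⟩ s' ⟨hs', a3, -⟩
    have b1 := (mem_filter.1 hs).1
    have b2 := (mem_filter.1 hs').1
    have e := mul_right_cancel₀ (sub_ne_zero.2 a2) (a1.symm.trans a3)
    rw [h1 s b1, h1 s' b2] at e
    exact h3 s b1 s' b2 (mul_left_cancel₀ ha e)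
  refine (card_le_mul_card_image_of_maps_to (f := fun s : ℤ × ℤ => s.1 % T) (t := Ico (0 : ℤ) T)
    (fun s _ => mem_Ico.2 ⟨Int.emod_nonneg _ (by omega), Int.emod_lt_of_pos _ (by omega)⟩)
    (max 6 (Nat.log 2 M + 2)) fun r _ => ?_).trans_eq (by simp)
  set C := (P.filter fun s => ¬ Q s).filter fun s => s.1 % T = r with hC
  by_contra hc
  obtain ⟨s0, m0, hmin⟩ := exists_min_image C Prod.fst (card_pos.1 (by omega))
  have mC : ∀ s ∈ C, (s ∈ P ∧ ¬ Q s) ∧ s.1 % T = r := fun s hs => by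
    simpa only [hC, mem_filter] using hs
  have p0 := (mC s0 m0).1.1
  set φ : ℤ × ℤ → ℕ × ℤ := fun s => (((s.1 - s0.1) / T).toNat, s.2 - s0.2) with hφ
  have k : ∀ s ∈ C, s ∈ P ∧ g ^ s.1 = g ^ s0.1 * (g ^ T) ^ (φ s).1 ∧
      (φ s).1 ≤ H / Z ∧ (φ s).2 ∈ Icc (-(H : ℤ)) H := fun s hs => by
    have ps := (mC s hs).1.1
    obtain ⟨j, hj⟩ : (T : ℤ) ∣ s.1 - s0.1 :=
      Int.ModEq.dvd ((mC s0 m0).2.trans (mC s hs).2.symm)
    have l1 := hmin s hs
    have j0 : 0 ≤ j := by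
      by_contra c
      have : (T : ℤ) * j < 0 := mul_neg_of_pos_of_neg (by omega) (by omega)
      omega
    obtain ⟨j, rfl⟩ := Int.eq_ofNat_of_zero_le j0
    have e1 : (φ s).1 = j := by
      simp only [hφ, hj]
      rw [Int.mul_ediv_cancel_left _ (by omega), Int.toNat_natCast]
    have e2 : g ^ s.1 = g ^ s0.1 * (g ^ T) ^ j := by
      rw [show s.1 = s0.1 + ((T * j : ℕ) : ℤ) by push_cast; omega, zpow_add₀ hg, zpow_natCast,
        pow_mul]
    have b := h2 s ps s0 p0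
    refine ⟨ps, by rw [e1, e2], ?_, mem_Icc.2 ?_⟩
    · rw [e1, Nat.le_div_iff_mul_le (by omega)]
      have b1 := (le_abs_self _).trans b.1
      rw [hj] at b1
      have b2 : T * j ≤ M := by exact_mod_cast b1
      calc j * Z ≤ j * T := Nat.mul_le_mul_left _ hT
        _ = T * j := mul_comm _ _
        _ ≤ H := b2.trans hM
    · have := abs_le.1 b.2
      simp only [hφ]
      omega
  have inj : ∀ s ∈ C, ∀ s' ∈ C, (g ^ T) ^ (φ s).1 = (g ^ T) ^ (φ s').1 → s = s' :=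
    fun s hs s' hs' e => h3 s (k s hs).1 s' (k s' hs').1 (by rw [(k s hs).2.1, (k s' hs').2.1, e])
  have k1 : ∀ u ∈ C.image φ, (u.2 : ZMod p) = s0.2 * ((g ^ T) ^ u.1 - 1) := fun u hu => by
    obtain ⟨s, hs, rfl⟩ := mem_image.1 hu
    have e : ((φ s).2 : ZMod p) = s.2 - s0.2 := by simp [hφ]
    rw [e, h1 s (k s hs).1, h1 s0 p0, (k s hs).2.1]
    ring
  have k2 : ∀ u ∈ C.image φ, u.1 ≠ 0 → u ∈ Icc 1 (H / Z) ×ˢ Icc (-(H : ℤ)) H := fun u hu n => by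
    obtain ⟨s, hs, rfl⟩ := mem_image.1 hu
    exact mem_product.2 ⟨mem_Icc.2 ⟨Nat.pos_of_ne_zero n, (k s hs).2.2.1⟩, (k s hs).2.2.2⟩
  obtain ⟨u, hu, v, hv, w, hw, c0, c4, c1, c2, c3⟩ := act p (g ^ T) s0.2
    (by rw [h1 s0 p0]; exact mul_ne_zero ha (zpow_ne_zero _ hg)) M (C.image φ)
    (mem_image.2 ⟨s0, m0, by simp [hφ]⟩) k1
    (fun u hu v hv e => by
      obtain ⟨s, hs, rfl⟩ := mem_image.1 hu
      obtain ⟨s', hs', rfl⟩ := mem_image.1 hv
      rw [inj s hs s' hs' e])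
    (fun u hu v hv => by
      obtain ⟨s, hs, rfl⟩ := mem_image.1 hu
      obtain ⟨s', hs', rfl⟩ := mem_image.1 hv
      simpa [hφ] using (h2 s (k s hs).1 s' (k s' hs').1).2)
    (by
      rw [card_image_of_injOn fun s hs s' hs' e => inj s hs s' hs' (by rw [e])]
      omega)
  exact (mC s0 m0).1.2 ⟨(u, v, w), mem_filter.2 ⟨mem_product.2 ⟨k2 u hu c0.1,
    mem_product.2 ⟨k2 v hv c0.2.1, k2 w hw c0.2.2⟩⟩, c1, c2⟩, c3, k1 u hu, c4⟩

theorem big_dvd (H Z : ℕ) (hZ : 1 ≤ Z) (p : ℕ) [Fact p.Prime] (hp : 2 * H < p) (g : ℕ)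
    (a K L : ℤ) (M : ℕ) (ha : ¬ (p : ℤ) ∣ a) (hM : M ≤ H) (ht : M < orderOf (g : ZMod p))
    (hJ : (2 * Z - 1) * max 6 (Nat.log 2 (M - 1) + 2) + (Z - 1) <
      ((Icc (K + 1) (K + M) ×ˢ Icc (L + 1) (L + M)).filter
        fun xy : ℤ × ℤ => (xy.2 : ZMod p) = a * (g : ZMod p) ^ xy.1).card) :
    (p : ℤ) ^ (Z * Z) ∣ ∏ π ∈ pats (H / Z) H, res (H / Z) π := by
  classical
  have hg : (g : ZMod p) ≠ 0 := by
    intro h0
    rw [h0, orderOf_zero] at ht
    omega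
  have ha' : (a : ZMod p) ≠ 0 := fun h => ha ((ZMod.intCast_zmod_eq_zero_iff_dvd a p).1 h)
  have gi : ∀ x x' : ℤ, |x' - x| ≤ M → (g : ZMod p) ^ x = (g : ZMod p) ^ x' → x = x' := by
    intro x x' b h3
    have h4 : Units.mk0 (g : ZMod p) hg ^ x = Units.mk0 (g : ZMod p) hg ^ x' := by
      ext
      simpa using h3
    rw [zpow_eq_zpow_iff_modEq, ← orderOf_units, Units.val_mk0] at h4
    have h5 := Int.eq_zero_of_abs_lt_dvd h4.dvd (by omega)
    omega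
  set P := (Icc (K + 1) (K + M) ×ˢ Icc (L + 1) (L + M)).filter
    fun xy : ℤ × ℤ => (xy.2 : ZMod p) = a * (g : ZMod p) ^ xy.1 with hP
  have mP : ∀ s ∈ P, ((K + 1 ≤ s.1 ∧ s.1 ≤ K + M) ∧ L + 1 ≤ s.2 ∧ s.2 ≤ L + M) ∧
      (s.2 : ZMod p) = a * (g : ZMod p) ^ s.1 := fun s hs => by
    simpa only [hP, mem_filter, mem_product, mem_Icc] using hs
  have h2 : ∀ s ∈ P, ∀ s' ∈ P, |s.1 - s'.1| ≤ (M - 1 : ℕ) ∧ |s.2 - s'.2| ≤ (M - 1 : ℕ) := by
    intro s hs s' hs'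
    have := (mP s hs).1
    have := (mP s' hs').1
    simp only [abs_le]
    omega
  have h3 : ∀ s ∈ P, ∀ s' ∈ P, (g : ZMod p) ^ s.1 = (g : ZMod p) ^ s'.1 → s = s' := by
    intro s hs s' hs' e
    have b := h2 s' hs' s hs
    refine Prod.ext (gi _ _ (by omega) e) ?_
    have e1 : (s.2 : ZMod p) = s'.2 := by rw [(mP s hs).2, (mP s' hs').2, e]
    have := Int.eq_zero_of_abs_lt_dvd ((ZMod.intCast_eq_intCast_iff_dvd_sub _ _ _).1 e1)
      (by omega)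
    omega
  have hZM : Z ≤ M := by
    have := card_le_card_of_injOn (s := P) (t := Icc (K + 1) (K + M)) Prod.fst
      (fun s hs => mem_Icc.2 (mP s hs).1.1) fun s hs s' hs' e => h3 s hs s' hs' (by rw [e])
    rw [Int.card_Icc] at this
    have h0 := Nat.le_mul_of_pos_right (2 * Z - 1) (show 0 < max 6 (Nat.log 2 (M - 1) + 2) by omega)
    omega
  have c1 : ∀ T ∈ Ico Z (2 * Z), Z ≤ ((pats (H / Z) H).filter (Act ((g : ZMod p) ^ T))).card := by
    intro T hT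
    rw [mem_Ico] at hT
    have b1 := cls p g a hg ha' (M - 1) H Z T hZ hT.1 (by omega) P (fun s hs => (mP s hs).2) h2 h3
    have b2 := Nat.mul_le_mul_left (max 6 (Nat.log 2 (M - 1) + 2)) (show T ≤ 2 * Z - 1 by omega)
    rw [mul_comm] at hJ
    omega
  have c2 := card_nsmul_le_sum _ _ _ c1
  rw [Nat.card_Ico, show 2 * Z - Z = Z by omega, smul_eq_mul] at c2
  simp only [card_filter] at c2
  rw [sum_comm] at c2
  simp only [← card_filter] at c2
  refine (pow_dvd_pow _ c2).trans ?_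
  rw [← prod_pow_eq_pow_sum]
  refine prod_dvd_prod_of_dvd _ _ fun π hπ => ?_
  rw [← card_image_of_injOn (f := fun T => (g : ZMod p) ^ T) fun T hT T' hT' e => by
    have b1 := mem_Ico.1 (mem_filter.1 hT).1
    have b2 := mem_Ico.1 (mem_filter.1 hT').1
    have := gi T T' (abs_le.2 (by omega)) (by simpa using e)
    omega]
  refine dvd_pat _ H p (Nat.div_le_self _ _) hp π hπ _ fun G hG => ?_
  obtain ⟨T, hT, rfl⟩ := mem_image.1 hG
  exact (mem_filter.1 hT).2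

theorem main (H Z : ℕ) (hZ : 1 ≤ Z) (hZH : Z ≤ H) :
    ∃ E : Finset ℕ, E.card * Z ^ 6 ≤ 111 * H ^ 7 ∧ (∀ p ∉ E, 2 * H < p) ∧
      ∀ (p : ℕ) [Fact p.Prime], p ∉ E → ∀ (g : ℕ) (a K L : ℤ) (M : ℕ),
        ¬ (p : ℤ) ∣ a → M ≤ H → M < orderOf (g : ZMod p) →
        ((Icc (K + 1) (K + M) ×ˢ Icc (L + 1) (L + M)).filter
          fun xy : ℤ × ℤ => (xy.2 : ZMod p) = a * (g : ZMod p) ^ xy.1).card ≤
          (2 * Z - 1) * max 6 (Nat.log 2 (M - 1) + 2) + (Z - 1) := by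
  classical
  have hH : 1 ≤ H := hZ.trans hZH
  set U := H / Z with hU
  set R := ∏ π ∈ pats U H, res U π with hR
  have R0 : R ≠ 0 := prod_ne_zero_iff.2 fun π hπ => (res_pat U H hH π hπ).1
  set E := R.natAbs.primeFactors.filter fun p => 2 * H < p ∧ p ^ (Z * Z) ∣ R.natAbs with hE
  refine ⟨range (2 * H + 1) ∪ E, ?_, fun p hp => by
    rw [mem_union, not_or, mem_range] at hp
    omega, fun p _ hp g a K L M ha hM ht => ?_⟩
  · have d1 : ∏ p ∈ E, p ^ (Z * Z) ∣ R.natAbs := by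
      rw [← Int.natCast_dvd_natCast, Nat.cast_prod]
      refine prod_dvd_of_coprime (fun p hp q hq hpq => ?_) fun p hp =>
        Int.natCast_dvd_natCast.2 (mem_filter.1 hp).2.2
      exact Nat.isCoprime_iff_coprime.2 (Nat.coprime_pow_primes _ _
        (Nat.prime_of_mem_primeFactors (mem_filter.1 hp).1)
        (Nat.prime_of_mem_primeFactors (mem_filter.1 hq).1) hpq)
    have d2 : ((2 * H) ^ (Z * Z)) ^ E.card ≤ R.natAbs :=
      (pow_card_le_prod _ _ _ fun p hp =>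
        Nat.pow_le_pow_left (mem_filter.1 hp).2.1.le _).trans
        (Nat.le_of_dvd (Int.natAbs_pos.2 R0) d1)
    have d3 : R.natAbs ≤ ((4 * H) ^ (2 * U)) ^ (pats U H).card := by
      refine (map_prod Int.natAbsHom _ _).trans_le (prod_le_pow_card _ _ _ fun π hπ => ?_)
      have := (res_pat U H hH π hπ).2
      rw [← Int.cast_abs, Int.abs_eq_natAbs] at this
      exact_mod_cast this
    have d4 : ((4 * H) ^ (2 * U)) ^ (pats U H).card ≤ (2 * H) ^ (2 * (2 * U) * (U * (3 * H)) ^ 3) := by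
      rw [pow_mul (2 * H), pow_mul (2 * H)]
      refine (Nat.pow_le_pow_left (Nat.pow_le_pow_left (show 4 * H ≤ (2 * H) ^ 2 by nlinarith) _)
        _).trans
        (Nat.pow_le_pow_right (by positivity) ((pats_card U H).trans ?_))
      gcongr
      omega
    have d5 := (d2.trans d3).trans d4
    rw [← pow_mul, Nat.pow_le_pow_iff_right (by omega)] at d5
    have u1 : U * Z ≤ H := Nat.div_mul_le_self _ _
    have d6 : E.card * Z ^ 6 ≤ 108 * H ^ 7 :=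
      calc E.card * Z ^ 6 = Z * Z * E.card * Z ^ 4 := by ring
        _ ≤ 2 * (2 * U) * (U * (3 * H)) ^ 3 * Z ^ 4 := Nat.mul_le_mul_right _ d5
        _ = 108 * (U * Z) ^ 4 * H ^ 3 := by ring
        _ ≤ 108 * H ^ 4 * H ^ 3 := by gcongr
        _ = 108 * H ^ 7 := by ring
    have d7 : (2 * H + 1) * Z ^ 6 ≤ 3 * H ^ 7 :=
      calc (2 * H + 1) * Z ^ 6 ≤ (3 * H) * H ^ 6 := by gcongr; omega
        _ = 3 * H ^ 7 := by ring
    have d8 := Nat.mul_le_mul_right (Z ^ 6) (card_union_le (range (2 * H + 1)) E)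
    rw [card_range, add_mul] at d8
    omega
  · by_contra hJ
    rw [mem_union, not_or, mem_range] at hp
    have b := big_dvd H Z hZ p (by omega) g a K L M ha hM ht (not_le.1 hJ)
    have b' : p ^ (Z * Z) ∣ R.natAbs := by
      rw [← Int.natCast_dvd, Nat.cast_pow]
      exact b
    exact hp.2 (mem_filter.2 ⟨Nat.mem_primeFactors.2 ⟨Fact.out,
      (dvd_pow_self p (by positivity)).trans b', Int.natAbs_ne_zero.2 R0⟩, by omega, b'⟩)

theorem low (p : ℕ) [Fact p.Prime] (M : ℕ) (hM : 2 ≤ M) (hp : 4 < p) :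
    ∃ a K L : ℤ, ¬ (p : ℤ) ∣ a ∧ Nat.log 2 (M - 1) + 2 ≤
      ((Icc (K + 1) (K + M) ×ˢ Icc (L + 1) (L + M)).filter
        fun xy : ℤ × ℤ => (xy.2 : ZMod p) = a * ((p - 2 : ℕ) : ZMod p) ^ xy.1).card := by
  classical
  have hu : ∀ x : ℕ, ∃ u : ℤ, (-2) ^ x = 3 * u + 1 := fun x => by
    induction x with
    | zero => exact ⟨0, by simp⟩
    | succ x ih =>
      obtain ⟨u, e⟩ := ih
      exact ⟨-2 * u - 1, by rw [pow_succ, e]; ring⟩
  choose u hu using hu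
  set n := Nat.log 2 (M - 1) with hn
  have n1 : 2 ^ n ≤ M - 1 := Nat.pow_log_le_self 2 (by omega)
  have n2 : n < M - 1 := Nat.log_lt_self 2 (by omega)
  have n3 : (2 : ℤ) ^ n ≤ M - 1 := by
    have : ((2 ^ n : ℕ) : ℤ) ≤ ((M - 1 : ℕ) : ℤ) := by exact_mod_cast n1
    push_cast [Nat.cast_sub (show 1 ≤ M by omega)] at this
    exact this
  obtain ⟨m, hm⟩ : ∃ m : ℤ, ∀ x < n + 2, m ≤ u x ∧ u x ≤ m + 2 ^ n := by
    have b : ∀ x ≤ n, |3 * u x + 1| ≤ 2 ^ n := fun x hx => by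
      rw [← hu, abs_pow, abs_neg, abs_two]
      exact pow_le_pow_right₀ one_le_two hx
    have e1 := hu (n + 1)
    have e0 := hu n
    rw [pow_succ] at e1
    have p0 : (0 : ℤ) < 2 ^ n := by positivity
    rcases neg_one_pow_eq_or ℤ n with e | e <;> rw [neg_pow, e] at e0 e1
    · refine ⟨u (n + 1), fun x hx => ?_⟩
      rcases Nat.lt_succ_iff_lt_or_eq.1 hx with c | rfl
      · have := abs_le.1 (b x (by omega))
        omega
      · omega
    · refine ⟨u n, fun x hx => ?_⟩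
      rcases Nat.lt_succ_iff_lt_or_eq.1 hx with c | rfl
      · have := abs_le.1 (b x (by omega))
        omega
      · omega
  have h3 : (3 : ZMod p) ≠ 0 := fun e => by
    have := Nat.le_of_dvd three_pos ((ZMod.natCast_eq_zero_iff 3 p).1 (by exact_mod_cast e))
    omega
  set a : ℤ := ((3 : ZMod p)⁻¹.val : ℤ) with ha
  have a1 : (a : ZMod p) = 3⁻¹ := by simp [ha]
  refine ⟨a, -1, a + m - 1, fun c => inv_ne_zero h3 (a1 ▸
    (ZMod.intCast_zmod_eq_zero_iff_dvd a p).2 c), ?_⟩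
  refine (card_range (n + 2)).symm.trans_le (card_le_card_of_injOn
    (fun x : ℕ => ((x : ℤ), a + u x)) (fun x hx => ?_) fun x _ y _ e =>
      Nat.cast_injective (R := ℤ) (Prod.ext_iff.1 e).1)
  have hx := mem_range.1 hx
  have b := hm x hx
  refine mem_filter.2 ⟨mem_product.2 ⟨mem_Icc.2 (by simp only; omega),
    mem_Icc.2 (by simp only; omega)⟩, ?_⟩
  have e := congrArg (Int.cast : ℤ → ZMod p) (hu x)
  push_cast [Nat.cast_sub (show 2 ≤ p by omega), ZMod.natCast_self] at e ⊢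
  rw [zero_sub, zpow_natCast, e, a1]
  field_simp
  ring

theorem ord (H : ℕ) : ∃ E : Finset ℕ, E.card ≤ 2 * H ^ 2 ∧
    ∀ (p : ℕ) [Fact p.Prime], p ∉ E → 2 < p → H < orderOf ((p - 2 : ℕ) : ZMod p) := by
  classical
  set W : ℤ := ∏ k ∈ Icc 1 H, ((-2) ^ k - 1) with hW
  have W0 : W ≠ 0 := prod_ne_zero_iff.2 fun k hk e => by
    have : (2 : ℤ) ∣ (-2) ^ k := dvd_pow (by simp) (by have := mem_Icc.1 hk; omega)
    omega
  refine ⟨W.natAbs.primeFactors, ?_, fun p _ hp h2 => ?_⟩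
  · have d1 := (pow_card_le_prod _ _ 2 fun p hp =>
      (Nat.prime_of_mem_primeFactors hp).two_le).trans
      (Nat.le_of_dvd (Int.natAbs_pos.2 W0) (Nat.prod_primeFactors_dvd W.natAbs))
    have d2 : W.natAbs ≤ (2 ^ (2 * H)) ^ (Icc 1 H).card := by
      refine (map_prod Int.natAbsHom _ _).trans_le (prod_le_pow_card _ _ _ fun k hk => ?_)
      have hk := mem_Icc.1 hk
      refine (Int.natAbs_sub_le _ _).trans ?_
      rw [Int.natAbs_pow]
      have := Nat.pow_le_pow_right two_pos (show k + 1 ≤ 2 * H by omega)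
      have := Nat.one_le_two_pow (n := k)
      simp only [Int.reduceNeg, Int.natAbs_neg, Int.reduceAbs, Int.natAbs_one, pow_succ] at *
      omega
    have d3 := d1.trans d2
    rw [← pow_mul, Nat.pow_le_pow_iff_right one_lt_two, Nat.card_Icc, Nat.add_sub_cancel] at d3
    exact d3.trans_eq (by ring)
  · by_contra c
    have g0 : ((p - 2 : ℕ) : ZMod p) ≠ 0 := fun e => by
      have := Nat.le_of_dvd (by omega) ((ZMod.natCast_eq_zero_iff _ p).1 e)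
      omega
    have o1 := (isOfFinOrder_iff_pow_eq_one.2 ⟨p - 1, by omega,
      ZMod.pow_card_sub_one_eq_one g0⟩).orderOf_pos
    have o2 := pow_orderOf_eq_one ((p - 2 : ℕ) : ZMod p)
    set k := orderOf ((p - 2 : ℕ) : ZMod p)
    refine hp (Nat.mem_primeFactors.2 ⟨Fact.out, Int.natCast_dvd.1 (Dvd.dvd.trans ?_
      (dvd_prod_of_mem _ (mem_Icc.2 ⟨o1, not_lt.1 c⟩))), Int.natAbs_ne_zero.2 W0⟩)
    rw [← ZMod.intCast_zmod_eq_zero_iff_dvd]
    push_cast [Nat.cast_sub h2.le, ZMod.natCast_self] at o2 ⊢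
    rw [zero_sub] at o2
    rw [o2, sub_self]

end Pool.Agent.MP_bd74a7_nt.Ap
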