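import Pool.Agent.MP_bd74a7_nt.ApZ

/-!
Resultants of two trinomials: size, non-vanishing, and divisibility by powers of `p`.
-/

open Finset Polynomial UniqueFactorizationMonoid

namespace Pool.Agent.MP_bd74a7_nt.Ap

theorem gauss {K : Type} [Field K] [CharZero K] (φ F : ℤ[X]) (hφ : Irreducible φ)
    (hd : φ.natDegree ≠ 0) (α : K) (h1 : aeval α φ = 0) (h2 : aeval α F = 0) : φ ∣ F := by
  have hp := hφ.isPrimitive hd
  rw [IsPrimitive.Int.dvd_iff_map_cast_dvd_map_cast _ _ hp]
  refine (EuclideanDomain.dvd_or_coprime _ _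
    ((IsPrimitive.Int.irreducible_iff_irreducible_map_cast hp).1 hφ)).resolve_right ?_
  rintro ⟨a, b, e⟩
  have := congrArg (aeval α) e
  rw [map_add, map_mul, map_mul, ← algebraMap_int_eq, aeval_map_algebraMap, aeval_map_algebraMap,
    h1, h2] at this
  simp at this

open Classical in
/-- The product of the irreducible factors of `F` that do not divide `F'`. -/
noncomputable def cop (F F' : ℤ[X]) : ℤ[X] := ((factors F).filter fun φ => ¬ φ ∣ F').prod

theorem cop_dvd (F F' : ℤ[X]) (hF : F ≠ 0) : cop F F' ∣ F := by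
  classical
  exact (Multiset.prod_dvd_prod_of_le (Multiset.filter_le _ _)).trans (factors_prod hF).dvd

theorem cop_root (F F' : ℤ[X]) (α : ℂ) (h : aeval α (cop F F') = 0) : aeval α F' ≠ 0 := by
  classical
  intro e
  rw [cop, map_multiset_prod, Multiset.prod_eq_zero_iff, Multiset.mem_map] at h
  obtain ⟨φ, h1, h2⟩ := h
  rw [Multiset.mem_filter] at h1
  have hi := irreducible_of_factor φ h1.1
  refine h1.2 (gauss φ F' hi (fun hd => ?_) α h2 e)
  obtain ⟨k, rfl⟩ := natDegree_eq_zero.1 hd
  apply hi.ne_zero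
  simpa using h2

/-- The sum of the moduli of the coefficients. -/
noncomputable def l1 (F : ℂ[X]) : ℝ := F.sum fun _ a => ‖a‖

theorem l1_add (F G : ℂ[X]) : l1 (F + G) ≤ l1 F + l1 G := by
  unfold l1
  rw [sum_eq_of_subset _ (by simp) (support_add (p := F) (q := G)),
    sum_eq_of_subset (p := F) _ (by simp) (subset_union_left (s₂ := G.support)),
    sum_eq_of_subset (p := G) _ (by simp) (subset_union_right (s₁ := F.support)), ← sum_add_distrib]
  exact sum_le_sum fun i _ => by rw [coeff_add]; exact norm_add_le _ _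

theorem l1_mono (n : ℕ) (a : ℂ) : l1 (monomial n a) = ‖a‖ := sum_monomial_index _ _ (by simp)

theorem eval_le (F : ℂ[X]) (n : ℕ) (hn : F.natDegree ≤ n) (z : ℂ) :
    ‖F.eval z‖ ≤ l1 F * max 1 ‖z‖ ^ n := by
  rw [eval_eq_sum, l1, Polynomial.sum, Polynomial.sum, sum_mul]
  refine norm_sum_le_of_le _ fun i hi => ?_
  rw [norm_mul, norm_pow]
  refine mul_le_mul_of_nonneg_left ((pow_le_pow_left₀ (norm_nonneg _) (le_max_right 1 _) i).trans
    (pow_le_pow_right₀ (le_max_left _ _) ((le_natDegree_of_mem_supp i hi).trans hn))) (norm_nonneg _)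

theorem res_bd (F F' : ℤ[X]) (hF : F ≠ 0) (n : ℕ) (h1 : F.natDegree ≤ n) (h2 : F'.natDegree ≤ n)
    (L : ℝ) (hL : 1 ≤ L) (l : l1 (F.map (Int.castRingHom ℂ)) ≤ L)
    (l' : l1 (F'.map (Int.castRingHom ℂ)) ≤ L) :
    resultant (cop F F') F' (cop F F').natDegree n ≠ 0 ∧
      |((resultant (cop F F') F' (cop F F').natDegree n : ℤ) : ℝ)| ≤ L ^ (2 * n) := by
  set f := cop F F' with hf
  obtain ⟨k, hk⟩ : f ∣ F := cop_dvd F F' hF
  have f0 : f ≠ 0 := left_ne_zero_of_mul (hk ▸ hF)
  have k0 : k ≠ 0 := right_ne_zero_of_mul (hk ▸ hF)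
  have inj := (Int.castRingHom ℂ).injective_int
  have e := resultant_eq_prod_eval (f.map (Int.castRingHom ℂ)) (F'.map (Int.castRingHom ℂ)) n
    (natDegree_map_le.trans h2) (IsAlgClosed.splits _)
  rw [resultant_map_map, natDegree_map_eq_of_injective inj, eq_intCast] at e
  have f0' : f.map (Int.castRingHom ℂ) ≠ 0 := (Polynomial.map_ne_zero_iff inj).2 f0
  refine ⟨fun h => ?_, ?_⟩
  · rw [h, Int.cast_zero, eq_comm, mul_eq_zero, Multiset.prod_eq_zero_iff, Multiset.mem_map] at e
    rcases e with e | ⟨α, a1, a2⟩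
    · exact leadingCoeff_ne_zero.2 f0' (pow_eq_zero_iff'.1 e).1
    · rw [mem_roots f0', IsRoot, ← algebraMap_int_eq, eval_map_algebraMap] at a1
      rw [← algebraMap_int_eq, eval_map_algebraMap] at a2
      exact cop_root F F' α a1 a2
  · have m1 : (f.map (Int.castRingHom ℂ)).mahlerMeasure ≤ L := by
      refine le_trans ?_ ((mahlerMeasure_le_sum_norm_coeff _).trans l)
      rw [hk, Polynomial.map_mul, mahlerMeasure_mul]
      exact le_mul_of_one_le_right (mahlerMeasure_nonneg _) (one_le_mahlerMeasure_of_ne_zero k0)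
    have d1 : Multiset.card (f.map (Int.castRingHom ℂ)).roots ≤ n :=
      (card_roots' _).trans (natDegree_map_le.trans ((natDegree_le_of_dvd ⟨k, hk⟩ hF).trans h1))
    have b : ∀ s : Multiset ℂ, ‖(s.map (F'.map (Int.castRingHom ℂ)).eval).prod‖ ≤
        L ^ Multiset.card s * (s.map fun a => max 1 ‖a‖).prod ^ n := fun s => by
      induction s using Multiset.induction_on with
      | empty => simp
      | cons z s ih =>
        simp only [Multiset.map_cons, Multiset.prod_cons, Multiset.card_cons, norm_mul]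
        refine (mul_le_mul ((eval_le _ n (natDegree_map_le.trans h2) z).trans
          (mul_le_mul_of_nonneg_right l' (by positivity))) ih (norm_nonneg _)
          (by positivity)).trans_eq (by ring)
    rw [← Complex.norm_intCast, e, norm_mul, norm_pow]
    refine (mul_le_mul_of_nonneg_left (b _) (by positivity)).trans ?_
    rw [mul_left_comm, ← mul_pow, ← mahlerMeasure_eq_leadingCoeff_mul_prod_roots, two_mul, pow_add]
    exact mul_le_mul (pow_le_pow_right₀ hL d1) (pow_le_pow_left₀ (mahlerMeasure_nonneg _) m1 n)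
      (pow_nonneg (mahlerMeasure_nonneg _) _) (by positivity)

theorem row_aux {R : Type} [CommRing R] (G : R) (q : R[X]) (d j N : ℕ) (hq : q.natDegree ≤ d)
    (hN : j + d < N) (h : q.eval G = 0) :
    ∑ k : Fin N, G ^ (k : ℕ) * (if (k : ℕ) ∈ Set.Icc j (j + d) then q.coeff (k - j) else 0) = 0 := by
  have e : (X ^ j * q).eval G = 0 := by simp [h]
  rw [eval_eq_sum_range' (n := N) ((natDegree_mul_le.trans
    (add_le_add (natDegree_X_pow_le j) hq)).trans_lt hN), Finset.sum_range] at e
  refine (sum_congr rfl fun k _ => ?_).trans e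
  rw [mul_comm, coeff_X_pow_mul']
  congr 1
  by_cases c1 : j ≤ k
  · by_cases c2 : (k : ℕ) ≤ j + d
    · rw [if_pos ⟨c1, c2⟩, if_pos c1]
    · rw [if_neg fun c => c2 c.2, if_pos c1, coeff_eq_zero_of_natDegree_lt (by omega)]
  · rw [if_neg fun c => c1 c.1, if_neg c1]

theorem pow_dvd_res (p : ℕ) [Fact p.Prime] (f g : ℤ[X]) (m n : ℕ) (hf : f.natDegree ≤ m)
    (hg : g.natDegree ≤ n) (hp : m + n ≤ p) (Γ : Finset (ZMod p)) (hΓ : Γ.card ≤ m + n)
    (h : ∀ G ∈ Γ, aeval G f = 0 ∧ aeval G g = 0) : (p : ℤ) ^ Γ.card ∣ resultant f g m n := by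
  classical
  obtain ⟨Γ', s1, -, s2⟩ := exists_subsuperset_card_eq (subset_univ Γ) hΓ
    (by rwa [card_univ, ZMod.card])
  set e := (equivFinOfCardEq s2).symm with he
  set γ : Fin (m + n) → ℤ := fun i => ((e i : ZMod p).val : ℤ) with hγ
  have hc : ∀ i, (γ i : ZMod p) = e i := fun i => by simp [hγ]
  set W := Matrix.vandermonde γ with hW
  set v : Fin (m + n) → ℤ := fun i => if (e i : ZMod p) ∈ Γ then p else 1 with hv
  have dv : ∀ i j, v i ∣ (W * sylvester f g m n) i j := fun i j => by
    simp only [hv]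
    split_ifs with c
    · rw [← ZMod.intCast_zmod_eq_zero_iff_dvd, Matrix.mul_apply]
      obtain ⟨r1, r2⟩ := h _ c
      rw [← eval_map_algebraMap] at r1 r2
      push_cast
      simp only [hW, Matrix.vandermonde_apply, Int.cast_pow, hc]
      induction j using Fin.addCases with
      | left j =>
        have := row_aux _ _ n j (m + n) (natDegree_map_le.trans hg) (by omega) r2
        simpa [sylvester, apply_ite] using this
      | right j =>
        have := row_aux _ _ m j (m + n) (natDegree_map_le.trans hf) (by omega) r1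
        simpa [sylvester, apply_ite] using this
    · exact one_dvd _
  choose A hA using dv
  have e1 : W.det * resultant f g m n = (∏ i, v i) * (Matrix.of A).det := by
    rw [resultant, ← Matrix.det_mul, ← Matrix.det_mul_column]
    congr 1
    ext i j
    exact hA i j
  have e2 : ∏ i, v i = (p : ℤ) ^ Γ.card := by
    rw [hv, prod_ite, prod_const, prod_const_one, mul_one]
    congr 1
    refine card_bij (fun i _ => (e i : ZMod p)) (fun i hi => (mem_filter.1 hi).2)
      (fun i _ j _ c => e.injective (Subtype.ext c)) fun G hG =>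
        ⟨e.symm ⟨G, s1 hG⟩, by simp [hG], by simp⟩
  refine (Nat.prime_iff_prime_int.1 Fact.out).pow_dvd_of_dvd_mul_left (a := W.det) _ (fun c => ?_)
    ⟨_, e1.trans (by rw [e2])⟩
  rw [← ZMod.intCast_zmod_eq_zero_iff_dvd, hW, Matrix.det_vandermonde] at c
  push_cast at c
  simp only [hc] at c
  rw [← Matrix.det_vandermonde fun i => (e i : ZMod p)] at c
  exact Matrix.det_vandermonde_ne_zero_iff.2 (Subtype.val_injective.comp e.injective) c

end Pool.Agent.MP_bd74a7_nt.Ap
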