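import Mathlib

/-!
Integer points on a curve `w - B = A * β ^ h` over a number field: at most `log₂ M + 6` of them
have `w` in an interval of length `M`.
-/

open Finset Polynomial NumberField

namespace Pool.Agent.MP_bd74a7_nt.Ap

theorem rolle6 (r s r' s' l m k : ℝ) (hs : 0 ≤ s) (hs' : 0 ≤ s') (hl : l ≠ 0)
    (hne : ¬ (r = r' ∧ s = s')) (S : Finset ℝ)
    (h : ∀ v ∈ S, 0 < (v - r) ^ 2 + s ∧ 0 < (v - r') ^ 2 + s' ∧
      m * Real.log ((v - r) ^ 2 + s) - l * Real.log ((v - r') ^ 2 + s') = k) : S.card ≤ 6 := by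
  classical
  set N : ℝ[X] := C m * (X - C r) * ((X - C r') ^ 2 + C s') -
    C l * (X - C r') * ((X - C r) ^ 2 + C s) with hN
  have hev : ∀ v : ℝ, N.eval v =
      m * (v - r) * ((v - r') ^ 2 + s') - l * (v - r') * ((v - r) ^ 2 + s) := fun v => by
    simp [hN]
  have hN0 : N ≠ 0 := by
    intro e
    have ev : ∀ v : ℝ, m * (v - r) * ((v - r') ^ 2 + s') - l * (v - r') * ((v - r) ^ 2 + s) = 0 :=
      fun v => by rw [← hev, e, eval_zero]
    have h1 : m = l := by linear_combination (ev 2 - 3 * ev 1 + 3 * ev 0 - ev (-1)) / 6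
    subst h1
    have h2 : r = r' := mul_left_cancel₀ hl (by
      linear_combination (ev 1 - 2 * ev 0 + ev (-1)) / 2)
    subst h2
    exact hne ⟨rfl, mul_left_cancel₀ hl (by linear_combination -ev (r + 1))⟩
  have hd : N.natDegree ≤ 3 := by
    rw [hN]
    compute_degree
  have h1 := card_le_of_interleaved (s := S) (t := insert r (insert r' N.roots.toFinset))
    fun x hx y hy hxy _ => by
      by_cases c1 : x < r ∧ r < y
      · exact ⟨r, by simp, c1⟩
      by_cases c2 : x < r' ∧ r' < y
      · exact ⟨r', by simp, c2⟩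
      have pos : ∀ a b : ℝ, 0 ≤ b → 0 < (x - a) ^ 2 + b → 0 < (y - a) ^ 2 + b →
          ¬ (x < a ∧ a < y) → ∀ v ∈ Set.Icc x y, (v - a) ^ 2 + b ≠ 0 := by
        intro a b hb p1 p2 p3 v hv e
        have e1 : (v - a) ^ 2 = 0 := by nlinarith [sq_nonneg (v - a)]
        have e2 : v = a := by simpa [sub_eq_zero] using e1
        subst e2
        have e3 : b = 0 := by linarith
        subst e3
        refine p3 ⟨hv.1.lt_of_ne ?_, hv.2.lt_of_ne ?_⟩
        · rintro rfl
          simp at p1
        · rintro rfl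
          simp at p2
      have p1 := pos r s hs (h x hx).1 (h y hy).1 c1
      have p2 := pos r' s' hs' (h x hx).2.1 (h y hy).2.1 c2
      have hder : ∀ v ∈ Set.Icc x y, HasDerivAt
          (fun v => m * Real.log ((v - r) ^ 2 + s) - l * Real.log ((v - r') ^ 2 + s'))
          (m * (2 * (v - r) / ((v - r) ^ 2 + s)) - l * (2 * (v - r') / ((v - r') ^ 2 + s'))) v := by
        intro v hv
        have d : ∀ a b : ℝ, HasDerivAt (fun v => (v - a) ^ 2 + b) (2 * (v - a)) v := fun a b => by
          simpa using (((hasDerivAt_id v).sub_const a).pow 2).add_const b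
        exact (((d r s).log (p1 v hv)).const_mul m).sub (((d r' s').log (p2 v hv)).const_mul l)
      obtain ⟨z, hz, e⟩ := exists_hasDerivAt_eq_zero hxy
        (fun v hv => (hder v hv).continuousAt.continuousWithinAt)
        ((h x hx).2.2.trans (h y hy).2.2.symm) fun v hv => hder v (Set.Ioo_subset_Icc_self hv)
      refine ⟨z, mem_insert_of_mem (mem_insert_of_mem ?_), hz⟩
      rw [Multiset.mem_toFinset, mem_roots hN0, IsRoot, hev]
      have q1 := p1 z (Set.Ioo_subset_Icc_self hz)
      have q2 := p2 z (Set.Ioo_subset_Icc_self hz)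
      field_simp at e
      linear_combination e / 2
  have h2 := (Multiset.toFinset_card_le N.roots).trans ((card_roots' N).trans hd)
  have h3 := card_insert_le r (insert r' N.roots.toFinset)
  have h4 := card_insert_le r' N.roots.toFinset
  omega

theorem fin_val {K : Type} [Field K] [NumberField K] (v : FinitePlace K) :
    ∃ l : ℕ, l.Prime ∧ ∀ n : ℕ, n ≠ 0 → v n = v l ^ padicValNat l n := by
  have hna : IsNonarchimedean v := v.add_le
  by_cases hc : ∃ l : ℕ, l.Prime ∧ v l < 1
  · obtain ⟨l, hl, h1⟩ := hc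
    have := Fact.mk hl
    refine ⟨l, hl, fun n hn => ?_⟩
    obtain ⟨e, m, hm, rfl⟩ := Nat.exists_eq_pow_mul_and_not_dvd hn l hl.ne_one
    obtain ⟨a, b, ab⟩ := Nat.isCoprime_iff_coprime.2 (hl.coprime_iff_not_dvd.2 hm)
    have e1 : (a : K) * l + b * m = 1 := by exact_mod_cast congrArg (Int.cast : ℤ → K) ab
    have e2 := hna ((a : K) * l) (b * m)
    rw [e1, map_one, map_mul, map_mul, le_max_iff] at e2
    have a1 : v a ≤ 1 := hna.apply_intCast_le_one
    have a2 : v b ≤ 1 := hna.apply_intCast_le_one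
    have a3 : v m ≤ 1 := hna.apply_natCast_le_one
    have a4 : 0 ≤ v l := apply_nonneg _ _
    have a5 : 0 ≤ v m := apply_nonneg _ _
    have e3 : v m = 1 := by rcases e2 with e2 | e2 <;> nlinarith
    rw [padicValNat.mul (pow_ne_zero _ hl.ne_zero) (right_ne_zero_of_mul hn),
      padicValNat.prime_pow, padicValNat.eq_zero_of_not_dvd hm]
    push_cast
    rw [map_mul, map_pow, e3, mul_one, add_zero]
  · push Not at hc
    have h1 : ∀ n : ℕ, n ≠ 0 → v n = 1 := fun n => by
      induction n using induction_on_primes with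
      | zero => simp
      | one => simp
      | prime_mul p a hp ih =>
        intro h
        push_cast
        rw [map_mul, ih (right_ne_zero_of_mul h), mul_one]
        exact le_antisymm hna.apply_natCast_le_one (hc p hp)
    exact ⟨2, Nat.prime_two, fun n hn => by rw [h1 n hn, h1 2 two_ne_zero, one_pow]⟩

theorem finZ {K : Type} [Field K] [NumberField K] (v : FinitePlace K) (β A B : K) (hβ : β ≠ 0)
    (hA : A ≠ 0) (hv : v β ≠ 1) (S : Finset ℤ) (h : ℤ → ℕ) (hi : Set.InjOn h S) (M : ℕ)
    (hM : ∀ u ∈ S, ∀ w ∈ S, |u - w| ≤ M) (hq : ∀ w ∈ S, (w : K) - B = A * β ^ h w) :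
    S.card ≤ Nat.log 2 M + 2 := by
  classical
  have hna : IsNonarchimedean v := v.add_le
  obtain ⟨l, hl, hval⟩ := fin_val v
  have inj : ∀ u ∈ S, ∀ w ∈ S, v (u - B) = v (w - B) → u = w := fun u hu w hw e => by
    rw [hq u hu, hq w hw, map_mul, map_mul, map_pow, map_pow] at e
    exact hi hu hw (pow_right_injective₀ (FinitePlace.pos_iff.2 hβ) hv
      (mul_left_cancel₀ (FinitePlace.pos_iff.2 hA).ne' e))
  rcases S.eq_empty_or_nonempty with rfl | hS
  · simp
  obtain ⟨w0, h0, hmin⟩ := exists_min_image S (fun w => v (w - B)) hS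
  have k : ∀ w ∈ S.erase w0, v (w - B) = v l ^ padicValNat l (w - w0).natAbs := fun w hw => by
    obtain ⟨n, hw⟩ := mem_erase.1 hw
    have e := hna.add_eq_left_of_lt (x := w - B) (y := -(w0 - B)) (by
      rw [map_neg_eq_map]
      exact (hmin w hw).lt_of_ne fun e => n (inj w hw w0 h0 e.symm))
    rw [← hval _ (by omega), ← e, show (w : K) - B + -(w0 - B) = ((w - w0 : ℤ) : K) by
      push_cast; ring]
    obtain ⟨n, e | e⟩ := Int.eq_nat_or_neg (w - w0) <;> simp [e]
  have := card_le_card_of_injOn (s := S.erase w0) (t := range (Nat.log 2 M + 1))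
    (fun w => padicValNat l (w - w0).natAbs) (fun w hw => by
      have := hM w (mem_erase.1 hw).2 w0 h0
      rw [Int.abs_eq_natAbs] at this
      exact mem_range.2 (Nat.lt_succ_of_le ((padicValNat_le_nat_log _).trans
        ((Nat.log_anti_left one_lt_two hl.two_le).trans (Nat.log_mono_right (by omega))))))
    fun u hu w hw e => inj u (mem_erase.1 hu).2 w (mem_erase.1 hw).2 (by
      rw [k u hu, k w hw]
      exact congrArg _ e)
  rw [card_erase_of_mem h0, card_range] at this
  omega

theorem lemZ (K : Type) [Field K] [NumberField K] (β A B : K) (hβ : β ≠ 0) (hA : A ≠ 0)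
    (S : Finset ℤ) (h : ℤ → ℕ) (hi : Set.InjOn h S) (M : ℕ)
    (hM : ∀ v ∈ S, ∀ w ∈ S, |v - w| ≤ M) (hq : ∀ w ∈ S, (w : K) - B = A * β ^ h w) :
    S.card ≤ max 6 (Nat.log 2 M + 2) := by
  classical
  by_cases c0 : ∃ v : FinitePlace K, v β ≠ 1
  · obtain ⟨v, hv⟩ := c0
    exact (finZ v β A B hβ hA hv S h hi M hM hq).trans (le_max_right _ _)
  refine le_trans ?_ (le_max_left _ _)
  have key : ∀ σ : K →+* ℂ, ∀ w ∈ S, ((w : ℝ) - (σ B).re) ^ 2 + (σ B).im ^ 2 =
      Complex.normSq (σ A) * Complex.normSq (σ β) ^ h w := fun σ w hw => by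
    have := congrArg (fun z => Complex.normSq (σ z)) (hq w hw)
    simp only [map_mul, map_pow, map_sub, map_intCast] at this
    rw [← this, Complex.normSq_apply]
    simp
    ring
  have pA : ∀ σ : K →+* ℂ, 0 < Complex.normSq (σ A) := fun σ =>
    Complex.normSq_pos.2 ((map_ne_zero σ).2 hA)
  have pβ : ∀ σ : K →+* ℂ, 0 < Complex.normSq (σ β) := fun σ =>
    Complex.normSq_pos.2 ((map_ne_zero σ).2 hβ)
  by_contra hS
  obtain ⟨w1, w2, w3, a1, a2, a3, n12, n13, n23⟩ := two_lt_card_iff.1 (show 2 < S.card by omega)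
  have c1 : ∀ σ : K →+* ℂ, Complex.normSq (σ β) ≠ 1 := fun σ e => by
    have k1 := key σ w1 a1
    have k2 := key σ w2 a2
    have k3 := key σ w3 a3
    rw [e, one_pow] at k1 k2 k3
    have z1 : (w1 : ℝ) - w2 ≠ 0 := by exact_mod_cast sub_ne_zero.2 n12
    have z2 : (w1 : ℝ) - w3 ≠ 0 := by exact_mod_cast sub_ne_zero.2 n13
    have e1 : (w1 : ℝ) + w2 = 2 * (σ B).re := mul_left_cancel₀ z1 (by linear_combination k1 - k2)
    have e2 : (w1 : ℝ) + w3 = 2 * (σ B).re := mul_left_cancel₀ z2 (by linear_combination k1 - k3)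
    exact n23 (by exact_mod_cast (show (w2 : ℝ) = w3 by linarith))
  have c2 : ∀ σ τ : K →+* ℂ, (σ B).re = (τ B).re ∧ (σ B).im ^ 2 = (τ B).im ^ 2 := fun σ τ => by
    by_contra e
    have := rolle6 _ _ _ _ (Real.log (Complex.normSq (σ β))) (Real.log (Complex.normSq (τ β)))
      (Real.log (Complex.normSq (τ β)) * Real.log (Complex.normSq (σ A)) -
        Real.log (Complex.normSq (σ β)) * Real.log (Complex.normSq (τ A)))
      (sq_nonneg _) (sq_nonneg _) (Real.log_ne_zero_of_pos_of_ne_one (pβ σ) (c1 σ)) e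
      (S.image fun w : ℤ => (w : ℝ)) fun v hv => by
        obtain ⟨w, hw, rfl⟩ := mem_image.1 hv
        have := pA σ
        have := pA τ
        have := pβ σ
        have := pβ τ
        rw [key σ w hw, key τ w hw]
        refine ⟨by positivity, by positivity, ?_⟩
        rw [Real.log_mul (by positivity) (by positivity),
          Real.log_mul (by positivity) (by positivity), Real.log_pow, Real.log_pow]
        ring
    rw [card_image_of_injective _ Int.cast_injective] at this
    omega
  have c3 : ∀ σ τ : K →+* ℂ, ‖σ β‖ = ‖τ β‖ := fun σ τ => by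
    have k1 := key σ w1 a1
    have k2 := key σ w2 a2
    rw [(c2 σ τ).1, (c2 σ τ).2, key τ _ a1] at k1
    rw [(c2 σ τ).1, (c2 σ τ).2, key τ _ a2] at k2
    have := pA σ
    have := pA τ
    have b1 := pβ σ
    have b2 := pβ τ
    have e : Complex.normSq (σ β) / Complex.normSq (τ β) = 1 := by
      by_contra c
      refine n12 (hi a1 a2 (pow_right_injective₀ (div_pos b1 b2) c ?_))
      trans Complex.normSq (τ A) / Complex.normSq (σ A)
      · simp only [div_pow]
        field_simp
        linear_combination -k1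
      · simp only [div_pow]
        field_simp
        linear_combination k2
    rw [div_eq_one_iff_eq b2.ne', Complex.normSq_eq_norm_sq, Complex.normSq_eq_norm_sq] at e
    exact (pow_left_inj₀ (norm_nonneg _) (norm_nonneg _) two_ne_zero).1 e
  push Not at c0
  obtain ⟨σ⟩ : Nonempty (K →+* ℂ) := ⟨(IsAlgClosed.lift : K →ₐ[ℚ] ℂ)⟩
  have e := prod_abs_eq_one hβ
  rw [finprod_eq_one_of_forall_eq_one c0, mul_one, prod_congr rfl fun w _ => by
    rw [← w.norm_embedding_eq, c3 _ σ], prod_pow_eq_pow_sum, InfinitePlace.sum_mult_eq,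
    pow_eq_one_iff_of_nonneg (norm_nonneg _) Module.finrank_pos.ne'] at e
  exact c1 σ (by rw [Complex.normSq_eq_norm_sq, e, one_pow])

end Pool.Agent.MP_bd74a7_nt.Ap
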