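import Pool.Agent.MP_bd74a7_nt.Div

/-!
Divisor counts, a lattice point count and the Cauchy-Schwarz step.
-/

open Finset

namespace Pool.Agent.MP_bd74a7_nt

/-- The largest number of divisors of an integer up to `N`. -/
def Dm (N : ℕ) : ℕ := (range (N + 1)).sup fun n => n.divisors.card

theorem card_divisors_le {n N : ℕ} (h : n ≤ N) : n.divisors.card ≤ Dm N :=
  le_sup (f := fun n : ℕ => n.divisors.card) (mem_range.2 (Nat.lt_succ_of_le h))

theorem Dm_mono {N N' : ℕ} (h : N ≤ N') : Dm N ≤ Dm N' :=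
  Finset.sup_le fun _ hn => card_divisors_le ((Nat.lt_succ_iff.1 (mem_range.1 hn)).trans h)

theorem one_le_Dm {N : ℕ} (h : 1 ≤ N) : 1 ≤ Dm N := by
  simpa using card_divisors_le h

theorem Dm_bound {ε : ℝ} (hε : 0 < ε) : ∃ C : ℝ, 1 ≤ C ∧ ∀ N : ℕ, (Dm N : ℝ) ≤ C * (N : ℝ) ^ ε := by
  obtain ⟨C, hC, h⟩ := divisor_bound hε
  refine ⟨C, hC, fun N => ?_⟩
  obtain ⟨n, hn, he⟩ := exists_mem_eq_sup (range (N + 1)) ⟨0, by simp⟩
    fun n : ℕ => n.divisors.card
  rw [Dm, he]
  refine (h n).trans ?_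
  have : (n : ℝ) ≤ N := by exact_mod_cast Nat.lt_succ_iff.1 (mem_range.1 hn)
  gcongr

theorem log_le_Dm {n N : ℕ} (h1 : n ≠ 0) (h : n ≤ N) : Nat.log 2 n + 1 ≤ Dm N := by
  have h2 := card_divisors_le ((Nat.pow_log_le_self 2 h1).trans h)
  rwa [Nat.divisors_prime_pow Nat.prime_two, card_map, card_range] at h2

theorem card_le_of_dvd {ι : Type*} (S : Finset ι) (f : ι → ℤ) (n : ℤ) (N : ℕ)
    (hinj : ∀ a ∈ S, ∀ b ∈ S, f a = f b → a = b)
    (h : ∀ a ∈ S, f a ∣ n ∧ n ≠ 0 ∧ |n| ≤ N) : S.card ≤ 2 * Dm N := by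
  classical
  rcases S.eq_empty_or_nonempty with rfl | ⟨a0, ha0⟩
  · simp
  obtain ⟨-, hn, hN⟩ := h a0 ha0
  have h1 : n.natAbs ≤ N := by
    rw [Int.abs_eq_natAbs] at hN
    exact_mod_cast hN
  have h2 : S.card ≤ ((univ : Finset Bool) ×ˢ n.natAbs.divisors).card := by
    refine card_le_card_of_injOn (fun a => (decide (0 ≤ f a), (f a).natAbs)) ?_ ?_
    · intro a ha
      simp only [coe_product, coe_univ, Set.mem_prod, Set.mem_univ, true_and, mem_coe,
        Nat.mem_divisors]
      exact ⟨Int.natAbs_dvd_natAbs.2 (h a ha).1, Int.natAbs_ne_zero.2 hn⟩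
    · intro a ha b hb hab
      simp only [Prod.mk.injEq, decide_eq_decide] at hab
      refine hinj a ha b hb ?_
      omega
  rw [card_product, card_univ, Fintype.card_bool] at h2
  exact h2.trans (Nat.mul_le_mul_left 2 (card_divisors_le h1))

/-- Reduction of a vector into the fundamental box of `n` independent vectors. -/
theorem reduce {n : ℕ} (W : Matrix (Fin n) (Fin n) ℤ) (hW : W.det ≠ 0) (B : Fin n → ℕ)
    (hB : ∀ k i, |W k i| ≤ B k) (z : Fin n → ℤ) :
    ∃ c : Fin n → ℤ, ∀ k, |(z - W.mulVec c) k| ≤ n * B k := by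
  refine ⟨fun i => W.cramer z i / W.det, fun k => ?_⟩
  have h1 := congrFun (Matrix.mulVec_cramer W z) k
  have h2 : W.det * (z - W.mulVec fun i => W.cramer z i / W.det) k =
      ∑ i, W k i * (W.cramer z i % W.det) := by
    simp only [Pi.sub_apply, mul_sub]
    simp only [Pi.smul_apply, smul_eq_mul] at h1
    rw [← h1]
    simp only [Matrix.mulVec, dotProduct, mul_sum, ← sum_sub_distrib]
    refine sum_congr rfl fun i _ => ?_
    rw [Int.emod_def]
    ring
  have h3 : |W.det| * |(z - W.mulVec fun i => W.cramer z i / W.det) k| ≤ |W.det| * (n * B k) := by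
    rw [← abs_mul, h2]
    refine (abs_sum_le_sum_abs _ _).trans ?_
    calc ∑ i, |W k i * (W.cramer z i % W.det)| ≤ ∑ _i : Fin n, (B k : ℤ) * |W.det| := by
          refine sum_le_sum fun i _ => ?_
          rw [abs_mul]
          have h4 : |W.cramer z i % W.det| ≤ |W.det| := by
            rw [abs_of_nonneg (Int.emod_nonneg _ hW)]
            exact (Int.emod_lt_abs _ hW).le
          exact mul_le_mul (hB k i) h4 (abs_nonneg _) (by positivity)
      _ = _ := by
          simp only [sum_const, card_univ, Fintype.card_fin, nsmul_eq_mul]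
          ring
  exact le_of_mul_le_mul_left h3 (abs_pos.2 hW)

/-- Points of a coset of a lattice of index `q` in a box, given `n` independent lattice vectors. -/
theorem count {n q : ℕ} [NeZero q] (φ : (Fin n → ℤ) →+ ZMod q) (hφ : Function.Surjective φ)
    (W : Matrix (Fin n) (Fin n) ℤ) (hW : W.det ≠ 0) (B b : Fin n → ℕ)
    (hB : ∀ k i, |W k i| ≤ B k) (hker : ∀ i, φ (fun k => W k i) = 0)
    (X : Finset (Fin n → ℤ)) (c : ZMod q) (hX : ∀ x ∈ X, φ x = c ∧ ∀ k, |x k| ≤ b k) :
    X.card * q ≤ ∏ k, (2 * (b k + n * B k) + 1) := by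
  classical
  have hρ : ∀ r : ZMod q, ∃ ρ : Fin n → ℤ, φ ρ = r ∧ ∀ k, |ρ k| ≤ n * B k := by
    intro r
    obtain ⟨z, rfl⟩ := hφ r
    obtain ⟨c, hc⟩ := reduce W hW B hB z
    refine ⟨_, ?_, hc⟩
    have h1 : W.mulVec c = ∑ i, c i • fun k => W k i := by
      funext k
      simp [Matrix.mulVec, dotProduct, mul_comm]
    rw [map_sub, h1, map_sum]
    simp only [map_zsmul, hker, smul_zero, sum_const_zero, sub_zero]
  choose ρ h1 h2 using hρ
  have h3 : (X ×ˢ (univ : Finset (ZMod q))).card ≤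
      (Fintype.piFinset fun k => Icc (-((b k + n * B k : ℕ) : ℤ)) (b k + n * B k : ℕ)).card := by
    refine card_le_card_of_injOn (fun x => x.1 + ρ x.2) ?_ ?_
    · rintro ⟨x, r⟩ hx
      simp only [coe_product, coe_univ, Set.mem_prod, mem_coe, Set.mem_univ, and_true] at hx
      simp only [mem_coe, Fintype.mem_piFinset, mem_Icc, Pi.add_apply, ← abs_le]
      intro k
      push_cast
      exact (abs_add_le _ _).trans (add_le_add ((hX x hx).2 k) (h2 r k))
    · rintro ⟨x, r⟩ hx ⟨x', r'⟩ hx' he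
      simp only [coe_product, coe_univ, Set.mem_prod, mem_coe, Set.mem_univ, and_true] at hx hx'
      simp only at he
      have h4 := congrArg φ he
      rw [map_add, map_add, (hX x hx).1, (hX x' hx').1, h1, h1, add_right_inj] at h4
      subst h4
      rw [add_left_inj] at he
      rw [he]
  rw [card_product, card_univ, ZMod.card, Fintype.card_piFinset] at h3
  refine h3.trans (le_of_eq (prod_congr rfl fun k _ => ?_))
  rw [Int.card_Icc]
  omega

/-- Cauchy-Schwarz: a map with few values has many collisions. -/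
theorem sq_le_mul_coll {α β : Type*} [DecidableEq β] (S : Finset α) (T : Finset β) (f : α → β)
    (h : ∀ a ∈ S, f a ∈ T) :
    S.card ^ 2 ≤ T.card * ((S ×ˢ S).filter fun x => f x.1 = f x.2).card := by
  classical
  have h1 : S.card = ∑ t ∈ T, (S.filter fun a => f a = t).card :=
    card_eq_sum_card_fiberwise h
  have h2 : ((S ×ˢ S).filter fun x => f x.1 = f x.2).card =
      ∑ t ∈ T, (S.filter fun a => f a = t).card ^ 2 := by
    rw [card_eq_sum_card_fiberwise (f := fun x => f x.1) (t := T)]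
    · refine sum_congr rfl fun t _ => ?_
      rw [sq, ← card_product]
      congr 1
      ext ⟨a, b⟩
      simp only [mem_filter, mem_product]
      constructor
      · rintro ⟨⟨⟨ha, hb⟩, hab⟩, ht⟩
        exact ⟨⟨ha, ht⟩, hb, hab ▸ ht⟩
      · rintro ⟨⟨ha, ht⟩, hb, ht'⟩
        exact ⟨⟨⟨ha, hb⟩, ht.trans ht'.symm⟩, ht⟩
    · intro x hx
      simp only [coe_filter, mem_product, Set.mem_ofPred_eq] at hx
      exact h _ hx.1.1
  rw [h2, h1]
  exact sq_sum_le_card_mul_sum_sq

end Pool.Agent.MP_bd74a7_nt
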