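import Mathlib

/-!
The ordinates of the points of the exponential curve in a box.
-/

open Finset

namespace Pool.Agent.MP_bd74a7_nt

theorem setup (p : ℕ) [Fact p.Prime] (g : ℕ) (a K L : ℤ) (M : ℕ) (ha : ¬ (p : ℤ) ∣ a)
    (hM : M < orderOf (g : ZMod p)) :
    ∃ V : Finset ℤ, V.card = ((Icc (K + 1) (K + M) ×ˢ Icc (L + 1) (L + M)).filter
        fun xy : ℤ × ℤ => (xy.2 : ZMod p) = a * (g : ZMod p) ^ xy.1).card ∧
      (∀ v ∈ V, L + 1 ≤ v ∧ v ≤ L + M) ∧ (∀ v ∈ V, (v : ZMod p) ≠ 0) ∧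
      (∃ S : Finset (ZMod p), S.card ≤ 2 * M ∧ ∀ v ∈ V, ∀ w ∈ V, (v : ZMod p) * w ∈ S) ∧
      (∃ S : Finset (ZMod p), S.card ≤ 3 * M ∧
        ∀ u ∈ V, ∀ v ∈ V, ∀ w ∈ V, (u : ZMod p) * v * w ∈ S) := by
  classical
  have hg : (g : ZMod p) ≠ 0 := by
    intro h0
    rw [h0, orderOf_zero] at hM
    omega
  have ha' : (a : ZMod p) ≠ 0 := fun h => ha ((ZMod.intCast_zmod_eq_zero_iff_dvd a p).1 h)
  set F := (Icc (K + 1) (K + M) ×ˢ Icc (L + 1) (L + M)).filter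
    fun xy : ℤ × ℤ => (xy.2 : ZMod p) = a * (g : ZMod p) ^ xy.1 with hF
  have hmem : ∀ v ∈ F.image Prod.snd, (L + 1 ≤ v ∧ v ≤ L + M) ∧
      ∃ x, (K + 1 ≤ x ∧ x ≤ K + M) ∧ (v : ZMod p) = a * (g : ZMod p) ^ x := by
    intro v hv
    obtain ⟨xy, hxy, rfl⟩ := mem_image.1 hv
    simp only [hF, mem_filter, mem_product, mem_Icc] at hxy
    exact ⟨hxy.1.2, xy.1, hxy.1.1, hxy.2⟩
  refine ⟨F.image Prod.snd, card_image_of_injOn ?_, fun v hv => (hmem v hv).1, ?_, ?_, ?_⟩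
  · rintro ⟨x, y⟩ h1 ⟨x', y'⟩ h2 he
    simp only [hF, coe_filter, mem_product, mem_Icc, Set.mem_ofPred_eq] at h1 h2 he
    subst he
    have h3 : (g : ZMod p) ^ x = (g : ZMod p) ^ x' :=
      mul_left_cancel₀ ha' (h1.2.symm.trans h2.2)
    have h4 : Units.mk0 (g : ZMod p) hg ^ x = Units.mk0 (g : ZMod p) hg ^ x' := by
      ext
      simpa using h3
    rw [zpow_eq_zpow_iff_modEq, ← orderOf_units, Units.val_mk0] at h4
    have h5 := Int.eq_zero_of_abs_lt_dvd h4.dvd (by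
      rw [abs_lt]
      omega)
    rw [show x = x' by omega]
  · intro v hv
    obtain ⟨-, x, -, hx⟩ := hmem v hv
    rw [hx]
    exact mul_ne_zero ha' (zpow_ne_zero _ hg)
  · refine ⟨(Icc (2 * K + 1) (2 * K + 2 * M)).image fun z => (a : ZMod p) ^ 2 * (g : ZMod p) ^ z,
      card_image_le.trans (by rw [Int.card_Icc]; omega), fun v hv w hw => ?_⟩
    obtain ⟨-, x, h1, hx⟩ := hmem v hv
    obtain ⟨-, y, h2, hy⟩ := hmem w hw
    refine mem_image.2 ⟨x + y, mem_Icc.2 (by omega), ?_⟩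
    rw [hx, hy, zpow_add₀ hg]
    ring
  · refine ⟨(Icc (3 * K + 1) (3 * K + 3 * M)).image fun z => (a : ZMod p) ^ 3 * (g : ZMod p) ^ z,
      card_image_le.trans (by rw [Int.card_Icc]; omega), fun u hu v hv w hw => ?_⟩
    obtain ⟨-, z, h0, hz⟩ := hmem u hu
    obtain ⟨-, x, h1, hx⟩ := hmem v hv
    obtain ⟨-, y, h2, hy⟩ := hmem w hw
    refine mem_image.2 ⟨z + x + y, mem_Icc.2 (by omega), ?_⟩
    rw [hx, hy, hz, zpow_add₀ hg, zpow_add₀ hg]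
    ring

end Pool.Agent.MP_bd74a7_nt
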