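import Pool.Agent.MP_bd74a7_nt.Good
import Pool.Agent.MP_bd74a7_nt.Setup

/-!
The bound `M ^ (1/2) + M ^ (6/7) p ^ (-1/7)`.
-/

open Finset

namespace Pool.Agent.MP_bd74a7_nt

theorem Dm_pow_bound {ε : ℝ} (hε : 0 < ε) (c r : ℕ) (hr : 1 ≤ r) :
    ∃ C : ℝ, 1 ≤ C ∧ ∀ M : ℕ, 1 ≤ M → (Dm (c * M ^ r) : ℝ) + 1 ≤ C * (M : ℝ) ^ ε := by
  have hr' : (0 : ℝ) < r := by exact_mod_cast hr
  obtain ⟨C, hC, h⟩ := Dm_bound (ε := ε / r) (by positivity)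
  refine ⟨C * (c : ℝ) ^ (ε / r) + 1, le_add_of_nonneg_left (by positivity), fun M hM => ?_⟩
  have hM' : (1 : ℝ) ≤ M := by exact_mod_cast hM
  have h1 := h (c * M ^ r)
  have h2 : ((c * M ^ r : ℕ) : ℝ) ^ (ε / r) = (c : ℝ) ^ (ε / r) * (M : ℝ) ^ ε := by
    push_cast
    rw [Real.mul_rpow (by positivity) (by positivity), ← Real.rpow_natCast,
      ← Real.rpow_mul (by positivity)]
    congr 2
    field_simp
  have h3 : (1 : ℝ) ≤ (M : ℝ) ^ ε := Real.one_le_rpow hM' hε.le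
  rw [h2] at h1
  nlinarith

theorem le_of_pow_le {x y : ℝ} {n : ℕ} (hn : n ≠ 0) (hy : 0 ≤ y) (h : x ^ n ≤ y ^ n) : x ≤ y :=
  le_of_pow_le_pow_left₀ hn hy h

theorem rpow_pow_eq {x : ℝ} (hx : 0 ≤ x) (e : ℝ) (n : ℕ) : (x ^ e) ^ n = x ^ (e * n) := by
  rw [← Real.rpow_natCast, ← Real.rpow_mul hx]

theorem short_boundA {p m M : ℕ} [Fact p.Prime] {V : Finset ℤ} (hV : Short p V m)
    (hp : 2 * m ^ 2 < p) (hm : m ≤ M) (S : Finset (ZMod p))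
    (hS : ∀ v ∈ V, ∀ w ∈ V, (v : ZMod p) * w ∈ S) (hN : S.card ≤ 2 * M) {D : ℝ}
    (hD : (Dm (3 * M ^ 4) : ℝ) + 1 ≤ D) :
    (V.card : ℝ) ≤ 10 * D * ((M : ℝ) ^ (1 / 2 : ℝ) + (M : ℝ) ^ (6 / 7 : ℝ) * (p : ℝ) ^ (-1 / 7 : ℝ)) := by
  have hd : Dm (3 * m ^ 4) ≤ Dm (3 * M ^ 4) := Dm_mono (by gcongr)
  have hd' : (Dm (3 * m ^ 4) : ℝ) + 1 ≤ D := by
    have : (Dm (3 * m ^ 4) : ℝ) ≤ Dm (3 * M ^ 4) := by exact_mod_cast hd
    linarith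
  have hd0 : (0 : ℝ) ≤ Dm (3 * m ^ 4) := Nat.cast_nonneg _
  have hD1 : 1 ≤ D := by linarith
  have hp0 : (0 : ℝ) < p := by exact_mod_cast (by omega : 0 < p)
  have hM0 : (0 : ℝ) ≤ M := Nat.cast_nonneg _
  have hA : (0 : ℝ) ≤ (M : ℝ) ^ (1 / 2 : ℝ) := by positivity
  have hB : (0 : ℝ) ≤ (M : ℝ) ^ (6 / 7 : ℝ) * (p : ℝ) ^ (-1 / 7 : ℝ) := by positivity
  rcases hV.core hp S hS hN with h | h
  · have h1 : (V.card : ℝ) ^ 2 ≤ 8 * (2 * M) * (Dm (3 * m ^ 4) + 1) ^ 2 := by exact_mod_cast h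
    have h2 : (V.card : ℝ) ≤ 4 * D * (M : ℝ) ^ (1 / 2 : ℝ) := by
      refine le_of_pow_le two_ne_zero (by positivity) (h1.trans ?_)
      rw [mul_pow, mul_pow, rpow_pow_eq hM0]
      norm_num
      calc 8 * (2 * (M : ℝ)) * (Dm (3 * m ^ 4) + 1) ^ 2 ≤ 8 * (2 * M) * D ^ 2 := by gcongr
        _ = _ := by ring
    nlinarith [mul_nonneg (zero_le_one.trans hD1) hA, mul_nonneg (zero_le_one.trans hD1) hB]
  · have h1 : (V.card : ℝ) ^ 7 * p ≤ 802816 * (2 * M) ^ 3 * (Dm (3 * m ^ 4)) ^ 3 * m ^ 3 := by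
      exact_mod_cast h
    have hm' : (m : ℝ) ≤ M := by exact_mod_cast hm
    have h2 : (V.card : ℝ) ≤ 10 * D * ((M : ℝ) ^ (6 / 7 : ℝ) * (p : ℝ) ^ (-1 / 7 : ℝ)) := by
      refine le_of_pow_le (n := 7) (by norm_num) (by positivity) ?_
      rw [mul_pow, mul_pow, mul_pow, rpow_pow_eq hM0, rpow_pow_eq hp0.le]
      norm_num
      rw [Real.rpow_neg_one, ← mul_assoc, le_mul_inv_iff₀ hp0]
      refine h1.trans ?_
      have h3 : (Dm (3 * m ^ 4) : ℝ) ^ 3 ≤ D ^ 7 :=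
        (pow_le_pow_left₀ hd0 (by linarith) 3).trans (pow_le_pow_right₀ hD1 (by norm_num))
      calc 802816 * (2 * (M : ℝ)) ^ 3 * (Dm (3 * m ^ 4)) ^ 3 * m ^ 3
          ≤ 802816 * (2 * M) ^ 3 * D ^ 7 * M ^ 3 := by gcongr
        _ = 6422528 * (D ^ 7 * M ^ 6) := by ring
        _ ≤ 10000000 * (D ^ 7 * M ^ 6) := by gcongr; norm_num
        _ = _ := by ring
    nlinarith [mul_nonneg (zero_le_one.trans hD1) hA, mul_nonneg (zero_le_one.trans hD1) hB]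

theorem boundA (ε : ℝ) (hε : 0 < ε) :
    ∃ C : ℝ, 0 < C ∧ ∀ (p : ℕ) [Fact p.Prime] (g : ℕ) (a K L : ℤ) (M : ℕ),
      ¬ (p : ℤ) ∣ a → 1 ≤ M → M < orderOf (g : ZMod p) → (M : ℝ) < √p →
      ((((Icc (K + 1) (K + M) ×ˢ Icc (L + 1) (L + M)).filter
        fun xy : ℤ × ℤ => (xy.2 : ZMod p) = a * (g : ZMod p) ^ xy.1).card : ℕ) : ℝ) ≤
        C * (M : ℝ) ^ ε *
          ((M : ℝ) ^ (1 / 2 : ℝ) + (M : ℝ) ^ (6 / 7 : ℝ) * (p : ℝ) ^ (-1 / 7 : ℝ)) := by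
  obtain ⟨C, hC, hD⟩ := Dm_pow_bound hε 3 4 (by norm_num)
  refine ⟨20 * C, by positivity, fun p _ g a K L M ha hM ht hp => ?_⟩
  obtain ⟨V, hc, hI, hnz, ⟨S, hS, hS'⟩, -⟩ := setup p g a K L M ha ht
  rw [← hc]
  have hp1 : M ^ 2 < p := by
    have := (Real.lt_sqrt (Nat.cast_nonneg M)).1 hp
    exact_mod_cast this
  have hp2 : 2 * (M / 2) ^ 2 < p := by
    have := Nat.pow_le_pow_left (Nat.div_mul_le_self M 2) 2
    rw [mul_pow] at this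
    omega
  have key : ∀ W : Finset ℤ, W ⊆ V → (∀ v ∈ W, ∀ w ∈ W, |v - w| ≤ (M / 2 : ℕ)) →
      (W.card : ℝ) ≤ 10 * (C * (M : ℝ) ^ ε) *
        ((M : ℝ) ^ (1 / 2 : ℝ) + (M : ℝ) ^ (6 / 7 : ℝ) * (p : ℝ) ^ (-1 / 7 : ℝ)) :=
    fun W hW hd => short_boundA ⟨hd, fun v hv => hnz v (hW hv)⟩ hp2 (Nat.div_le_self _ _) S
      (fun v hv w hw => hS' v (hW hv) w (hW hw)) hS (hD M hM)
  have h1 := key (V.filter fun v => v ≤ L + 1 + (M / 2 : ℕ)) (filter_subset _ _) fun v hv w hw => by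
    rw [mem_filter] at hv hw
    have := hI v hv.1
    have := hI w hw.1
    rw [abs_le]
    omega
  have h2 := key (V.filter fun v => ¬ v ≤ L + 1 + (M / 2 : ℕ)) (filter_subset _ _)
    fun v hv w hw => by
      rw [mem_filter] at hv hw
      have := hI v hv.1
      have := hI w hw.1
      rw [abs_le]
      omega
  have h3 := card_filter_add_card_filter_not (s := V) fun v => v ≤ L + 1 + (M / 2 : ℕ)
  rw [← h3, Nat.cast_add]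
  linarith

end Pool.Agent.MP_bd74a7_nt
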