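import Pool.Agent.MP_bd74a7_nt.Wrap
import Pool.Agent.MP_bd74a7_nt.FinalA

/-!
The bound `M ^ (1/3) + M ^ (3/4) p ^ (-1/12) + M ^ (11/9) p ^ (-2/9)`.
-/

open Finset

namespace Pool.Agent.MP_bd74a7_nt

theorem mul_bound {c d D i k X : ℕ} (hD : 1 ≤ D) (hi : i ≤ 3 * k) (hc : c ≤ d ^ k) :
    c * D ^ i * X ≤ (d * D ^ 3) ^ k * X := by
  rw [mul_pow, ← pow_mul]
  exact Nat.mul_le_mul_right _ (Nat.mul_le_mul hc (Nat.pow_le_pow_right hD hi))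

theorem outer {p M : ℕ} [Fact p.Prime] {L : ZMod p} {V : Finset ℤ} (hV : Nrm p L V M) (hm : 1 ≤ M)
    (hp : 4 * M ^ 3 < p) (S : Finset (ZMod p)) (hS : ∀ t ∈ V ×ˢ V ×ˢ V, om L t ∈ S)
    (hN : S.card ≤ 3 * M) {D : ℕ} (hD : Dm (8 * cp ^ 3 * M ^ 9) ≤ D) :
    ∃ j : ℕ, V.card ≤ j * D ∧ (j ^ 3 ≤ (10 ^ 5 * D ^ 3) ^ 3 * M ∨
      j ^ 12 * p ≤ (10 ^ 5 * D ^ 3) ^ 12 * M ^ 9 ∨ j ^ 9 * p ^ 2 ≤ (10 ^ 5 * D ^ 3) ^ 9 * M ^ 11) := by
  have hD1 : 1 ≤ D := by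
    refine le_trans (one_le_Dm ?_) hD
    have : 0 < cp := lt_of_lt_of_le (by norm_num) one_le_cp
    exact Nat.succ_le_of_lt (by positivity)
  have small : ∀ j, j ≤ 41 → j ^ 3 ≤ (10 ^ 5 * D ^ 3) ^ 3 * M := fun j hj => by
    refine le_trans ?_ (mul_bound (c := 41 ^ 3) (i := 0) hD1 (by norm_num) (by norm_num))
    calc j ^ 3 ≤ 41 ^ 3 * 1 * 1 := by rw [mul_one, mul_one]; gcongr
      _ ≤ _ := by rw [pow_zero]; gcongr
  by_cases h40 : M < 40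
  · refine ⟨V.card, Nat.le_mul_of_pos_right _ hD1, Or.inl (small _ ?_)⟩
    have : V.card ≤ (Icc (0 : ℤ) M).card := card_le_card fun v hv => mem_Icc.2 (hV.mem v hv)
    rw [Int.card_Icc] at this
    omega
  obtain ⟨T, hT1, hT, hT'⟩ := exists_T hm
  obtain ⟨B, hB, hB'⟩ := fewAP_inner hV hp hT1 hT' (by omega) S hS hN (by omega) hD
  obtain ⟨j, φ, k1, k2, k3⟩ := core2 hV hm hp S hS hN (by omega) hT hB hD
  refine ⟨j, k1, ?_⟩
  by_cases hφ : φ < 16 * D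
  · left
    refine le_trans ?_ (mul_bound (c := 4608) (i := 3) hD1 (by norm_num) (by norm_num))
    calc j ^ 3 ≤ 96 * (3 * M) * D ^ 2 * (16 * D) := k2.trans (by gcongr; omega)
      _ = _ := by ring
  have k4 : j ^ 3 ≤ 576 * M * D ^ 2 * φ := by
    calc j ^ 3 ≤ 96 * (3 * M) * D ^ 2 * (2 * φ) := k2.trans (by gcongr; omega)
      _ = _ := by ring
  have hp0 : 0 < p := by omega
  rcases k3 with h | h | h | h | h | h | h
  · exact absurd h hφ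
  · exact Or.inl (small j (by omega))
  · left
    refine le_trans ?_ (mul_bound (c := 3072000000000) (i := 9) hD1 (by norm_num) (by norm_num))
    calc j ^ 3 ≤ (8 * D * B) ^ 3 := by gcongr
      _ = 512 * D ^ 3 * B ^ 3 := by ring
      _ ≤ 512 * D ^ 3 * (2 * 10 ^ 9 * (3 * M) * D ^ 6) := by gcongr
      _ = _ := by ring
  · right; left
    have h1 : j ^ 10 * p ≤ 576 ^ 3 * 3328 * cp * D ^ 8 * M ^ 8 := by
      calc j ^ 10 * p = (j ^ 3) ^ 3 * (j * p) := by ring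
        _ ≤ (576 * M * D ^ 2 * φ) ^ 3 * (j * p) := by gcongr
        _ = 576 ^ 3 * M ^ 3 * D ^ 6 * (j * φ ^ 3 * p) := by ring
        _ ≤ 576 ^ 3 * M ^ 3 * D ^ 6 * (3328 * cp * D ^ 2 * M ^ 5) := by gcongr
        _ = _ := by ring
    refine (Nat.pow_le_pow_iff_left (show 5 ≠ 0 by norm_num)).1 ?_
    rw [mul_pow _ (M ^ 9), ← pow_mul, ← pow_mul]
    refine le_trans ?_ (mul_bound (c := (576 ^ 3 * 3328 * cp) ^ 6) (i := 48) hD1 (by norm_num)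
      (by norm_num [cp]))
    refine Nat.le_of_mul_le_mul_right ?_ hp0
    calc (j ^ 12 * p) ^ 5 * p = (j ^ 10 * p) ^ 6 := by ring
      _ ≤ (576 ^ 3 * 3328 * cp * D ^ 8 * M ^ 8) ^ 6 := by gcongr
      _ = (576 ^ 3 * 3328 * cp) ^ 6 * D ^ 48 * M ^ (9 * 5) * M ^ 3 := by ring
      _ ≤ _ := by gcongr; omega
  · right; left
    refine (Nat.pow_le_pow_iff_left (show 2 ≠ 0 by norm_num)).1 ?_
    rw [mul_pow _ (M ^ 9), ← pow_mul, ← pow_mul]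
    refine le_trans ?_ (mul_bound (c := 576 ^ 7 * 10436608 * cp ^ 3) (i := 18) hD1 (by norm_num)
      (by norm_num [cp]))
    calc (j ^ 12 * p) ^ 2 = (j ^ 3) ^ 7 * (j ^ 3 * p ^ 2) := by ring
      _ ≤ (576 * M * D ^ 2 * φ) ^ 7 * (j ^ 3 * p ^ 2) := by gcongr
      _ = 576 ^ 7 * M ^ 7 * D ^ 14 * (j ^ 3 * φ ^ 7 * p ^ 2) := by ring
      _ ≤ 576 ^ 7 * M ^ 7 * D ^ 14 * (10436608 * cp ^ 3 * D ^ 4 * M ^ 11) := by gcongr
      _ = _ := by ring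
  · right; left
    refine le_trans ?_ (mul_bound (c := 576 ^ 4 * cp ^ 2) (i := 8) hD1 (by norm_num)
      (by norm_num [cp]))
    calc j ^ 12 * p = (j ^ 3) ^ 4 * p := by ring
      _ ≤ (576 * M * D ^ 2 * φ) ^ 4 * p := by gcongr
      _ = 576 ^ 4 * M ^ 4 * D ^ 8 * (φ ^ 4 * p) := by ring
      _ ≤ 576 ^ 4 * M ^ 4 * D ^ 8 * (cp ^ 2 * M ^ 5) := by gcongr
      _ = _ := by ring
  · right; right
    refine le_trans ?_ (mul_bound (c := 576 ^ 3 * ce) (i := 6) hD1 (by norm_num)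
      (by norm_num [ce]))
    calc j ^ 9 * p ^ 2 = (j ^ 3) ^ 3 * p ^ 2 := by ring
      _ ≤ (576 * M * D ^ 2 * φ) ^ 3 * p ^ 2 := by gcongr
      _ = 576 ^ 3 * M ^ 3 * D ^ 6 * (φ ^ 3 * p ^ 2) := by ring
      _ ≤ 576 ^ 3 * M ^ 3 * D ^ 6 * (ce * M ^ 8) := by gcongr
      _ = _ := by ring

theorem setup2 (p : ℕ) [Fact p.Prime] (g : ℕ) (a K L : ℤ) (M : ℕ) (ha : ¬ (p : ℤ) ∣ a)
    (hM : M < orderOf (g : ZMod p)) :
    ∃ V : Finset ℤ, V.card = ((Icc (K + 1) (K + M) ×ˢ Icc (L + 1) (L + M)).filter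
        fun xy : ℤ × ℤ => (xy.2 : ZMod p) = a * (g : ZMod p) ^ xy.1).card ∧
      Nrm p L V M ∧ ∃ S : Finset (ZMod p), S.card ≤ 3 * M ∧ ∀ t ∈ V ×ˢ V ×ˢ V, om L t ∈ S := by
  classical
  have hg : (g : ZMod p) ≠ 0 := by
    intro h0
    rw [h0, orderOf_zero] at hM
    omega
  have ha' : (a : ZMod p) ≠ 0 := fun h => ha ((ZMod.intCast_zmod_eq_zero_iff_dvd a p).1 h)
  set F := (Icc (K + 1) (K + M) ×ˢ Icc (L + 1) (L + M)).filter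
    fun xy : ℤ × ℤ => (xy.2 : ZMod p) = a * (g : ZMod p) ^ xy.1 with hF
  have hmem : ∀ v ∈ F.image fun xy => xy.2 - L, (0 ≤ v ∧ v ≤ M) ∧
      ∃ x, (K + 1 ≤ x ∧ x ≤ K + M) ∧ (L : ZMod p) + v = a * (g : ZMod p) ^ x := by
    intro v hv
    obtain ⟨xy, hxy, rfl⟩ := mem_image.1 hv
    simp only [hF, mem_filter, mem_product, mem_Icc] at hxy
    exact ⟨by omega, xy.1, hxy.1.1, by rw [← hxy.2]; push_cast; ring⟩
  refine ⟨F.image fun xy => xy.2 - L, card_image_of_injOn ?_, ⟨fun v hv => (hmem v hv).1, ?_⟩, ?_⟩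
  · rintro ⟨x, y⟩ h1 ⟨x', y'⟩ h2 he
    simp only [hF, coe_filter, mem_product, mem_Icc, Set.mem_ofPred_eq, sub_left_inj] at h1 h2 he
    subst he
    have h3 : (g : ZMod p) ^ x = (g : ZMod p) ^ x' :=
      mul_left_cancel₀ ha' (h1.2.symm.trans h2.2)
    have h4 : Units.mk0 (g : ZMod p) hg ^ x = Units.mk0 (g : ZMod p) hg ^ x' := by
      ext
      simpa using h3
    rw [zpow_eq_zpow_iff_modEq, ← orderOf_units, Units.val_mk0] at h4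
    have h5 := Int.eq_zero_of_abs_lt_dvd h4.dvd (by
      rw [abs_lt]
      omega)
    rw [show x = x' by omega]
  · intro v hv
    obtain ⟨-, x, -, hx⟩ := hmem v hv
    rw [hx]
    exact mul_ne_zero ha' (zpow_ne_zero _ hg)
  · refine ⟨(Icc (K - M + 1) (K + 2 * M)).image fun z => (a : ZMod p) * (g : ZMod p) ^ z,
      card_image_le.trans (by rw [Int.card_Icc]; omega), fun t ht => ?_⟩
    simp only [mem_product] at ht
    obtain ⟨-, x, h1, hx⟩ := hmem _ ht.1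
    obtain ⟨-, y, h2, hy⟩ := hmem _ ht.2.1
    obtain ⟨-, z, h3, hz⟩ := hmem _ ht.2.2
    refine mem_image.2 ⟨x + y - z, mem_Icc.2 (by omega), ?_⟩
    rw [om, hx, hy, hz, zpow_sub₀ hg, zpow_add₀ hg]
    have := zpow_ne_zero z hg
    field_simp

theorem le_root {j E M p α β : ℝ} {k r i : ℕ} (hk : k ≠ 0) (hE : 0 ≤ E) (hM : 0 ≤ M) (hp : 0 < p)
    (hα : α * k = r) (hβ : β * k = -i) (h : j ^ k * p ^ i ≤ E ^ k * M ^ r) :
    j ≤ E * (M ^ α * p ^ β) := by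
  refine le_of_pow_le hk (by positivity) ?_
  rw [mul_pow, mul_pow, rpow_pow_eq hM, rpow_pow_eq hp.le, hα, hβ, Real.rpow_neg hp.le,
    Real.rpow_natCast, Real.rpow_natCast, ← mul_assoc, le_mul_inv_iff₀ (by positivity)]
  exact h

theorem boundB (ε : ℝ) (hε : 0 < ε) :
    ∃ C : ℝ, 0 < C ∧ ∀ (p : ℕ) [Fact p.Prime] (g : ℕ) (a K L : ℤ) (M : ℕ),
      ¬ (p : ℤ) ∣ a → 1 ≤ M → M < orderOf (g : ZMod p) → (M : ℝ) < √p →
      ((((Icc (K + 1) (K + M) ×ˢ Icc (L + 1) (L + M)).filter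
        fun xy : ℤ × ℤ => (xy.2 : ZMod p) = a * (g : ZMod p) ^ xy.1).card : ℕ) : ℝ) ≤
        C * (M : ℝ) ^ ε * ((M : ℝ) ^ (1 / 3 : ℝ) + (M : ℝ) ^ (3 / 4 : ℝ) * (p : ℝ) ^ (-1 / 12 : ℝ) +
          (M : ℝ) ^ (11 / 9 : ℝ) * (p : ℝ) ^ (-2 / 9 : ℝ)) := by
  obtain ⟨C1, hC1, hA⟩ := boundA ε hε
  obtain ⟨C2, hC2, hD⟩ := Dm_pow_bound (ε := ε / 4) (by positivity) (8 * cp ^ 3) 9 (by norm_num)
  refine ⟨2 * C1 + 10 ^ 5 * C2 ^ 4, by positivity, fun p _ g a K L M ha hM ht hp => ?_⟩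
  have hp0 : (0 : ℝ) < p := by exact_mod_cast (Fact.out : p.Prime).pos
  have hM1 : (1 : ℝ) ≤ M := by exact_mod_cast hM
  have hM0 : (0 : ℝ) ≤ M := by positivity
  have x1 : (0 : ℝ) ≤ (M : ℝ) ^ (1 / 3 : ℝ) := by positivity
  have x2 : (0 : ℝ) ≤ (M : ℝ) ^ (3 / 4 : ℝ) * (p : ℝ) ^ (-1 / 12 : ℝ) := by positivity
  have x3 : (0 : ℝ) ≤ (M : ℝ) ^ (11 / 9 : ℝ) * (p : ℝ) ^ (-2 / 9 : ℝ) := by positivity
  have x4 : (0 : ℝ) ≤ (M : ℝ) ^ ε := by positivity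
  set X := (M : ℝ) ^ (1 / 3 : ℝ) + (M : ℝ) ^ (3 / 4 : ℝ) * (p : ℝ) ^ (-1 / 12 : ℝ) +
    (M : ℝ) ^ (11 / 9 : ℝ) * (p : ℝ) ^ (-2 / 9 : ℝ) with hX
  have x5 : 0 ≤ X := by positivity
  by_cases h4 : 4 * M ^ 3 < p
  · obtain ⟨V, hc, hV, S, hS, hS'⟩ := setup2 p g a K L M ha ht
    rw [← hc]
    obtain ⟨j, k1, k2⟩ := outer hV hM h4 S hS' hS le_rfl
    set D := Dm (8 * cp ^ 3 * M ^ 9)
    have hj : (j : ℝ) ≤ 10 ^ 5 * (D : ℝ) ^ 3 * X := by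
      have hE : (0 : ℝ) ≤ 10 ^ 5 * (D : ℝ) ^ 3 := by positivity
      rcases k2 with h | h | h
      · have := le_root (k := 3) (r := 1) (i := 0) (α := 1 / 3) (β := 0) (j := j) (by norm_num) hE
          hM0 hp0 (by norm_num) (by norm_num) (by
            rw [pow_zero, mul_one, pow_one]
            exact_mod_cast h)
        rw [Real.rpow_zero, mul_one] at this
        exact this.trans (mul_le_mul_of_nonneg_left (by linarith) hE)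
      · exact (le_root (k := 12) (r := 9) (i := 1) (α := 3 / 4) (β := -1 / 12) (j := j)
          (by norm_num) hE hM0 hp0 (by norm_num) (by norm_num) (by
            rw [pow_one]
            exact_mod_cast h)).trans (mul_le_mul_of_nonneg_left (by linarith) hE)
      · exact (le_root (k := 9) (r := 11) (i := 2) (α := 11 / 9) (β := -2 / 9) (j := j)
          (by norm_num) hE hM0 hp0 (by norm_num) (by norm_num) (by
            exact_mod_cast h)).trans (mul_le_mul_of_nonneg_left (by linarith) hE)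
    have hD4 : (D : ℝ) ^ 4 ≤ C2 ^ 4 * (M : ℝ) ^ ε := by
      have h1 : (D : ℝ) ≤ C2 * (M : ℝ) ^ (ε / 4) := by linarith [hD M hM]
      have h2 := pow_le_pow_left₀ (Nat.cast_nonneg D) h1 4
      rwa [mul_pow, rpow_pow_eq hM0, show ε / 4 * (4 : ℕ) = ε by push_cast; ring] at h2
    calc (V.card : ℝ) ≤ j * D := by exact_mod_cast k1
      _ ≤ 10 ^ 5 * (D : ℝ) ^ 3 * X * D := by gcongr
      _ = 10 ^ 5 * (D : ℝ) ^ 4 * X := by ring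
      _ ≤ 10 ^ 5 * (C2 ^ 4 * (M : ℝ) ^ ε) * X := by gcongr
      _ = 10 ^ 5 * C2 ^ 4 * (M : ℝ) ^ ε * X := by ring
      _ ≤ _ := by gcongr; linarith
  have h5 : (p : ℝ) ≤ 4 * M ^ 3 := by exact_mod_cast not_lt.1 h4
  have y1 : (M : ℝ) ^ (1 / 2 : ℝ) ≤ 2 * ((M : ℝ) ^ (3 / 4 : ℝ) * (p : ℝ) ^ (-1 / 12 : ℝ)) := by
    refine le_root (k := 12) (r := 9) (i := 1) (by norm_num) (by norm_num) hM0 hp0 (by norm_num)
      (by norm_num) ?_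
    rw [rpow_pow_eq hM0, show (1 / 2 : ℝ) * (12 : ℕ) = (6 : ℕ) by norm_num, Real.rpow_natCast,
      pow_one]
    calc (M : ℝ) ^ 6 * p ≤ (M : ℝ) ^ 6 * (4 * (M : ℝ) ^ 3) := by gcongr
      _ = 4 * (M : ℝ) ^ 9 := by ring
      _ ≤ _ := by gcongr; norm_num
  have y2 : (M : ℝ) ^ (6 / 7 : ℝ) * (p : ℝ) ^ (-1 / 7 : ℝ) ≤
      2 * ((M : ℝ) ^ (11 / 9 : ℝ) * (p : ℝ) ^ (-2 / 9 : ℝ)) := by
    refine le_root (k := 63) (r := 77) (i := 14) (by norm_num) (by norm_num) hM0 hp0 (by norm_num)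
      (by norm_num) ?_
    rw [mul_pow, rpow_pow_eq hM0, rpow_pow_eq hp0.le,
      show (6 / 7 : ℝ) * (63 : ℕ) = (54 : ℕ) by norm_num,
      show (-1 / 7 : ℝ) * (63 : ℕ) = -((9 : ℕ) : ℝ) by norm_num, Real.rpow_neg hp0.le,
      Real.rpow_natCast, Real.rpow_natCast]
    calc (M : ℝ) ^ 54 * ((p : ℝ) ^ 9)⁻¹ * (p : ℝ) ^ 14 = (M : ℝ) ^ 54 * (p : ℝ) ^ 5 := by field_simp
      _ ≤ (M : ℝ) ^ 54 * (4 * (M : ℝ) ^ 3) ^ 5 := by gcongr
      _ = 1024 * (M : ℝ) ^ 69 := by ring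
      _ ≤ _ := mul_le_mul (by norm_num) (pow_le_pow_right₀ hM1 (by norm_num)) (by positivity)
          (by positivity)
  refine (hA p g a K L M ha hM ht hp).trans ?_
  calc C1 * (M : ℝ) ^ ε * ((M : ℝ) ^ (1 / 2 : ℝ) + (M : ℝ) ^ (6 / 7 : ℝ) * (p : ℝ) ^ (-1 / 7 : ℝ))
      ≤ C1 * (M : ℝ) ^ ε * (2 * X) := by gcongr; linarith
    _ = 2 * C1 * (M : ℝ) ^ ε * X := by ring
    _ ≤ _ := by gcongr; exact le_add_of_nonneg_right (by positivity)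

end Pool.Agent.MP_bd74a7_nt
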