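import Pool.Agent.MP_bd74a7_nt.Lines

/-!
Few lines, or a small normal vector.
-/

open Finset Matrix

namespace Pool.Agent.MP_bd74a7_nt

/-- The box for sum, product and third coordinate. -/
def Bx (m : ℕ) : Fin 3 → ℕ := ![2 * m, m ^ 2, m]

variable {p m : ℕ}

theorem Bx_pos (hm : 1 ≤ m) (k : Fin 3) : 1 ≤ Bx m k := by
  have := Nat.one_le_pow 2 m hm
  fin_cases k <;> simp [Bx] <;> omega

theorem prod_Bx : ∏ k, Bx m k = 2 * m ^ 4 := by
  simp [Bx, Fin.prod_univ_three]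
  ring

theorem abs_le_of_mul {τ b : ℕ} {x : ℤ} (hτ : 1 ≤ τ) (h : τ * |x| ≤ b) : |x| ≤ b := by
  have : (1 : ℤ) ≤ τ := by exact_mod_cast hτ
  nlinarith [abs_nonneg x]

theorem geom_three [Fact p.Prime] (hm : 1 ≤ m) (a : Fin 3 → ZMod p) (ha : a 1 = 1) (c : ZMod p)
    (X : Finset (Fin 3 → ℤ)) (hX : ∀ x ∈ X, lf a x = c ∧ ∀ k, |x k| ≤ Bx m k)
    {u v w : Fin 3 → ℤ} (hdet : u ⬝ᵥ crossProduct v w ≠ 0)
    (hu : lf a u = 0 ∧ ∀ k, |u k| ≤ Bx m k) (hv : lf a v = 0 ∧ ∀ k, |v k| ≤ Bx m k)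
    (hw : lf a w = 0 ∧ ∀ k, |w k| ≤ Bx m k) :
    ∃ g : Fin 3 → ℤ, g ≠ 0 ∧ (∀ k, |g k| ≤ Bx m k) ∧
      (X.image (crossProduct g)).card ^ 3 * p ^ 2 ≤ 4 * 4394 ^ 3 * m ^ 8 := by
  have hsurj : Function.Surjective (lf a) := by
    intro r
    obtain ⟨z, rfl⟩ := ZMod.intCast_surjective r
    exact ⟨![0, z, 0], by simp [lf_apply, ha]⟩
  have hp0 : 0 < p := (Fact.out : p.Prime).pos
  obtain ⟨τ, g, h1, hg, hg0, hτ, hlt⟩ : ∃ (τ : ℕ) (g : Fin 3 → ℤ), 1 ≤ τ ∧ g ≠ 0 ∧ lf a g = 0 ∧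
      (∀ k, τ * |g k| ≤ Bx m k) ∧ 2 * m ^ 4 ≤ (2 * τ) ^ 3 * p := by
    obtain ⟨τ, h1, h2⟩ := exists_root p (2 * m ^ 4) 3 hp0 (by norm_num)
    rcases Nat.eq_zero_or_pos τ with rfl | hτ
    · refine ⟨1, u, le_rfl, ?_, hu.1, by simpa using hu.2, by omega⟩
      rintro rfl
      simp at hdet
    obtain ⟨x, x', h3, h4, h5⟩ := short_vec (lf a) univ (fun k => Bx m k / τ)
      (fun _ _ => mem_univ _) (by
        have := prod_div_gt (Bx m) hτ
        rw [prod_Bx] at this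
        rw [card_univ, ZMod.card]
        exact Nat.lt_of_mul_lt_mul_left (h1.trans_lt this))
    refine ⟨τ, x - x', hτ, h3, by rw [map_sub, h4, sub_self], fun k => mul_le_of_le_div (h5 k),
      h2.le.trans ?_⟩
    gcongr
    omega
  refine ⟨g, hg, fun k => abs_le_of_mul h1 (hτ k), ?_⟩
  have h2 := lines_count (fun y => lf a y = c) (Bx m) p (4394 * m ^ 4) (fun Y hY => by
    have := count3 a hsurj (Bx m) (Bx_pos hm) hdet hu hv hw c Y fun y hy =>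
      ⟨(hY y hy).1, fun k => ((hY y hy).2 k).trans (by exact_mod_cast (by omega))⟩
    rw [prod_Bx] at this
    omega) hg (fun y hy t => by rw [map_add, map_zsmul, hg0, smul_zero, add_zero, hy]) hτ X hX
  set l := (X.image (crossProduct g)).card
  refine Nat.le_of_mul_le_mul_right ?_ (show 0 < 2 * m ^ 4 by positivity)
  calc l ^ 3 * p ^ 2 * (2 * m ^ 4) ≤ l ^ 3 * p ^ 2 * ((2 * τ) ^ 3 * p) := by gcongr
    _ = 8 * (l * τ * p) ^ 3 := by ring
    _ ≤ 8 * (4394 * m ^ 4) ^ 3 := by gcongr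
    _ = _ := by ring

theorem geom_two (hm : 1 ≤ m) (X : Finset (Fin 3 → ℤ)) {n e v w : Fin 3 → ℤ} {h c : ℤ}
    (hX : ∀ x ∈ X, n ⬝ᵥ x = c ∧ ∀ k, |x k| ≤ Bx m k) (hh : h ≠ 0)
    (hn : crossProduct v w = h • n) (he : e ⬝ᵥ n = 1) (hn1 : n 1 ≠ 0) (hv : ∀ k, |v k| ≤ Bx m k)
    (hw : ∀ k, |w k| ≤ Bx m k) :
    ∃ g : Fin 3 → ℤ, g ≠ 0 ∧ (∀ k, |g k| ≤ Bx m k) ∧ (X.image (crossProduct g)).card ^ 2 *
      (2 * (n 0).natAbs + m * (n 1).natAbs + (n 2).natAbs) ≤ 54 * 4394 ^ 2 * m ^ 3 := by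
  set ν := ∑ k, (n k).natAbs * Bx m k with hν
  have hν1 : ν = m * (2 * (n 0).natAbs + m * (n 1).natAbs + (n 2).natAbs) := by
    simp [hν, Bx, Fin.sum_univ_three]
    ring
  have hν2 : m ^ 2 ≤ ν := by
    have := Nat.le_mul_of_pos_right m (Int.natAbs_pos.2 hn1)
    rw [hν1, sq]
    gcongr
    omega
  have hm2 : m ≤ m ^ 2 := Nat.le_self_pow (by norm_num) m
  obtain ⟨τ, g, h1, hg, hg0, hτ, hlt⟩ : ∃ (τ : ℕ) (g : Fin 3 → ℤ), 1 ≤ τ ∧ g ≠ 0 ∧ n ⬝ᵥ g = 0 ∧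
      (∀ k, τ * |g k| ≤ Bx m k) ∧ 2 * m ^ 4 ≤ (2 * τ) ^ 2 * (3 * ν) := by
    obtain ⟨τ, h1, h2⟩ := exists_root (3 * ν) (2 * m ^ 4) 2 (by omega) (by norm_num)
    rcases Nat.eq_zero_or_pos τ with rfl | hτ
    · refine ⟨1, v, le_rfl, ?_, ?_, by simpa using hv, by omega⟩
      · rintro rfl
        have := congrFun hn 1
        simp [hh, hn1] at this
      · have := dot_self_cross v w
        rw [hn, dotProduct_smul, smul_eq_mul, dotProduct_comm] at this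
        exact (mul_eq_zero.1 this).resolve_left hh
    have hτm : τ ≤ m := by
      by_contra hc
      have h3 : m ^ 2 ≤ τ ^ 2 := Nat.pow_le_pow_left (by omega) 2
      have h4 : m ^ 2 * (3 * m ^ 2) ≤ τ ^ 2 * (3 * ν) := by gcongr
      have h5 : 0 < m ^ 4 := by positivity
      nlinarith
    obtain ⟨x, x', h3, h4, h5⟩ := short_vec (fun x => n ⬝ᵥ x)
      (Icc (-((ν / τ : ℕ) : ℤ)) (ν / τ : ℕ)) (fun k => Bx m k / τ) (fun x hx => by
        rw [mem_Icc, ← abs_le]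
        refine abs_le_div hτ le_rfl rfl ?_
        rw [dotProduct, mul_sum, hν]
        refine (abs_sum_le_sum_abs _ _).trans ?_
        push_cast
        refine sum_le_sum fun k _ => ?_
        have := mul_le_of_le_div (τ := τ) (b := Bx m k) (x := x k)
          (by rw [abs_of_nonneg (hx k).1]; exact (hx k).2)
        rw [abs_mul, abs_mul, Nat.abs_cast]
        nlinarith [abs_nonneg (n k)]) (by
        have h6 := prod_div_gt (Bx m) hτ
        rw [prod_Bx] at h6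
        have h7 : (Icc (-((ν / τ : ℕ) : ℤ)) (ν / τ : ℕ)).card = 2 * (ν / τ) + 1 := by
          rw [Int.card_Icc]
          omega
        rw [h7]
        refine Nat.lt_of_mul_lt_mul_left (lt_of_le_of_lt ?_ h6)
        have h8 : ν / τ * τ ≤ ν := Nat.div_mul_le_self _ _
        calc τ ^ 3 * (2 * (ν / τ) + 1) = τ ^ 2 * (2 * (ν / τ * τ) + τ) := by ring
          _ ≤ τ ^ 2 * (3 * ν) := by gcongr; omega
          _ ≤ _ := h1)
    refine ⟨τ, x - x', hτ, h3, by rw [dotProduct_sub, sub_eq_zero]; exact h4,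
      fun k => mul_le_of_le_div (h5 k), h2.le.trans ?_⟩
    gcongr
    omega
  refine ⟨g, hg, fun k => abs_le_of_mul h1 (hτ k), ?_⟩
  have h2 := lines_count (fun y => n ⬝ᵥ y = c) (Bx m) ν (3 * (4394 * m ^ 4)) (fun Y hY => by
    have := fun k => plane_count (Bx m) (Bx_pos hm) hh hn he hv hw c k Y hY
    rw [prod_Bx] at this
    rw [hν, Fin.sum_univ_three, mul_add, mul_add]
    linarith [this 0, this 1, this 2]) hg
    (fun y hy t => by rw [dotProduct_add, dotProduct_smul, hg0, smul_zero, add_zero, hy]) hτ X hX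
  set l := (X.image (crossProduct g)).card
  refine Nat.le_of_mul_le_mul_right ?_ (show 0 < m * (2 * m ^ 4) by positivity)
  calc l ^ 2 * (2 * (n 0).natAbs + m * (n 1).natAbs + (n 2).natAbs) * (m * (2 * m ^ 4))
      = l ^ 2 * ν * (2 * m ^ 4) := by rw [hν1]; ring
    _ ≤ l ^ 2 * ν * ((2 * τ) ^ 2 * (3 * ν)) := by gcongr
    _ = 12 * (l * τ * ν) ^ 2 := by ring
    _ ≤ 12 * (3 * (4394 * m ^ 4)) ^ 2 := by gcongr
    _ = _ := by ring

theorem abs_det_le {a b c d : ℤ} {A B : ℕ} (ha : |a| ≤ A) (hb : |b| ≤ B) (hc : |c| ≤ B)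
    (hd : |d| ≤ A) : |a * b - c * d| ≤ 2 * (A * B) := by
  refine (abs_sub _ _).trans ?_
  rw [abs_mul, abs_mul]
  have i1 := mul_le_mul ha hb (abs_nonneg _) (by positivity)
  have i2 := mul_le_mul hc hd (abs_nonneg _) (by positivity)
  linarith

theorem geom [Fact p.Prime] (hm : 1 ≤ m) (hp : 4 * m ^ 3 < p) (a : Fin 3 → ZMod p) (ha : a 1 = 1)
    (c : ZMod p) (X : Finset (Fin 3 → ℤ))
    (hX : ∀ x ∈ X, lf a x = c ∧ ∀ k, 0 ≤ x k ∧ x k ≤ Bx m k) {s : ℕ} (hs : 1 ≤ s) :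
    (∃ g : Fin 3 → ℤ, g ≠ 0 ∧ (∀ k, |g k| ≤ Bx m k) ∧ (X.image (crossProduct g)).card ≤ s) ∨
    s ^ 3 * p ^ 2 ≤ 4 * 4394 ^ 3 * m ^ 8 ∨
    (s < X.card ∧ ∃ n e : Fin 3 → ℤ, e ⬝ᵥ n = 1 ∧ (n 1 : ZMod p) ≠ 0 ∧
      (∀ k, (n k : ZMod p) = n 1 * a k) ∧ (∀ x ∈ X, ∀ x' ∈ X, n ⬝ᵥ x = n ⬝ᵥ x') ∧
      s ^ 2 * (2 * (n 0).natAbs + m * (n 1).natAbs + (n 2).natAbs) ≤ 54 * 4394 ^ 2 * m ^ 3) := by
  classical
  by_cases hcov : ∃ g : Fin 3 → ℤ, g ≠ 0 ∧ (∀ k, |g k| ≤ Bx m k) ∧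
    (X.image (crossProduct g)).card ≤ s
  · exact Or.inl hcov
  right
  push Not at hcov
  have hsX : s < X.card := (hcov (fun _ => 1) (fun h => by simpa using congrFun h 0)
    (fun k => by simpa using Bx_pos hm k)).trans_le card_image_le
  have hbox : ∀ x ∈ X, ∀ k, |x k| ≤ Bx m k := fun x hx k => by
    rw [abs_of_nonneg ((hX x hx).2 k).1]
    exact ((hX x hx).2 k).2
  have hdiff : ∀ x ∈ X, ∀ y ∈ X, lf a (x - y) = 0 ∧ ∀ k, |(x - y) k| ≤ Bx m k := by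
    intro x hx y hy
    refine ⟨by rw [map_sub, (hX x hx).1, (hX y hy).1, sub_self], fun k => ?_⟩
    have h1 := (hX x hx).2 k
    have h2 := (hX y hy).2 k
    rw [Pi.sub_apply, abs_le]
    constructor <;> linarith [h1.1, h1.2, h2.1, h2.2]
  obtain ⟨x1, hx1, x0, hx0, h10⟩ := one_lt_card.1 (hs.trans_lt hsX)
  obtain ⟨x2, hx2, hN⟩ : ∃ x2 ∈ X, crossProduct (x1 - x0) (x2 - x0) ≠ 0 := by
    by_contra hn
    push Not at hn
    have h1 := hcov (x1 - x0) (sub_ne_zero.2 h10) (hdiff x1 hx1 x0 hx0).2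
    have h2 : (X.image (crossProduct (x1 - x0))).card ≤ 1 := by
      refine card_le_one.2 fun l hl l' hl' => ?_
      obtain ⟨x, hx, rfl⟩ := mem_image.1 hl
      obtain ⟨x', hx', rfl⟩ := mem_image.1 hl'
      have h3 := hn x hx
      have h4 := hn x' hx'
      rw [map_sub (crossProduct (x1 - x0)), sub_eq_zero] at h3 h4
      rw [h3, h4]
    omega
  have hv := hdiff x1 hx1 x0 hx0
  have hw := hdiff x2 hx2 x0 hx0
  generalize x1 - x0 = v at *
  generalize x2 - x0 = w at *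
  by_cases h3 : ∃ x3 ∈ X, (x3 - x0) ⬝ᵥ crossProduct v w ≠ 0
  · left
    obtain ⟨x3, hx3, hdet⟩ := h3
    obtain ⟨g, hg, hg', hl⟩ := geom_three hm a ha c X (fun x hx => ⟨(hX x hx).1, hbox x hx⟩) hdet
      (hdiff x3 hx3 x0 hx0) hv hw
    refine le_trans ?_ hl
    have := (hcov g hg hg').le
    gcongr
  right
  push Not at h3
  obtain ⟨h, n, e, hh, hn, he⟩ := exists_prim hN
  have hpl : ∀ x ∈ X, n ⬝ᵥ x = n ⬝ᵥ x0 := by
    intro x hx
    have := h3 x hx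
    rw [hn, dotProduct_smul, smul_eq_mul, dotProduct_comm, dotProduct_sub] at this
    exact sub_eq_zero.1 ((mul_eq_zero.1 this).resolve_left hh)
  have c0 : v 1 * w 2 - v 2 * w 1 = h * n 0 := by simpa [cross_apply] using congrFun hn 0
  have c1 : v 2 * w 0 - v 0 * w 2 = h * n 1 := by simpa [cross_apply] using congrFun hn 1
  have c2 : v 0 * w 1 - v 1 * w 0 = h * n 2 := by simpa [cross_apply] using congrFun hn 2
  have hm' : (1 : ℤ) ≤ m := by exact_mod_cast hm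
  have hp' : 4 * (m : ℤ) ^ 3 < p := by exact_mod_cast hp
  have hbd : ∀ k, |h * n k| ≤ 4 * m ^ 3 := by
    intro k
    have b0 := abs_det_le (hv.2 1) (hw.2 2) (hv.2 2) (hw.2 1)
    have b1 := abs_det_le (hv.2 2) (hw.2 0) (hv.2 0) (hw.2 2)
    have b2 := abs_det_le (hv.2 0) (hw.2 1) (hv.2 1) (hw.2 0)
    rw [c0] at b0
    rw [c1] at b1
    rw [c2] at b2
    simp only [Bx, cons_val_zero, cons_val_one, cons_val_two, Nat.succ_eq_add_one,
      Nat.reduceAdd, tail_cons, head_cons, Nat.cast_mul, Nat.cast_pow, Nat.cast_ofNat] at b0 b1 b2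
    fin_cases k
    · exact b0.trans (by nlinarith)
    · exact b1.trans (by nlinarith)
    · exact b2.trans (by nlinarith)
  have hhp : (h : ZMod p) ≠ 0 := by
    intro h0
    obtain ⟨k, hk⟩ : ∃ k, n k ≠ 0 := by
      by_contra hc
      push Not at hc
      rw [show n = 0 from funext hc] at he
      simp at he
    refine hh (eq_zero_of_cast h0 (lt_of_le_of_lt ?_ ((hbd k).trans_lt hp')))
    rw [abs_mul]
    nlinarith [Int.one_le_abs hk, abs_nonneg h]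
  have hcong : ∀ k, (n k : ZMod p) = n 1 * a k := by
    have r1 := hv.1
    have r2 := hw.1
    rw [lf_apply, ha] at r1 r2
    have d0 := congrArg (Int.cast : ℤ → ZMod p) c0
    have d1 := congrArg (Int.cast : ℤ → ZMod p) c1
    have d2 := congrArg (Int.cast : ℤ → ZMod p) c2
    push_cast at d0 d1 d2
    intro k
    apply mul_left_cancel₀ hhp
    fin_cases k
    · simp only [Fin.zero_eta]
      linear_combination -d0 + a 0 * d1 + (w 2 : ZMod p) * r1 - (v 2 : ZMod p) * r2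
    · simp [ha]
    · simp only [Fin.reduceFinMk]
      linear_combination -d2 + a 2 * d1 - (w 0 : ZMod p) * r1 + (v 0 : ZMod p) * r2
  have hn1 : (n 1 : ZMod p) ≠ 0 := by
    intro h0
    have := congrArg (Int.cast : ℤ → ZMod p) he
    simp only [dotProduct, Fin.sum_univ_three, Int.cast_add, Int.cast_mul, Int.cast_one] at this
    rw [hcong 0, hcong 2, h0] at this
    simp at this
  refine ⟨hsX, n, e, he, hn1, hcong, fun x hx x' hx' => by rw [hpl x hx, hpl x' hx'], ?_⟩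
  obtain ⟨g, hg, hg', hl⟩ := geom_two hm X (fun x hx => ⟨hpl x hx, hbox x hx⟩) hh hn he
    (fun h0 => hn1 (by rw [h0, Int.cast_zero])) hv.2 hw.2
  refine le_trans ?_ hl
  have := (hcov g hg hg').le
  gcongr

end Pool.Agent.MP_bd74a7_nt
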