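import Pool.Agent.MP_bd74a7_nt.Quad

/-!
The multiplicative energy of a subset of a short interval modulo `p`.
-/

open Finset

namespace Pool.Agent.MP_bd74a7_nt

theorem count2 {p : ℕ} [NeZero p] (w : ZMod p) (c : ZMod p) (X : Finset (ℤ × ℤ)) (b1 b2 B1 B2 : ℕ)
    (hX : ∀ P ∈ X, (P.2 : ZMod p) - w * P.1 = c ∧ |P.1| ≤ b1 ∧ |P.2| ≤ b2) {P Q : ℤ × ℤ}
    (hP : (P.2 : ZMod p) = w * P.1 ∧ |P.1| ≤ B1 ∧ |P.2| ≤ B2)
    (hQ : (Q.2 : ZMod p) = w * Q.1 ∧ |Q.1| ≤ B1 ∧ |Q.2| ≤ B2) (hdet : P.1 * Q.2 ≠ Q.1 * P.2) :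
    X.card * p ≤ (2 * (b1 + 2 * B1) + 1) * (2 * (b2 + 2 * B2) + 1) := by
  classical
  let φ : (Fin 2 → ℤ) →+ ZMod p :=
    { toFun := fun x => (x 1 : ZMod p) - w * x 0
      map_zero' := by simp
      map_add' := by
        intro x y
        simp only [Pi.add_apply, Int.cast_add]
        ring }
  have hφ : Function.Surjective φ := by
    intro r
    obtain ⟨z, rfl⟩ := ZMod.intCast_surjective r
    exact ⟨![0, z], by simp [φ]⟩
  have hinj : Function.Injective fun P : ℤ × ℤ => (![P.1, P.2] : Fin 2 → ℤ) := by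
    intro P Q h
    exact Prod.ext (congrFun h 0) (congrFun h 1)
  have h := count φ hφ !![P.1, Q.1; P.2, Q.2] (by
      rw [Matrix.det_fin_two_of]
      exact sub_ne_zero.2 hdet) ![B1, B2] ![b1, b2] (by
      intro k i
      fin_cases k <;> fin_cases i <;> simp [hP.2.1, hP.2.2, hQ.2.1, hQ.2.2]) (by
      intro i
      fin_cases i <;> simp [φ, hP.1, hQ.1]) (X.image fun P => ![P.1, P.2]) c (by
      intro x hx
      obtain ⟨P, hP, rfl⟩ := mem_image.1 hx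
      refine ⟨by simpa [φ] using (hX P hP).1, fun k => ?_⟩
      fin_cases k <;> simp [(hX P hP).2.1, (hX P hP).2.2])
  rw [card_image_of_injective _ hinj, Fin.prod_univ_two] at h
  simpa using h

variable {p m : ℕ} {V : Finset ℤ} {ι : Type*} {T : Finset ι} {v0 v1 v2 v3 : ι → ℤ}

theorem abs_le_div {x g : ℤ} {s σ b : ℕ} (hσ : 1 ≤ σ) (hs : σ ≤ s) (h : x = s * g)
    (hb : |x| ≤ b) : |g| ≤ (b / σ : ℕ) := by
  have h1 : g.natAbs * σ ≤ b := by
    have h2 : (s : ℤ) * |g| ≤ b := by rwa [h, abs_mul, Nat.abs_cast] at hb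
    rw [Int.abs_eq_natAbs] at h2
    have h3 : s * g.natAbs ≤ b := by exact_mod_cast h2
    nlinarith
  rw [Int.abs_eq_natAbs]
  exact_mod_cast (Nat.le_div_iff_mul_le hσ).2 h1

theorem Quad.level [Fact p.Prime] (h : Quad p V T v0 v1 v2 v3) (hV : Short p V m)
    (hp : 2 * m ^ 2 < p) {w : ℤ} (hw : ∀ a ∈ T, v0 a = w) {κ σ : ℕ} (hκ : 1 ≤ κ) (hσ : 1 ≤ σ)
    (s d u : ι → ℕ) (g n : ι → ℤ)
    (hγ : ∀ a ∈ T, v3 a - v1 a - v2 a + v0 a = s a * g a)
    (hAB : ∀ a ∈ T, (v1 a - v0 a) * (v2 a - v0 a) = s a * n a)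
    (hAB0 : ∀ a ∈ T, (v1 a - v0 a) * (v2 a - v0 a) ≠ 0)
    (hs : ∀ a ∈ T, s a = d a * u a) (hd : ∀ a ∈ T, (d a : ℤ) ∣ n a)
    (hu : ∀ a ∈ T, u a * κ ^ 2 ≤ s a ^ 2) (hσs : ∀ a ∈ T, σ ≤ s a ∧ s a ≤ 2 * σ) :
    T.card * (κ ^ 2 * p) ≤
      2 * Dm (3 * m ^ 4) * V.card * (κ ^ 2 * p) + 784 * Dm (3 * m ^ 4) ^ 2 * m ^ 3 := by
  classical
  have hp' : 2 * (m : ℤ) ^ 2 < p := by exact_mod_cast hp
  have hm2 : 2 * (m : ℤ) ≤ 2 * m ^ 2 := by
    have : m ≤ m ^ 2 := Nat.le_self_pow (by norm_num) m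
    have : (m : ℤ) ≤ m ^ 2 := by exact_mod_cast this
    linarith
  have bγ : ∀ a ∈ T, |v3 a - v1 a - v2 a + v0 a| ≤ (2 * m : ℕ) := by
    intro a ha
    have d1 := hV.diam _ (h.m1 a ha) _ (h.m0 a ha)
    have d2 := hV.diam _ (h.m3 a ha) _ (h.m2 a ha)
    rw [abs_le] at *
    push_cast
    constructor <;> linarith [d1.1, d1.2, d2.1, d2.2]
  have bAB : ∀ a ∈ T, |(v1 a - v0 a) * (v2 a - v0 a)| ≤ (m ^ 2 : ℕ) := by
    intro a ha
    rw [abs_mul]
    have := mul_le_mul (hV.diam _ (h.m1 a ha) _ (h.m0 a ha))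
      (hV.diam _ (h.m2 a ha) _ (h.m0 a ha)) (abs_nonneg _) (by positivity)
    push_cast
    nlinarith
  have bg : ∀ a ∈ T, |g a| ≤ (2 * m / σ : ℕ) := fun a ha =>
    abs_le_div hσ (hσs a ha).1 (hγ a ha) (bγ a ha)
  have bn : ∀ a ∈ T, |n a| ≤ (m ^ 2 / σ : ℕ) := fun a ha =>
    abs_le_div hσ (hσs a ha).1 (hAB a ha) (bAB a ha)
  have bg' : ∀ a ∈ T, |g a| ≤ 2 * m := fun a ha =>
    (bg a ha).trans (by exact_mod_cast Nat.div_le_self _ _)
  have bn' : ∀ a ∈ T, |n a| ≤ m ^ 2 := fun a ha =>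
    (bn a ha).trans (by exact_mod_cast Nat.div_le_self _ _)
  have n0 : ∀ a ∈ T, n a ≠ 0 := fun a ha h0 => hAB0 a ha (by rw [hAB a ha, h0, mul_zero])
  have crel : ∀ a ∈ T, (((v1 a - v0 a) * (v2 a - v0 a) : ℤ) : ZMod p) =
      w * ((v3 a - v1 a - v2 a + v0 a : ℤ) : ZMod p) := by
    intro a ha
    have r := h.rel a ha
    rw [hw a ha] at r ⊢
    push_cast
    linear_combination -r
  have γ0 : ∀ a ∈ T, ((v3 a - v1 a - v2 a + v0 a : ℤ) : ZMod p) ≠ 0 := by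
    intro a ha h0
    have r := crel a ha
    rw [h0, mul_zero] at r
    refine hAB0 a ha (eq_zero_of_cast r ((bAB a ha).trans_lt ?_))
    push_cast
    nlinarith [sq_nonneg (m : ℤ)]
  have g0 : ∀ a ∈ T, (g a : ZMod p) ≠ 0 := by
    intro a ha h0
    refine γ0 a ha ?_
    rw [hγ a ha]
    push_cast
    rw [h0, mul_zero]
  have cng : ∀ a ∈ T, (n a : ZMod p) = w * g a := by
    intro a ha
    have s0 : (s a : ZMod p) ≠ 0 := by
      intro h0
      refine γ0 a ha ?_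
      rw [hγ a ha]
      push_cast
      rw [h0, zero_mul]
    have r := crel a ha
    rw [hγ a ha, hAB a ha] at r
    push_cast at r
    apply mul_left_cancel₀ s0
    linear_combination r
  by_cases hcol : ∀ a ∈ T, ∀ b ∈ T, g a * n b = g b * n a
  · rcases T.eq_empty_or_nonempty with rfl | ⟨b, hb⟩
    · simp
    have := h.col hV hw (g0 b hb) (cng b hb) (bg' b hb) (bn' b hb) fun a ha => by
      rw [hγ a ha, hAB a ha]
      linear_combination (s a : ℤ) * hcol a ha b hb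
    exact (Nat.mul_le_mul_right _ this).trans (Nat.le_add_right _ _)
  push Not at hcol
  obtain ⟨a, ha, b, hb, hab⟩ := hcol
  set X := T.image fun a => (g a, n a) with hX
  set b1 := 2 * m / σ with hb1
  set b2 := m ^ 2 / σ with hb2
  set U := 4 * σ ^ 2 / κ ^ 2 with hU
  have h1 : X.card * p ≤ (2 * (b1 + 2 * b1) + 1) * (2 * (b2 + 2 * b2) + 1) := by
    refine count2 (w : ZMod p) 0 X b1 b2 b1 b2 ?_ (P := (g a, n a)) (Q := (g b, n b))
      ⟨cng a ha, bg a ha, bn a ha⟩ ⟨cng b hb, bg b hb, bn b hb⟩ hab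
    intro P hP
    obtain ⟨c, hc, rfl⟩ := mem_image.1 hP
    exact ⟨sub_eq_zero.2 (cng c hc), bg c hc, bn c hc⟩
  have hb1' : 1 ≤ b1 := by
    have h2 : g a ≠ 0 := fun h0 => g0 a ha (by rw [h0, Int.cast_zero])
    have h3 := (Int.one_le_abs h2).trans (bg a ha)
    exact_mod_cast h3
  have hb2' : 1 ≤ b2 := by
    have h3 := (Int.one_le_abs (n0 a ha)).trans (bn a ha)
    exact_mod_cast h3
  have h2 : T.card ≤ 2 * Dm (m ^ 2) * (Dm (m ^ 2) * U) * X.card := by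
    refine card_le_mul_card_image T _ fun P hP => ?_
    obtain ⟨c, hc, rfl⟩ := mem_image.1 hP
    refine (h.mono (filter_subset _ _)).fib hV (w := w) (g := g c) (fun e he => ?_) (n0 c hc)
      (bn' c hc) d u (fun e he => ?_) (fun e he => ?_) (fun e he => ?_) (fun e he => ?_)
    all_goals simp only [mem_filter, Prod.mk.injEq] at he
    · exact hw e he.1
    · rw [← hs e he.1, ← he.2.1]
      exact hγ e he.1
    · rw [← hs e he.1, ← he.2.2]
      exact hAB e he.1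
    · rw [← he.2.2]
      exact hd e he.1
    · rw [← hs e he.1]
      refine ⟨hσ.trans (hσs e he.1).1, (Nat.le_div_iff_mul_le (by positivity)).2 ?_⟩
      refine (hu e he.1).trans ?_
      have := (hσs e he.1).2
      nlinarith
  have h3 : b1 * σ ≤ 2 * m := Nat.div_mul_le_self _ _
  have h4 : b2 * σ ≤ m ^ 2 := Nat.div_mul_le_self _ _
  have h5 : U * κ ^ 2 ≤ 4 * σ ^ 2 := Nat.div_mul_le_self _ _
  have h6 : Dm (m ^ 2) ≤ Dm (3 * m ^ 4) := by
    refine Dm_mono ?_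
    have : m ^ 2 ≤ (m ^ 2) ^ 2 := Nat.le_self_pow (by norm_num) _
    nlinarith
  have h7 : X.card * p ≤ (7 * b1) * (7 * b2) :=
    h1.trans (Nat.mul_le_mul (by omega) (by omega))
  refine le_trans ?_ (Nat.le_add_left _ _)
  set D := Dm (3 * m ^ 4)
  calc T.card * (κ ^ 2 * p) ≤ 2 * D * (D * U) * X.card * (κ ^ 2 * p) := by
        refine Nat.mul_le_mul_right _ (h2.trans ?_)
        gcongr
    _ = 2 * D ^ 2 * (U * κ ^ 2) * (X.card * p) := by ring
    _ ≤ 2 * D ^ 2 * (4 * σ ^ 2) * ((7 * b1) * (7 * b2)) := by gcongr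
    _ = 392 * D ^ 2 * ((b1 * σ) * (b2 * σ)) := by ring
    _ ≤ 392 * D ^ 2 * ((2 * m) * m ^ 2) := by gcongr
    _ = _ := by ring

theorem Quad.good [Fact p.Prime] (h : Quad p V T v0 v1 v2 v3) (hV : Short p V m)
    (hp : 2 * m ^ 2 < p) {κ : ℕ} (hκ : 1 ≤ κ)
    (hk : ∀ a ∈ T, κ ≤ Int.gcd (v1 a - v0 a) (v3 a - v1 a - v2 a + v0 a))
    (ht : ∀ a ∈ T, κ ≤ Int.gcd (v2 a - v0 a) (v3 a - v1 a - v2 a + v0 a)) :
    T.card * (κ ^ 2 * p) ≤ V.card * Dm (3 * m ^ 4) *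
      (2 * Dm (3 * m ^ 4) * V.card * (κ ^ 2 * p) + 784 * Dm (3 * m ^ 4) ^ 2 * m ^ 3) := by
  classical
  have hp' : 2 * (m : ℤ) ^ 2 < p := by exact_mod_cast hp
  have hm2 : (m : ℤ) ≤ m ^ 2 := by exact_mod_cast Nat.le_self_pow (by norm_num) m
  have bγ : ∀ a ∈ T, |v3 a - v1 a - v2 a + v0 a| ≤ 2 * m := by
    intro a ha
    have d1 := hV.diam _ (h.m1 a ha) _ (h.m0 a ha)
    have d2 := hV.diam _ (h.m3 a ha) _ (h.m2 a ha)
    rw [abs_le] at *
    constructor <;> linarith [d1.1, d1.2, d2.1, d2.2]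
  have hAB0 : ∀ a ∈ T, (v1 a - v0 a) * (v2 a - v0 a) ≠ 0 := by
    intro a ha h0
    have h1 : ((v3 a - v1 a - v2 a + v0 a : ℤ) : ZMod p) = 0 := by
      have r := h.rel a ha
      have r0 : (((v1 a - v0 a) * (v2 a - v0 a) : ℤ) : ZMod p) = 0 := by rw [h0, Int.cast_zero]
      apply mul_left_cancel₀ (hV.nz _ (h.m0 a ha))
      push_cast at r0 ⊢
      linear_combination r + r0
    have h2 := eq_zero_of_cast h1 ((bγ a ha).trans_lt (by linarith))
    have h3 := hk a ha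
    have h4 := ht a ha
    rw [h2] at h3 h4
    rcases mul_eq_zero.1 h0 with h5 | h5
    · rw [h5] at h3
      simp at h3
      omega
    · rw [h5] at h4
      simp at h4
      omega
  have hdec : ∀ a, ∃ (s d u : ℕ) (g n : ℤ), a ∈ T → 1 ≤ s ∧ v3 a - v1 a - v2 a + v0 a = s * g ∧
      (v1 a - v0 a) * (v2 a - v0 a) = s * n ∧ s = d * u ∧ (d : ℤ) ∣ n ∧ u * κ ^ 2 ≤ s ^ 2 := by
    intro a
    by_cases ha : a ∈ T
    · obtain ⟨s, d, u, g, n, H⟩ := decomp hκ (hk a ha) (ht a ha)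
      exact ⟨s, d, u, g, n, fun _ => H⟩
    · exact ⟨0, 0, 0, 0, 0, fun h => absurd h ha⟩
  choose s d u g n H using hdec
  set D := Dm (3 * m ^ 4) with hD
  set Bd := 2 * D * V.card * (κ ^ 2 * p) + 784 * D ^ 2 * m ^ 3 with hBd
  have hmap : ∀ a ∈ T, (v0 a, Nat.log 2 (s a)) ∈ V ×ˢ range D := by
    intro a ha
    obtain ⟨h1, -, h3, -⟩ := H a ha
    refine mem_product.2 ⟨h.m0 a ha, mem_range.2 (log_le_Dm (by omega) ?_)⟩
    have h4 : n a ≠ 0 := fun h0 => hAB0 a ha (by rw [h3, h0, mul_zero])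
    have h5 := mul_le_mul (hV.diam _ (h.m1 a ha) _ (h.m0 a ha))
      (hV.diam _ (h.m2 a ha) _ (h.m0 a ha)) (abs_nonneg _) (by positivity)
    rw [← abs_mul, h3, abs_mul, Nat.abs_cast] at h5
    have h6 := Int.one_le_abs h4
    have h7 : (s a : ℤ) ≤ m * m := by nlinarith
    have h8 : s a ≤ m * m := by exact_mod_cast h7
    have : m ^ 2 ≤ (m ^ 2) ^ 2 := Nat.le_self_pow (by norm_num) _
    nlinarith
  rw [card_eq_sum_card_fiberwise hmap, sum_mul]
  refine (sum_le_card_nsmul _ _ Bd ?_).trans (by rw [card_product, card_range, smul_eq_mul])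
  rintro ⟨w, j⟩ _
  refine (h.mono (filter_subset _ _)).level hV hp (w := w) (fun e he => ?_) hκ
    (σ := 2 ^ j) Nat.one_le_two_pow s d u g n (fun e he => ?_) (fun e he => ?_) (fun e he => ?_)
    (fun e he => ?_) (fun e he => ?_) (fun e he => ?_) (fun e he => ?_)
  all_goals simp only [mem_filter, Prod.mk.injEq] at he
  · exact he.2.1
  · exact (H e he.1).2.1
  · exact (H e he.1).2.2.1
  · exact hAB0 e he.1
  · exact (H e he.1).2.2.2.1
  · exact (H e he.1).2.2.2.2.1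
  · exact (H e he.1).2.2.2.2.2
  · have h1 := (H e he.1).1
    rw [← he.2.2]
    refine ⟨Nat.pow_log_le_self 2 (by omega), ?_⟩
    have := Nat.lt_pow_succ_log_self (b := 2) (by norm_num) (s e)
    rw [pow_succ] at this
    omega

/-- The energy bound. -/
theorem Quad.energy [Fact p.Prime] (h : Quad p V T v0 v1 v2 v3) (hV : Short p V m)
    (hp : 2 * m ^ 2 < p) {κ : ℕ} (hκ : 1 ≤ κ) :
    T.card * (κ ^ 2 * p) ≤ 4 * κ * V.card ^ 2 * (κ ^ 2 * p) + V.card * Dm (3 * m ^ 4) *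
      (2 * Dm (3 * m ^ 4) * V.card * (κ ^ 2 * p) + 784 * Dm (3 * m ^ 4) ^ 2 * m ^ 3) := by
  classical
  set T1 := T.filter fun a => Int.gcd (v1 a - v0 a) (v3 a - v1 a - v2 a + v0 a) < κ
  set T2 := T.filter fun a => Int.gcd (v2 a - v0 a) (v3 a - v2 a - v1 a + v0 a) < κ
  set T3 := T.filter fun a => κ ≤ Int.gcd (v1 a - v0 a) (v3 a - v1 a - v2 a + v0 a) ∧
    κ ≤ Int.gcd (v2 a - v0 a) (v3 a - v1 a - v2 a + v0 a)
  have h1 : T1.card ≤ 2 * κ * V.card ^ 2 :=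
    (h.mono (filter_subset _ _)).bad hV hp fun a ha => (mem_filter.1 ha).2
  have h2 : T2.card ≤ 2 * κ * V.card ^ 2 :=
    (h.swap.mono (filter_subset _ _)).bad hV hp fun a ha => (mem_filter.1 ha).2
  have h3 := (h.mono (filter_subset _ _) : Quad p V T3 v0 v1 v2 v3).good hV hp hκ
    (fun a ha => (mem_filter.1 ha).2.1) fun a ha => (mem_filter.1 ha).2.2
  have h4 : T.card ≤ T1.card + T2.card + T3.card := by
    refine le_trans (card_le_card (t := T1 ∪ T2 ∪ T3) fun a ha => ?_)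
      ((card_union_le _ _).trans (Nat.add_le_add_right (card_union_le _ _) _))
    simp only [T1, T2, T3, mem_union, mem_filter, ha, true_and]
    rw [show v3 a - v2 a - v1 a + v0 a = v3 a - v1 a - v2 a + v0 a by ring]
    omega
  calc T.card * (κ ^ 2 * p) ≤ (T1.card + T2.card + T3.card) * (κ ^ 2 * p) := by gcongr
    _ = (T1.card + T2.card) * (κ ^ 2 * p) + T3.card * (κ ^ 2 * p) := by ring
    _ ≤ (2 * κ * V.card ^ 2 + 2 * κ * V.card ^ 2) * (κ ^ 2 * p) + _ :=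
        Nat.add_le_add (Nat.mul_le_mul_right _ (Nat.add_le_add h1 h2)) h3
    _ = _ := by ring

/-- The bound for a set with few products. -/
theorem Short.core [Fact p.Prime] (hV : Short p V m) (hp : 2 * m ^ 2 < p) (S : Finset (ZMod p))
    (hS : ∀ v ∈ V, ∀ w ∈ V, (v : ZMod p) * w ∈ S) {N : ℕ} (hN : S.card ≤ N) :
    V.card ^ 2 ≤ 8 * N * (Dm (3 * m ^ 4) + 1) ^ 2 ∨
      V.card ^ 7 * p ≤ 802816 * N ^ 3 * Dm (3 * m ^ 4) ^ 3 * m ^ 3 := by
  classical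
  have h1 := sq_le_mul_coll (V ×ˢ V) S (fun x => (x.1 : ZMod p) * x.2) fun x hx =>
    hS _ (mem_product.1 hx).1 _ (mem_product.1 hx).2
  set E := ((V ×ˢ V) ×ˢ (V ×ˢ V)).filter
    fun x => (x.1.1 : ZMod p) * x.1.2 = (x.2.1 : ZMod p) * x.2.2 with hE
  have hQ : Quad p V E (fun x => x.1.1) (fun x => x.2.1) (fun x => x.2.2) (fun x => x.1.2) := by
    refine ⟨?_, ?_, ?_, ?_, ?_, ?_⟩
    rotate_right
    · intro a _ b _ h0 h1 h2 h3
      exact Prod.ext (Prod.ext h0 h3) (Prod.ext h1 h2)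
    all_goals
      intro a ha
      simp only [hE, mem_filter, mem_product] at ha
      tauto
  rw [card_product] at h1
  set J := V.card
  set D := Dm (3 * m ^ 4)
  have h2 : J ^ 4 ≤ N * E.card := by
    calc J ^ 4 = (J * J) ^ 2 := by ring
      _ ≤ S.card * E.card := h1
      _ ≤ N * E.card := by gcongr
  rcases Nat.eq_zero_or_pos J with hJ | hJ
  · left
    simp [hJ]
  have hN0 : 0 < N := by
    rcases Nat.eq_zero_or_pos N with h0 | h0
    · rw [h0, zero_mul] at h2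
      exact absurd h2 (by have := pow_pos hJ 4; omega)
    · exact h0
  set κ := J ^ 2 / (8 * N) with hκ
  have h3 : κ * (8 * N) ≤ J ^ 2 := Nat.div_mul_le_self _ _
  have h4 : J ^ 2 < (κ + 1) * (8 * N) := by
    rw [mul_comm]
    exact Nat.lt_mul_div_succ _ (by omega)
  rcases Nat.eq_zero_or_pos κ with h0 | h0
  · left
    rw [h0] at h4
    have : 1 ≤ (D + 1) ^ 2 := Nat.one_le_pow _ _ (by omega)
    nlinarith
  have h5 := hQ.energy hV hp h0
  have hp0 : 0 < p := by omega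
  set P := κ ^ 2 * p with hP
  have hP0 : 0 < P := by positivity
  have h6 : J ^ 4 * P ≤ N * (4 * κ * J ^ 2 * P + J * D * (2 * D * J * P + 784 * D ^ 2 * m ^ 3)) := by
    calc J ^ 4 * P ≤ N * E.card * P := by gcongr
      _ = N * (E.card * P) := by ring
      _ ≤ _ := Nat.mul_le_mul_left _ h5
  have h7 : κ * (8 * N) * (J ^ 2 * P) ≤ J ^ 2 * (J ^ 2 * P) := Nat.mul_le_mul_right _ h3
  have h8 : J ^ 4 * P ≤ 4 * N * D ^ 2 * J ^ 2 * P + 1568 * N * D ^ 3 * m ^ 3 * J := by nlinarith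
  by_cases h9 : 4 * N * D ^ 2 * J ^ 2 * P ≤ 1568 * N * D ^ 3 * m ^ 3 * J
  · right
    have h10 : J ^ 3 * P * J ≤ 3136 * N * D ^ 3 * m ^ 3 * J := by nlinarith
    have h11 := Nat.le_of_mul_le_mul_right h10 hJ
    have h12 : J ^ 2 ≤ 16 * N * κ := by nlinarith
    calc J ^ 7 * p = (J ^ 2) ^ 2 * (J ^ 3 * p) := by ring
      _ ≤ (16 * N * κ) ^ 2 * (J ^ 3 * p) := by gcongr
      _ = 256 * N ^ 2 * (J ^ 3 * P) := by rw [hP]; ring
      _ ≤ 256 * N ^ 2 * (3136 * N * D ^ 3 * m ^ 3) := by gcongr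
      _ = _ := by ring
  · left
    have h10 : J ^ 2 * (J ^ 2 * P) ≤ 8 * N * D ^ 2 * (J ^ 2 * P) := by nlinarith
    have h11 := Nat.le_of_mul_le_mul_right h10 (by positivity)
    refine h11.trans ?_
    gcongr
    omega

end Pool.Agent.MP_bd74a7_nt
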