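import Pool.Agent.MP_bd74a7_nt.Good

/-!
Points of integral and modular hyperbolas, and pairs of representations.
-/

open Finset

namespace Pool.Agent.MP_bd74a7_nt

variable {ι : Type*} {p m : ℕ}

theorem abs_lin_le {g0 g1 b : ℤ} (h0 : |g0| ≤ 2 * m) (h1 : |g1| ≤ m ^ 2) (hb : 0 ≤ b ∧ b ≤ m) :
    |g0 * b - g1| ≤ 3 * m ^ 2 := by
  refine (abs_sub _ _).trans ?_
  rw [abs_mul, abs_of_nonneg hb.1]
  have := mul_le_mul h0 hb.2 hb.1 (by positivity)
  nlinarith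

theorem ihyp (T : Finset ι) (b c : ι → ℤ) (hinj : ∀ s ∈ T, ∀ t ∈ T, b s = b t → c s = c t → s = t)
    (hb : ∀ t ∈ T, 0 ≤ b t ∧ b t ≤ m) (hc : ∀ t ∈ T, 0 ≤ c t ∧ c t ≤ m) {g0 g1 N0 : ℤ}
    (hg : g0 ≠ 0) (h0 : |g0| ≤ 2 * m) (h1 : |g1| ≤ m ^ 2) (hN : N0 ≠ 0)
    (h : ∀ t ∈ T, (g0 * b t - g1) * (g0 * c t - g1) = N0) : T.card ≤ 2 * Dm (9 * m ^ 4) := by
  refine card_le_of_dvd T (fun t => g0 * b t - g1) N0 _ (fun s hs t ht e => ?_) fun t ht => ?_
  · have e1 : b s = b t := mul_left_cancel₀ hg (by linear_combination e)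
    have k1 := h s hs
    have k2 := h t ht
    have k3 : g0 * b s - g1 ≠ 0 := fun h0 => hN (by rw [← k1, h0, zero_mul])
    rw [← e1, ← k1] at k2
    have k4 := mul_left_cancel₀ k3 k2
    exact hinj s hs t ht e1 (mul_left_cancel₀ hg (by linear_combination -k4))
  · refine ⟨⟨_, (h t ht).symm⟩, hN, ?_⟩
    rw [← h t ht, abs_mul]
    have := mul_le_mul (abs_lin_le h0 h1 (hb t ht)) (abs_lin_le h0 h1 (hc t ht)) (abs_nonneg _)
      (by positivity)
    push_cast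
    nlinarith

theorem abs_sig {b c b' c' : ℤ} (hb : 0 ≤ b ∧ b ≤ m) (hc : 0 ≤ c ∧ c ≤ m) (hb' : 0 ≤ b' ∧ b' ≤ m)
    (hc' : 0 ≤ c' ∧ c' ≤ m) : |b + c - (b' + c')| ≤ 2 * m := by
  rw [abs_le]
  constructor <;> linarith [hb.1, hb.2, hc.1, hc.2, hb'.1, hb'.2, hc'.1, hc'.2]

theorem abs_pi {b c b' c' : ℤ} (hb : 0 ≤ b ∧ b ≤ m) (hc : 0 ≤ c ∧ c ≤ m) (hb' : 0 ≤ b' ∧ b' ≤ m)
    (hc' : 0 ≤ c' ∧ c' ≤ m) : |b * c - b' * c'| ≤ m ^ 2 := by
  have h1 := mul_nonneg hb.1 hc.1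
  have h2 := mul_nonneg hb'.1 hc'.1
  have h3 := mul_le_mul hb.2 hc.2 hc.1 (by positivity)
  have h4 := mul_le_mul hb'.2 hc'.2 hc'.1 (by positivity)
  rw [abs_le]
  constructor <;> nlinarith

theorem hyp [Fact p.Prime] (hp : 4 * m ^ 3 < p) (hm : 1 ≤ m) (T : Finset ι) (b c : ι → ℤ)
    (hinj : ∀ s ∈ T, ∀ t ∈ T, b s = b t → c s = c t → s = t)
    (hb : ∀ t ∈ T, 0 ≤ b t ∧ b t ≤ m) (hc : ∀ t ∈ T, 0 ≤ c t ∧ c t ≤ m) {κ η : ZMod p}
    (hη : η ≠ 0) (h : ∀ t ∈ T, ((b t : ZMod p) - κ) * (c t - κ) = η) :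
    T.card ≤ 2 * Dm (9 * m ^ 4) := by
  classical
  have hp' : 4 * (m : ℤ) ^ 3 < p := by exact_mod_cast hp
  have hm' : (1 : ℤ) ≤ m := by exact_mod_cast hm
  rcases T.eq_empty_or_nonempty with rfl | ⟨t0, ht0⟩
  · simp
  by_cases hs : ∀ t ∈ T, b t + c t = b t0 + c t0
  · have hπ : ∀ t ∈ T, b t * c t = b t0 * c t0 := by
      intro t ht
      refine sub_eq_zero.1 (eq_zero_of_cast (p := p) ?_ ?_)
      · have e : ((b t + c t : ℤ) : ZMod p) = (b t0 + c t0 : ℤ) := by rw [hs t ht]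
        push_cast at e ⊢
        linear_combination h t ht - h t0 ht0 + κ * e
      · refine (abs_pi (hb t ht) (hc t ht) (hb t0 ht0) (hc t0 ht0)).trans_lt ?_
        nlinarith
    have h2 : T.card ≤ ({b t0, c t0} : Finset ℤ).card := by
      refine card_le_card_of_injOn b (fun t ht => ?_) fun s hs' t ht e => ?_
      · have : (b t - b t0) * (b t - c t0) = 0 := by
          linear_combination (b t) * hs t ht - hπ t ht
        simp only [coe_insert, coe_singleton, Set.mem_insert_iff, Set.mem_singleton_iff]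
        rcases mul_eq_zero.1 this with h1 | h1
        · left; linarith
        · right; linarith
      · exact hinj s hs' t ht e (by linarith [hs s hs', hs t ht])
    have h3 : 1 ≤ Dm (9 * m ^ 4) := one_le_Dm (by nlinarith [Nat.one_le_pow 4 m hm])
    exact h2.trans (card_le_two.trans (by omega))
  push Not at hs
  obtain ⟨t1, ht1, hne⟩ := hs
  set g0 := b t1 + c t1 - (b t0 + c t0) with hg0
  set g1 := b t1 * c t1 - b t0 * c t0 with hg1
  have b0 : |g0| ≤ 2 * m := abs_sig (hb t1 ht1) (hc t1 ht1) (hb t0 ht0) (hc t0 ht0)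
  have b1 : |g1| ≤ m ^ 2 := abs_pi (hb t1 ht1) (hc t1 ht1) (hb t0 ht0) (hc t0 ht0)
  have c1 : (g1 : ZMod p) = κ * g0 := by
    rw [hg0, hg1]
    push_cast
    linear_combination h t1 ht1 - h t0 ht0
  have n0 : (g0 : ZMod p) ≠ 0 := fun h0 =>
    sub_ne_zero.2 hne (eq_zero_of_cast h0 (b0.trans_lt (by nlinarith)))
  refine ihyp T b c hinj hb hc (sub_ne_zero.2 hne) b0 b1
    (N0 := (g0 * b t0 - g1) * (g0 * c t0 - g1)) (fun h0 => ?_) fun t ht => ?_
  · have e : (((g0 * b t0 - g1) * (g0 * c t0 - g1) : ℤ) : ZMod p) = (g0 : ZMod p) ^ 2 * η := by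
      push_cast
      rw [c1, ← h t0 ht0]
      ring
    rw [h0, Int.cast_zero] at e
    exact mul_ne_zero (pow_ne_zero _ n0) hη e.symm
  · have e : g0 * (b t * c t - b t0 * c t0) - g1 * (b t + c t - (b t0 + c t0)) = 0 := by
      refine eq_zero_of_cast (p := p) ?_ ?_
      · push_cast
        rw [c1]
        linear_combination (g0 : ZMod p) * (h t ht - h t0 ht0)
      · refine (abs_sub _ _).trans_lt ?_
        rw [abs_mul, abs_mul]
        have i1 := mul_le_mul b0 (abs_pi (hb t ht) (hc t ht) (hb t0 ht0) (hc t0 ht0))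
          (abs_nonneg _) (by positivity)
        have i2 := mul_le_mul b1 (abs_sig (hb t ht) (hc t ht) (hb t0 ht0) (hc t0 ht0))
          (abs_nonneg _) (by positivity)
        nlinarith
    linear_combination g0 * e

/-- A subset of `[0, m]` whose shift by `L` avoids zero. -/
structure Nrm (p : ℕ) (L : ZMod p) (V : Finset ℤ) (m : ℕ) : Prop where
  mem : ∀ v ∈ V, 0 ≤ v ∧ v ≤ m
  nz : ∀ v ∈ V, L + v ≠ 0

/-- A family of multiplicative sextuples. -/
structure Sext (p : ℕ) (L : ZMod p) (V : Finset ℤ) (T : Finset ι) (b c f b' c' f' : ι → ℤ) :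
    Prop where
  mb : ∀ t ∈ T, b t ∈ V
  mc : ∀ t ∈ T, c t ∈ V
  mf : ∀ t ∈ T, f t ∈ V
  mb' : ∀ t ∈ T, b' t ∈ V
  mc' : ∀ t ∈ T, c' t ∈ V
  mf' : ∀ t ∈ T, f' t ∈ V
  rel : ∀ t ∈ T, (L + b t) * (L + c t) * (L + f' t) = (L + b' t) * (L + c' t) * (L + f t)
  inj : ∀ s ∈ T, ∀ t ∈ T, b s = b t → c s = c t → f s = f t → b' s = b' t → c' s = c' t →
    f' s = f' t → s = t

variable {L : ZMod p} {V : Finset ℤ} {T : Finset ι} {b c f b' c' f' : ι → ℤ}

theorem Nrm.mono (h : Nrm p L V m) {W : Finset ℤ} (hW : W ⊆ V) : Nrm p L W m :=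
  ⟨fun v hv => h.mem v (hW hv), fun v hv => h.nz v (hW hv)⟩

theorem Nrm.inj (h : Nrm p L V m) (hp : m < p) {v w : ℤ} (hv : v ∈ V) (hw : w ∈ V)
    (e : L + v = L + w) : v = w := by
  refine sub_eq_zero.1 (eq_zero_of_cast (p := p) ?_ ?_)
  · push_cast
    linear_combination e
  · have h1 := h.mem v hv
    have h2 := h.mem w hw
    have hp' : (m : ℤ) < p := by exact_mod_cast hp
    rw [abs_lt]
    constructor <;> linarith [h1.1, h1.2, h2.1, h2.2]

theorem Sext.mono (h : Sext p L V T b c f b' c' f') {T' : Finset ι} (hT : T' ⊆ T) :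
    Sext p L V T' b c f b' c' f' :=
  ⟨fun a ha => h.mb a (hT ha), fun a ha => h.mc a (hT ha), fun a ha => h.mf a (hT ha),
    fun a ha => h.mb' a (hT ha), fun a ha => h.mc' a (hT ha), fun a ha => h.mf' a (hT ha),
    fun a ha => h.rel a (hT ha), fun a ha b hb => h.inj a (hT ha) b (hT hb)⟩

theorem Sext.swap (h : Sext p L V T b c f b' c' f') : Sext p L V T c b f b' c' f' :=
  ⟨h.mc, h.mb, h.mf, h.mb', h.mc', h.mf', fun a ha => by rw [← h.rel a ha]; ring,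
    fun a ha b hb h1 h2 h3 h4 h5 h6 => h.inj a ha b hb h2 h1 h3 h4 h5 h6⟩

theorem Sext.swap' (h : Sext p L V T b c f b' c' f') : Sext p L V T b c f c' b' f' :=
  ⟨h.mb, h.mc, h.mf, h.mc', h.mb', h.mf', fun a ha => by rw [h.rel a ha]; ring,
    fun a ha b hb h1 h2 h3 h4 h5 h6 => h.inj a ha b hb h1 h2 h3 h5 h4 h6⟩

theorem card_cube (V : Finset ℤ) : (V ×ˢ V ×ˢ V).card = V.card ^ 3 := by
  rw [card_product, card_product]
  ring

theorem Sext.share [Fact p.Prime] (h : Sext p L V T b c f b' c' f') (hV : Nrm p L V m)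
    (hp : 4 * m ^ 3 < p) (hm : 1 ≤ m) (he : ∀ t ∈ T, b t = b' t) :
    T.card ≤ 2 * Dm (9 * m ^ 4) * V.card ^ 3 := by
  classical
  rw [← card_cube]
  refine card_le_mul_card_image_of_maps_to (f := fun t => (b t, c t, f' t))
    (fun t ht => by simp [h.mb t ht, h.mc t ht, h.mf' t ht]) _ ?_
  rintro ⟨x, y, z⟩ hx
  simp only [mem_product] at hx
  refine hyp hp hm _ c' f (fun s hs t ht e1 e2 => ?_) (fun t ht => ?_) (fun t ht => ?_)
    (κ := -L) (mul_ne_zero (hV.nz y hx.2.1) (hV.nz z hx.2.2)) fun t ht => ?_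
  · simp only [mem_filter, Prod.mk.injEq] at hs ht
    refine h.inj s hs.1 t ht.1 (by rw [hs.2.1, ht.2.1]) (by rw [hs.2.2.1, ht.2.2.1]) e2 ?_ e1
      (by rw [hs.2.2.2, ht.2.2.2])
    rw [← he s hs.1, ← he t ht.1, hs.2.1, ht.2.1]
  · exact hV.mem _ (h.mc' t (mem_filter.1 ht).1)
  · exact hV.mem _ (h.mf t (mem_filter.1 ht).1)
  · simp only [mem_filter, Prod.mk.injEq] at ht
    have r := h.rel t ht.1
    rw [← he t ht.1, ht.2.2.1, ht.2.2.2] at r
    apply mul_left_cancel₀ (hV.nz _ (h.mb t ht.1))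
    linear_combination -r

theorem Sext.sameSum [Fact p.Prime] (h : Sext p L V T b c f b' c' f') (hV : Nrm p L V m)
    (hp : 4 * m ^ 3 < p) (hm : 1 ≤ m) (he : ∀ t ∈ T, b t + c t = b' t + c' t ∧ f t ≠ f' t) :
    T.card ≤ 2 * Dm (9 * m ^ 4) * V.card ^ 3 := by
  classical
  have hmp : m < p := by nlinarith [Nat.le_self_pow (show 3 ≠ 0 by norm_num) m]
  rw [← card_cube]
  refine card_le_mul_card_image_of_maps_to (f := fun t => (b' t, f t, f' t))
    (fun t ht => by simp [h.mb' t ht, h.mf t ht, h.mf' t ht]) _ ?_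
  rintro ⟨x, y, z⟩ hx
  simp only [mem_product] at hx
  rcases (T.filter fun t => (b' t, f t, f' t) = (x, y, z)).eq_empty_or_nonempty with h0 | ⟨t0, ht0⟩
  · rw [h0]
    simp
  simp only [mem_filter, Prod.mk.injEq] at ht0
  have hyz : y ≠ z := by
    rw [← ht0.2.2.1, ← ht0.2.2.2]
    exact (he t0 ht0.1).2
  have nx := hV.nz x hx.1
  have ny := hV.nz y hx.2.1
  have nz := hV.nz z hx.2.2
  set κ : ZMod p := (L + y) * (L + x) / (L + z) with hκ
  have hκ' : κ * (L + z) = (L + y) * (L + x) := div_mul_cancel₀ _ nz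
  refine hyp hp hm _ b c (fun s hs t ht e1 e2 => ?_) (fun t ht => ?_) (fun t ht => ?_)
    (κ := κ - L) (η := κ * (κ - (L + x))) (mul_ne_zero (div_ne_zero (mul_ne_zero ny nx) nz) ?_)
    fun t ht => ?_
  · simp only [mem_filter, Prod.mk.injEq] at hs ht
    have e3 : b' s = b' t := by rw [hs.2.1, ht.2.1]
    refine h.inj s hs.1 t ht.1 e1 e2 (by rw [hs.2.2.1, ht.2.2.1]) e3 ?_
      (by rw [hs.2.2.2, ht.2.2.2])
    linarith [(he s hs.1).1, (he t ht.1).1]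
  · exact hV.mem _ (h.mb t (mem_filter.1 ht).1)
  · exact hV.mem _ (h.mc t (mem_filter.1 ht).1)
  · intro h0
    refine hyz (hV.inj hmp hx.2.1 hx.2.2 ?_)
    apply mul_right_cancel₀ nx
    linear_combination -hκ' + (L + z) * h0
  · simp only [mem_filter, Prod.mk.injEq] at ht
    have r := h.rel t ht.1
    have e : ((b t + c t : ℤ) : ZMod p) = (b' t + c' t : ℤ) := by rw [(he t ht.1).1]
    rw [ht.2.1] at e
    rw [ht.2.1, ht.2.2.1, ht.2.2.2] at r
    push_cast at e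
    apply mul_right_cancel₀ nz
    linear_combination r - (L + c' t) * hκ' - κ * (L + z) * e

end Pool.Agent.MP_bd74a7_nt
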