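import Pool.Agent.MP_bd74a7_nt.Good

/-!
Covering points of a lattice coset in a box by parallel lines.
-/

open Finset Matrix

namespace Pool.Agent.MP_bd74a7_nt

theorem lines_count (A : (Fin 3 → ℤ) → Prop) (B : Fin 3 → ℕ) (q K : ℕ)
    (hc : ∀ Y : Finset (Fin 3 → ℤ), (∀ y ∈ Y, A y ∧ ∀ k, |y k| ≤ (2 * B k : ℕ)) → Y.card * q ≤ K)
    {g : Fin 3 → ℤ} (hg : g ≠ 0) (hA : ∀ y, A y → ∀ t : ℕ, A (y + (t : ℤ) • g)) {τ : ℕ}
    (hτ : ∀ k, τ * |g k| ≤ B k) (X : Finset (Fin 3 → ℤ)) (hX : ∀ x ∈ X, A x ∧ ∀ k, |x k| ≤ B k) :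
    (X.image (crossProduct g)).card * τ * q ≤ K := by
  classical
  have hr : ∀ l : Fin 3 → ℤ, ∃ x, l ∈ X.image (crossProduct g) → x ∈ X ∧ crossProduct g x = l := by
    intro l
    by_cases hl : l ∈ X.image (crossProduct g)
    · obtain ⟨x, hx, e⟩ := mem_image.1 hl
      exact ⟨x, fun _ => ⟨hx, e⟩⟩
    · exact ⟨0, fun h => absurd h hl⟩
  choose r hr using hr
  have h1 := hc ((X.image (crossProduct g) ×ˢ range τ).image fun z => r z.1 + (z.2 : ℤ) • g) (by
    intro y hy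
    obtain ⟨⟨l, t⟩, hz, rfl⟩ := mem_image.1 hy
    simp only [mem_product, mem_range] at hz
    have h2 := hX _ (hr l hz.1).1
    refine ⟨hA _ h2.1 t, fun k => ?_⟩
    simp only [Pi.add_apply, Pi.smul_apply, smul_eq_mul]
    refine (abs_add_le _ _).trans ?_
    rw [abs_mul, Nat.abs_cast]
    have h3 : (t : ℤ) * |g k| ≤ τ * |g k| := by
      have : (t : ℤ) ≤ τ := by exact_mod_cast hz.2.le
      gcongr
    push_cast
    linarith [h2.2 k, hτ k])
  rw [card_image_of_injOn, card_product, card_range] at h1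
  · exact h1
  rintro ⟨l, t⟩ hz ⟨l', t'⟩ hz' e
  simp only [coe_product, Set.mem_prod, mem_coe] at hz hz'
  have e1 := congrArg (crossProduct g) e
  simp only [map_add, map_smul, cross_self, smul_zero, add_zero, (hr l hz.1).2,
    (hr l' hz'.1).2] at e1
  subst e1
  simp only [add_right_inj] at e
  have e2 : (t : ℤ) = t' := smul_left_injective ℤ hg e
  rw [Nat.cast_inj.1 e2]

theorem short_vec {β : Type*} (ψ : (Fin 3 → ℤ) → β) (S : Finset β) (C : Fin 3 → ℕ)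
    (hψ : ∀ x : Fin 3 → ℤ, (∀ k, 0 ≤ x k ∧ x k ≤ C k) → ψ x ∈ S)
    (hcard : S.card < ∏ k, (C k + 1)) :
    ∃ x x' : Fin 3 → ℤ, x - x' ≠ 0 ∧ ψ x = ψ x' ∧ ∀ k, |(x - x') k| ≤ C k := by
  classical
  obtain ⟨x, hx, x', hx', hne, he⟩ := exists_ne_map_eq_of_card_lt_of_maps_to
    (s := Fintype.piFinset fun k => Icc (0 : ℤ) (C k)) (t := S) (f := ψ) (by
      rw [Fintype.card_piFinset]
      refine hcard.trans_le (le_of_eq (prod_congr rfl fun k _ => ?_))
      rw [Int.card_Icc]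
      omega) (fun x hx => hψ x fun k => by
      simpa using Fintype.mem_piFinset.1 (mem_coe.1 hx) k)
  refine ⟨x, x', sub_ne_zero.2 hne, he, fun k => ?_⟩
  have h1 := mem_Icc.1 (Fintype.mem_piFinset.1 hx k)
  have h2 := mem_Icc.1 (Fintype.mem_piFinset.1 hx' k)
  rw [Pi.sub_apply, abs_le]
  constructor <;> linarith [h1.1, h1.2, h2.1, h2.2]

theorem exists_root (a c k : ℕ) (ha : 1 ≤ a) (hk : 1 ≤ k) :
    ∃ τ, τ ^ k * a ≤ c ∧ c < (τ + 1) ^ k * a := by
  classical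
  have hex : ∃ τ, c < (τ + 1) ^ k * a :=
    ⟨c, by nlinarith [Nat.le_self_pow (show k ≠ 0 by omega) (c + 1)]⟩
  refine ⟨Nat.find hex, ?_, Nat.find_spec hex⟩
  rcases Nat.eq_zero_or_pos (Nat.find hex) with h | h
  · rw [h, zero_pow (by omega), zero_mul]
    exact Nat.zero_le _
  · have := Nat.find_min hex (m := Nat.find hex - 1) (by omega)
    rw [Nat.sub_add_cancel h] at this
    omega

theorem prod_div_gt (B : Fin 3 → ℕ) {τ : ℕ} (hτ : 1 ≤ τ) :
    ∏ k, B k < τ ^ 3 * ∏ k, (B k / τ + 1) := by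
  have h : ∀ k, B k < τ * (B k / τ + 1) := fun k => Nat.lt_mul_div_succ _ hτ
  rw [Fin.prod_univ_three, Fin.prod_univ_three]
  calc B 0 * B 1 * B 2 < (τ * (B 0 / τ + 1)) * (τ * (B 1 / τ + 1)) * (τ * (B 2 / τ + 1)) :=
        Nat.mul_lt_mul'' (Nat.mul_lt_mul'' (h 0) (h 1)) (h 2)
    _ = _ := by ring

theorem mul_le_of_le_div {τ b : ℕ} {x : ℤ} (h : |x| ≤ (b / τ : ℕ)) : τ * |x| ≤ b := by
  have h1 : ((b / τ * τ : ℕ) : ℤ) ≤ b := by exact_mod_cast Nat.div_mul_le_self b τ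
  rw [Nat.cast_mul] at h1
  have h2 : (τ : ℤ) * |x| ≤ τ * (b / τ : ℕ) := by gcongr
  linarith

theorem exists_prim {N : Fin 3 → ℤ} (hN : N ≠ 0) :
    ∃ (h : ℤ) (n e : Fin 3 → ℤ), h ≠ 0 ∧ N = h • n ∧ e ⬝ᵥ n = 1 := by
  set g1 : ℤ := ((Int.gcd (N 0) (N 1) : ℕ) : ℤ) with hg1
  set h : ℤ := ((Int.gcd g1 (N 2) : ℕ) : ℤ) with hh
  have d0 : h ∣ N 0 := (Int.gcd_dvd_left _ _).trans (Int.gcd_dvd_left _ _)
  have d1 : h ∣ N 1 := (Int.gcd_dvd_left _ _).trans (Int.gcd_dvd_right _ _)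
  have d2 : h ∣ N 2 := Int.gcd_dvd_right _ _
  obtain ⟨n0, e0⟩ := d0
  obtain ⟨n1, e1⟩ := d1
  obtain ⟨n2, e2⟩ := d2
  have h0 : h ≠ 0 := by
    intro h0
    apply hN
    funext k
    fin_cases k <;> simp [e0, e1, e2, h0]
  have b1 := Int.gcd_eq_gcd_ab (N 0) (N 1)
  have b2 := Int.gcd_eq_gcd_ab g1 (N 2)
  rw [← hg1] at b1
  rw [← hh] at b2
  refine ⟨h, ![n0, n1, n2], ![Int.gcdA (N 0) (N 1) * Int.gcdA g1 (N 2),
    Int.gcdB (N 0) (N 1) * Int.gcdA g1 (N 2), Int.gcdB g1 (N 2)], h0, ?_, ?_⟩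
  · funext k
    fin_cases k <;> simp [e0, e1, e2]
  · apply mul_left_cancel₀ h0
    simp only [dotProduct, Fin.sum_univ_three, cons_val_zero, cons_val_one, cons_val_two,
      Nat.succ_eq_add_one, Nat.reduceAdd, tail_cons, head_cons]
    generalize Int.gcdA (N 0) (N 1) = u at *
    generalize Int.gcdB (N 0) (N 1) = v at *
    generalize Int.gcdA g1 (N 2) = u' at *
    generalize Int.gcdB g1 (N 2) = v' at *
    linear_combination -b2 - u' * b1 - u * u' * e0 - v * u' * e1 - v' * e2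

/-- The linear form attached to a vector of residues. -/
def lf {q : ℕ} (a : Fin 3 → ZMod q) : (Fin 3 → ℤ) →+ ZMod q where
  toFun x := a 0 * x 0 + a 1 * x 1 + a 2 * x 2
  map_zero' := by simp
  map_add' x y := by
    simp only [Pi.add_apply, Int.cast_add]
    ring

theorem lf_apply {q : ℕ} (a : Fin 3 → ZMod q) (x : Fin 3 → ℤ) :
    lf a x = a 0 * x 0 + a 1 * x 1 + a 2 * x 2 := rfl

theorem count3 {q : ℕ} [NeZero q] (a : Fin 3 → ZMod q) (ha : Function.Surjective (lf a))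
    (B : Fin 3 → ℕ) (hB : ∀ k, 1 ≤ B k) {u v w : Fin 3 → ℤ} (hdet : u ⬝ᵥ crossProduct v w ≠ 0)
    (hu : lf a u = 0 ∧ ∀ k, |u k| ≤ B k) (hv : lf a v = 0 ∧ ∀ k, |v k| ≤ B k)
    (hw : lf a w = 0 ∧ ∀ k, |w k| ≤ B k) (c : ZMod q) (Y : Finset (Fin 3 → ℤ))
    (hY : ∀ y ∈ Y, lf a y = c ∧ ∀ k, |y k| ≤ (3 * B k : ℕ)) :
    Y.card * q ≤ 2197 * ∏ k, B k := by
  have h := count (lf a) ha (Matrix.of ![u, v, w])ᵀ (by
    rw [det_transpose]
    rwa [triple_product_eq_det] at hdet) B (fun k => 3 * B k) (by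
    intro k i
    fin_cases i
    · exact hu.2 k
    · exact hv.2 k
    · exact hw.2 k) (by
    intro i
    fin_cases i
    · exact hu.1
    · exact hv.1
    · exact hw.1) Y c hY
  refine h.trans ?_
  rw [Fin.prod_univ_three, Fin.prod_univ_three]
  have h0 := hB 0
  have h1 := hB 1
  have h2 := hB 2
  calc _ ≤ (13 * B 0) * (13 * B 1) * (13 * B 2) := by
        gcongr <;> omega
    _ = _ := by ring

theorem plane_count (B : Fin 3 → ℕ) (hB : ∀ k, 1 ≤ B k) {n e v w : Fin 3 → ℤ} {h : ℤ}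
    (hh : h ≠ 0) (hn : crossProduct v w = h • n) (he : e ⬝ᵥ n = 1) (hv : ∀ k, |v k| ≤ B k)
    (hw : ∀ k, |w k| ≤ B k) (c : ℤ) (k : Fin 3) (Y : Finset (Fin 3 → ℤ))
    (hY : ∀ y ∈ Y, n ⬝ᵥ y = c ∧ ∀ k, |y k| ≤ (2 * B k : ℕ)) :
    Y.card * ((n k).natAbs * B k) ≤ 2197 * ∏ k, B k := by
  classical
  by_cases hk : n k = 0
  · simp [hk]
  have : NeZero (n k).natAbs := ⟨Int.natAbs_ne_zero.2 hk⟩
  have hlf : ∀ y, lf (fun i => (n i : ZMod (n k).natAbs)) y = ((n ⬝ᵥ y : ℤ) : ZMod _) := by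
    intro y
    simp [lf_apply, dotProduct, Fin.sum_univ_three]
  have hv0 : n ⬝ᵥ v = 0 := by
    have := dot_self_cross v w
    rw [hn, dotProduct_smul, smul_eq_mul, dotProduct_comm] at this
    exact (mul_eq_zero.1 this).resolve_left hh
  have hw0 : n ⬝ᵥ w = 0 := by
    have := dot_cross_self v w
    rw [hn, dotProduct_smul, smul_eq_mul, dotProduct_comm] at this
    exact (mul_eq_zero.1 this).resolve_left hh
  have h1 := count3 (fun i => (n i : ZMod (n k).natAbs)) (by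
      intro r
      obtain ⟨z, rfl⟩ := ZMod.intCast_surjective r
      exact ⟨z • e, by rw [hlf, dotProduct_smul, dotProduct_comm, he, smul_eq_mul, mul_one]⟩)
    B hB (u := Pi.single k 1) (v := v) (w := w) (by
      rw [hn, single_dotProduct, one_mul]
      exact mul_ne_zero hh hk)
    ⟨by rw [hlf, dotProduct_single, mul_one, ZMod.intCast_zmod_eq_zero_iff_dvd]; simp, fun i => by
      by_cases hi : i = k
      · subst hi
        simpa using hB i
      · simp [hi]⟩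
    ⟨by rw [hlf, hv0, Int.cast_zero], hv⟩ ⟨by rw [hlf, hw0, Int.cast_zero], hw⟩ c
    ((Y ×ˢ range (B k)).image fun z => z.1 + (z.2 : ℤ) • Pi.single k 1) (by
      intro y hy
      obtain ⟨⟨y, t⟩, hz, rfl⟩ := mem_image.1 hy
      simp only [mem_product, mem_range] at hz
      refine ⟨?_, fun i => ?_⟩
      · rw [hlf, dotProduct_add, dotProduct_smul, dotProduct_single, (hY y hz.1).1]
        have : ((n k : ℤ) : ZMod (n k).natAbs) = 0 := by
          rw [ZMod.intCast_zmod_eq_zero_iff_dvd]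
          simp
        simp [this]
      · have h2 := (hY y hz.1).2 i
        have h3 : (t : ℤ) ≤ B k := by exact_mod_cast hz.2.le
        by_cases hi : i = k
        · subst hi
          simp only [Pi.add_apply, Pi.smul_apply, Pi.single_eq_same, smul_eq_mul, mul_one]
          refine (abs_add_le _ _).trans ?_
          rw [Nat.abs_cast]
          push_cast at h2 ⊢
          linarith
        · simp only [Pi.add_apply, Pi.smul_apply, Pi.single_eq_of_ne hi, smul_zero, add_zero]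
          push_cast at h2 ⊢
          have : (0 : ℤ) ≤ B i := Nat.cast_nonneg _
          linarith)
  rw [card_image_of_injOn, card_product, card_range] at h1
  · calc _ = Y.card * B k * (n k).natAbs := by ring
      _ ≤ _ := h1
  rintro ⟨y, t⟩ hz ⟨y', t'⟩ hz' e
  simp only [coe_product, Set.mem_prod, mem_coe] at hz hz'
  have e1 := congrArg (fun z => n ⬝ᵥ z) e
  simp only [dotProduct_add, dotProduct_smul, dotProduct_single, (hY y hz.1).1, (hY y' hz'.1).1,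
    smul_eq_mul, mul_one, add_right_inj] at e1
  have e2 : t = t' := Nat.cast_inj.1 (mul_right_cancel₀ hk e1)
  subst e2
  simp only [add_left_inj] at e
  rw [e]

end Pool.Agent.MP_bd74a7_nt
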