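import Pool.Agent.Mg.Fbd74a7.G9f9525

/-!
Points of an exponential curve modulo `p` in a box of side `M < √p`.
-/

open Finset

namespace Pool.Agent.Results.MP_bd74a7_nt.FourSevenths

theorem result (ε : ℝ) (hε : 0 < ε) :
    ∃ C : ℝ, 0 < C ∧ ∀ (p : ℕ) [Fact p.Prime] (g : ℕ) (a K L : ℤ) (M : ℕ),
      2 ≤ g → ¬ (p : ℤ) ∣ a → 1 ≤ M → M < orderOf (g : ZMod p) → (M : ℝ) < √p →
      ((((Icc (K + 1) (K + M) ×ˢ Icc (L + 1) (L + M)).filter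
        fun xy : ℤ × ℤ => (xy.2 : ZMod p) = a * (g : ZMod p) ^ xy.1).card : ℕ) : ℝ) ≤
        C * (M : ℝ) ^ ε *
          ((M : ℝ) ^ (1 / 2 : ℝ) + (M : ℝ) ^ (6 / 7 : ℝ) * (p : ℝ) ^ (-1 / 7 : ℝ)) := by
  obtain ⟨C, hC, h⟩ := Pool.Agent.MP_bd74a7_nt.boundA ε hε
  exact ⟨C, hC, fun p _ g a K L M _ ha hM ht hp => h p g a K L M ha hM ht hp⟩

end Pool.Agent.Results.MP_bd74a7_nt.FourSevenths
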