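import Pool.Agent.MP_bd74a7_nt.Basic

/-!
Multiplicative quadruples in a subset of a short interval modulo `p`.
-/

open Finset

namespace Pool.Agent.MP_bd74a7_nt

theorem eq_zero_of_cast {p : ℕ} {x : ℤ} (h : (x : ZMod p) = 0) (hx : |x| < p) : x = 0 :=
  Int.eq_zero_of_abs_lt_dvd ((ZMod.intCast_zmod_eq_zero_iff_dvd x p).1 h) hx

theorem par_gcd {A A' C C' : ℤ} (h : A * C' = A' * C) (hg : Int.gcd A A' = Int.gcd C C') :
    (A = C ∧ A' = C') ∨ (A = -C ∧ A' = -C') := by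
  by_cases hk : Int.gcd A A' = 0
  · have h1 := Int.gcd_eq_zero_iff.1 hk
    have h2 := Int.gcd_eq_zero_iff.1 (hg ▸ hk)
    left
    omega
  obtain ⟨a, a', hc, ha, ha'⟩ := Int.exists_gcd_one (Nat.pos_of_ne_zero hk)
  obtain ⟨c, c', hc', hb, hb'⟩ := Int.exists_gcd_one (Nat.pos_of_ne_zero (hg ▸ hk))
  rw [← hg] at hb hb'
  set k : ℤ := (Int.gcd A A' : ℤ) with hkk
  have hk0 : k ≠ 0 := by rw [hkk]; exact_mod_cast hk
  have h1 : a * c' = a' * c := by
    have : k * k * (a * c') = k * k * (a' * c) := by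
      rw [ha, ha', hb, hb'] at h
      linear_combination h
    exact mul_left_cancel₀ (mul_ne_zero hk0 hk0) this
  obtain ⟨x, y, hxy⟩ := Int.isCoprime_iff_gcd_eq_one.2 hc
  obtain ⟨x', y', hxy'⟩ := Int.isCoprime_iff_gcd_eq_one.2 hc'
  have e1 : c = a * (x * c + y * c') := by linear_combination (-c) * hxy - y * h1
  have e2 : c' = a' * (x * c + y * c') := by linear_combination (-c') * hxy + x * h1
  have e3 : (x * c + y * c') * (x' * a + y' * a') = 1 := by
    linear_combination hxy' - x' * e1 - y' * e2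
  rcases Int.eq_one_or_neg_one_of_mul_eq_one e3 with e | e
  · rw [e] at e1 e2
    left
    rw [ha, ha', hb, hb', e1, e2]
    constructor <;> ring
  · rw [e] at e1 e2
    right
    rw [ha, ha', hb, hb', e1, e2]
    constructor <;> ring

theorem decomp {A B γ : ℤ} {κ : ℕ} (hκ : 1 ≤ κ) (hk : κ ≤ Int.gcd A γ) (ht : κ ≤ Int.gcd B γ) :
    ∃ (s d u : ℕ) (g n : ℤ), 1 ≤ s ∧ γ = s * g ∧ A * B = s * n ∧ s = d * u ∧ (d : ℤ) ∣ n ∧
      u * κ ^ 2 ≤ s ^ 2 := by
  set k := Int.gcd A γ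
  set t := Int.gcd B γ
  have hs : 0 < Nat.lcm k t := Nat.lcm_pos (by omega) (by omega)
  obtain ⟨u, hu⟩ : Nat.gcd k t ∣ Nat.lcm k t := (Nat.gcd_dvd_left k t).trans (Nat.dvd_lcm_left k t)
  obtain ⟨g, hg⟩ : ((Nat.lcm k t : ℕ) : ℤ) ∣ γ := by
    rw [Int.natCast_dvd]
    exact Nat.lcm_dvd (Int.natCast_dvd.1 (Int.gcd_dvd_right A γ))
      (Int.natCast_dvd.1 (Int.gcd_dvd_right B γ))
  obtain ⟨A1, hA⟩ : (k : ℤ) ∣ A := Int.gcd_dvd_left A γ
  obtain ⟨B1, hB⟩ : (t : ℤ) ∣ B := Int.gcd_dvd_left B γ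
  have h1 := Nat.gcd_mul_lcm k t
  have h2 : ((Nat.gcd k t : ℕ) : ℤ) * (Nat.lcm k t : ℕ) = k * t := by exact_mod_cast h1
  refine ⟨Nat.lcm k t, Nat.gcd k t, u, g, Nat.gcd k t * (A1 * B1), hs, hg, ?_, hu,
    dvd_mul_right _ _, ?_⟩
  · rw [hA, hB]
    linear_combination (-(A1 * B1)) * h2
  · calc u * κ ^ 2 ≤ u * (k * t) := by
          rw [sq]
          gcongr
      _ = u * Nat.gcd k t * Nat.lcm k t := by rw [← h1]; ring
      _ = _ := by rw [mul_comm u, ← hu, sq]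

/-- A family of multiplicative quadruples with entries in `V`. -/
structure Quad (p : ℕ) (V : Finset ℤ) {ι : Type*} (T : Finset ι) (v0 v1 v2 v3 : ι → ℤ) :
    Prop where
  m0 : ∀ a ∈ T, v0 a ∈ V
  m1 : ∀ a ∈ T, v1 a ∈ V
  m2 : ∀ a ∈ T, v2 a ∈ V
  m3 : ∀ a ∈ T, v3 a ∈ V
  rel : ∀ a ∈ T, (v0 a : ZMod p) * v3 a = v1 a * v2 a
  inj : ∀ a ∈ T, ∀ b ∈ T, v0 a = v0 b → v1 a = v1 b → v2 a = v2 b → v3 a = v3 b → a = b

/-- A set of nonzero residues inside an interval of length `m`. -/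
structure Short (p : ℕ) (V : Finset ℤ) (m : ℕ) : Prop where
  diam : ∀ v ∈ V, ∀ w ∈ V, |v - w| ≤ m
  nz : ∀ v ∈ V, (v : ZMod p) ≠ 0

variable {p m : ℕ} {V : Finset ℤ} {ι : Type*} {T : Finset ι} {v0 v1 v2 v3 : ι → ℤ}

theorem Quad.mono (h : Quad p V T v0 v1 v2 v3) {T' : Finset ι} (hT : T' ⊆ T) :
    Quad p V T' v0 v1 v2 v3 :=
  ⟨fun a ha => h.m0 a (hT ha), fun a ha => h.m1 a (hT ha), fun a ha => h.m2 a (hT ha),
    fun a ha => h.m3 a (hT ha), fun a ha => h.rel a (hT ha),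
    fun a ha b hb => h.inj a (hT ha) b (hT hb)⟩

theorem Quad.swap (h : Quad p V T v0 v1 v2 v3) : Quad p V T v0 v2 v1 v3 :=
  ⟨h.m0, h.m2, h.m1, h.m3, fun a ha => by rw [h.rel a ha, mul_comm],
    fun a ha b hb h0 h2 h1 h3 => h.inj a ha b hb h0 h1 h2 h3⟩

theorem Quad.bad [Fact p.Prime] (h : Quad p V T v0 v1 v2 v3) (hV : Short p V m)
    (hp : 2 * m ^ 2 < p) {κ : ℕ}
    (hk : ∀ a ∈ T, Int.gcd (v1 a - v0 a) (v3 a - v1 a - v2 a + v0 a) < κ) :
    T.card ≤ 2 * κ * V.card ^ 2 := by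
  classical
  have h2 : T.card ≤ ((V ×ˢ V) ×ˢ (range κ ×ˢ (univ : Finset Bool))).card := by
    refine card_le_card_of_injOn (fun a => ((v0 a, v2 a),
      (Int.gcd (v1 a - v0 a) (v3 a - v1 a - v2 a + v0 a),
        decide (0 < v1 a - v0 a ∨ (v1 a - v0 a = 0 ∧ 0 < v3 a - v2 a))))) ?_ ?_
    · intro a ha
      simp only [coe_product, coe_univ, Set.mem_prod, Set.mem_univ, and_true, mem_coe, mem_range]
      exact ⟨⟨h.m0 a ha, h.m2 a ha⟩, hk a ha⟩
    · intro a ha b hb hab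
      simp only [Prod.mk.injEq, decide_eq_decide] at hab
      obtain ⟨⟨e0, e2⟩, eg, es⟩ := hab
      have g1 : ∀ a, Int.gcd (v1 a - v0 a) (v3 a - v1 a - v2 a + v0 a) =
          Int.gcd (v1 a - v0 a) (v3 a - v2 a) := by
        intro a
        rw [← Int.gcd_add_self_right]
        congr 1
        ring
      rw [g1, g1] at eg
      have hdet : (v1 a - v0 a) * (v3 b - v2 b) - (v3 a - v2 a) * (v1 b - v0 b) = 0 := by
        apply eq_zero_of_cast (p := p)
        · have r1 := h.rel a ha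
          have r2 := h.rel b hb
          rw [← e0, ← e2] at r2
          apply mul_left_cancel₀ (hV.nz _ (h.m0 a ha))
          rw [← e0, ← e2]
          push_cast
          linear_combination ((v1 a : ZMod p) - v0 a) * r2 - ((v1 b : ZMod p) - v0 a) * r1
        · have d1 := hV.diam _ (h.m1 a ha) _ (h.m0 a ha)
          have d2 := hV.diam _ (h.m3 b hb) _ (h.m2 b hb)
          have d3 := hV.diam _ (h.m3 a ha) _ (h.m2 a ha)
          have d4 := hV.diam _ (h.m1 b hb) _ (h.m0 b hb)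
          have hp' : 2 * (m : ℤ) ^ 2 < p := by exact_mod_cast hp
          refine (abs_sub _ _).trans_lt ?_
          rw [abs_mul, abs_mul]
          have i1 := mul_le_mul d1 d2 (abs_nonneg _) (by positivity)
          have i2 := mul_le_mul d3 d4 (abs_nonneg _) (by positivity)
          nlinarith
      rcases par_gcd (sub_eq_zero.1 hdet) eg with ⟨f1, f2⟩ | ⟨f1, f2⟩
      · exact h.inj a ha b hb e0 (by omega) e2 (by omega)
      · exact h.inj a ha b hb e0 (by omega) e2 (by omega)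
  rw [card_product, card_product, card_product, card_range, card_univ, Fintype.card_bool] at h2
  refine h2.trans (le_of_eq ?_)
  ring

theorem Quad.col [Fact p.Prime] (h : Quad p V T v0 v1 v2 v3) (hV : Short p V m) {w g0 n0 : ℤ}
    (hw : ∀ a ∈ T, v0 a = w) (hg : (g0 : ZMod p) ≠ 0) (hn : (n0 : ZMod p) = w * g0)
    (hg0 : |g0| ≤ 2 * m) (hn0 : |n0| ≤ m ^ 2)
    (hc : ∀ a ∈ T, (v3 a - v1 a - v2 a + v0 a) * n0 = (v1 a - v0 a) * (v2 a - v0 a) * g0) :
    T.card ≤ 2 * Dm (3 * m ^ 4) * V.card := by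
  classical
  refine card_le_mul_card_image_of_maps_to h.m3 _ fun v _ => ?_
  have hg' : g0 ≠ 0 := by
    rintro rfl
    simp at hg
  have key : ∀ a ∈ T, (n0 + g0 * (v1 a - w)) * (n0 + g0 * (v2 a - w)) =
      n0 * (n0 + g0 * (v3 a - w)) := by
    intro a ha
    have := hc a ha
    rw [hw a ha] at this
    linear_combination (-g0) * this
  have nz : ∀ x ∈ V, n0 + g0 * (x - w) ≠ 0 := by
    intro x hx h0
    have h1 : ((n0 + g0 * (x - w) : ℤ) : ZMod p) = g0 * x := by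
      push_cast
      rw [hn]
      ring
    rw [h0, Int.cast_zero] at h1
    exact mul_ne_zero hg (hV.nz x hx) h1.symm
  refine card_le_of_dvd _ (fun a => n0 + g0 * (v1 a - w)) (n0 * (n0 + g0 * (v - w))) _ ?_ ?_
  · intro a ha b hb hab
    rw [mem_filter] at ha hb
    have e1 : v1 a = v1 b := by
      have : g0 * v1 a = g0 * v1 b := by linear_combination hab
      exact mul_left_cancel₀ hg' this
    have e2 : v2 a = v2 b := by
      have k1 := key a ha.1
      have k2 := key b hb.1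
      rw [ha.2] at k1
      rw [hb.2, ← e1, ← k1] at k2
      have k3 := mul_left_cancel₀ (nz _ (h.m1 a ha.1)) k2
      have : g0 * v2 a = g0 * v2 b := by linear_combination -k3
      exact mul_left_cancel₀ hg' this
    exact h.inj a ha.1 b hb.1 (by rw [hw a ha.1, hw b hb.1]) e1 e2 (by rw [ha.2, hb.2])
  · intro a ha
    rw [mem_filter] at ha
    have k1 := key a ha.1
    rw [ha.2] at k1
    refine ⟨⟨_, k1.symm⟩, ?_, ?_⟩
    · rw [← k1]
      exact mul_ne_zero (nz _ (h.m1 a ha.1)) (nz _ (h.m2 a ha.1))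
    · have d1 : |v - w| ≤ m := by
        rw [← ha.2, ← hw a ha.1]
        exact hV.diam _ (h.m3 a ha.1) _ (h.m0 a ha.1)
      have d2 : |n0 + g0 * (v - w)| ≤ 3 * m ^ 2 := by
        refine (abs_add_le _ _).trans ?_
        rw [abs_mul]
        have := mul_le_mul hg0 d1 (abs_nonneg _) (by positivity)
        nlinarith
      rw [abs_mul]
      have := mul_le_mul hn0 d2 (abs_nonneg _) (by positivity)
      push_cast
      nlinarith

theorem Quad.fib (h : Quad p V T v0 v1 v2 v3) (hV : Short p V m) {w g n : ℤ} {U : ℕ}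
    (hw : ∀ a ∈ T, v0 a = w) (hn : n ≠ 0) (hn0 : |n| ≤ m ^ 2) (d u : ι → ℕ)
    (hγ : ∀ a ∈ T, v3 a - v1 a - v2 a + v0 a = (d a * u a : ℕ) * g)
    (hAB : ∀ a ∈ T, (v1 a - v0 a) * (v2 a - v0 a) = (d a * u a : ℕ) * n)
    (hd : ∀ a ∈ T, (d a : ℤ) ∣ n) (hu : ∀ a ∈ T, 1 ≤ d a * u a ∧ u a ≤ U) :
    T.card ≤ 2 * Dm (m ^ 2) * (Dm (m ^ 2) * U) := by
  classical
  have h1 : n.natAbs ≤ m ^ 2 := by
    rw [Int.abs_eq_natAbs] at hn0
    exact_mod_cast hn0
  have h2 : T.card ≤ 2 * Dm (m ^ 2) * (n.natAbs.divisors ×ˢ Icc 1 U).card := by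
    refine card_le_mul_card_image_of_maps_to (f := fun a => (d a, u a)) ?_ _ ?_
    · intro a ha
      simp only [mem_product, Nat.mem_divisors, mem_Icc]
      refine ⟨⟨Int.natCast_dvd.1 (hd a ha), Int.natAbs_ne_zero.2 hn⟩, ?_, (hu a ha).2⟩
      exact Nat.pos_of_mul_pos_left (hu a ha).1
    · rintro ⟨d0, u0⟩ _
      refine card_le_of_dvd _ (fun a => v1 a - v0 a) ((d0 * u0 : ℕ) * n) _ ?_ ?_
      · intro a ha b hb hab
        simp only [mem_filter, Prod.mk.injEq] at ha hb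
        have k1 := hAB a ha.1
        have k2 := hAB b hb.1
        have k3 := hγ a ha.1
        have k4 := hγ b hb.1
        have k5 := (hu a ha.1).1
        rw [ha.2.1, ha.2.2] at k1 k3 k5
        rw [hb.2.1, hb.2.2] at k2 k4
        have k6 : v1 a - v0 a ≠ 0 := by
          intro h0
          rw [h0, zero_mul] at k1
          exact mul_ne_zero (by exact_mod_cast (Nat.pos_iff_ne_zero.1 k5)) hn k1.symm
        rw [← hab, ← k1] at k2
        have k7 := mul_left_cancel₀ k6 k2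
        have e0 : v0 a = v0 b := by rw [hw a ha.1, hw b hb.1]
        exact h.inj a ha.1 b hb.1 e0 (by omega) (by omega) (by omega)
      · intro a ha
        simp only [mem_filter, Prod.mk.injEq] at ha
        have k1 := hAB a ha.1
        have k5 := (hu a ha.1).1
        rw [ha.2.1, ha.2.2] at k1 k5
        refine ⟨⟨_, k1.symm⟩, mul_ne_zero (by exact_mod_cast (Nat.pos_iff_ne_zero.1 k5)) hn, ?_⟩
        rw [← k1, abs_mul]
        have := mul_le_mul (hV.diam _ (h.m1 a ha.1) _ (h.m0 a ha.1))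
          (hV.diam _ (h.m2 a ha.1) _ (h.m0 a ha.1)) (abs_nonneg _) (by positivity)
        push_cast
        nlinarith
  rw [card_product, Nat.card_Icc, Nat.add_sub_cancel] at h2
  refine h2.trans ?_
  have := card_divisors_le h1
  gcongr

end Pool.Agent.MP_bd74a7_nt
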