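import Pool.Agent.MP_bd74a7_nt.Unstr

/-!
Quotients whose representations lie in a plane with a small normal vector.
-/

open Finset Matrix

namespace Pool.Agent.MP_bd74a7_nt

theorem card_mul_le_of_fib {α β : Type*} [DecidableEq β] {s : Finset α} {t : Finset β} {f : α → β}
    (hf : ∀ a ∈ s, f a ∈ t) {q K : ℕ} (h : ∀ b ∈ t, (s.filter fun a => f a = b).card * q ≤ K) :
    s.card * q ≤ t.card * K := by
  rw [card_eq_sum_card_fiberwise hf, sum_mul]
  exact (sum_le_card_nsmul _ _ K h).trans (by rw [smul_eq_mul])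

theorem dich {ι : Type*} {q : ℕ} [NeZero q] (w : ZMod q) (T : Finset ι) (x y : ι → ℤ) (b1 b2 : ℕ)
    (h : ∀ t ∈ T, x t ≠ 0 ∧ y t ≠ 0 ∧ (y t : ZMod q) = w * x t ∧ |x t| ≤ b1 ∧ |y t| ≤ b2) :
    (T.image fun t => (x t, y t)).card * q ≤ 49 * b1 * b2 ∨
      ∀ s ∈ T, ∀ t ∈ T, x s * y t = x t * y s := by
  by_cases hc : ∀ s ∈ T, ∀ t ∈ T, x s * y t = x t * y s
  · exact Or.inr hc
  left
  push Not at hc
  obtain ⟨s, hs, t, ht, hne⟩ := hc
  have h1 := count2 w 0 (T.image fun t => (x t, y t)) b1 b2 b1 b2 (fun P hP => by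
    obtain ⟨c, hc, rfl⟩ := mem_image.1 hP
    exact ⟨sub_eq_zero.2 (h c hc).2.2.1, (h c hc).2.2.2⟩) (P := (x s, y s)) (Q := (x t, y t))
    (h s hs).2.2 (h t ht).2.2 hne
  have h2 : 1 ≤ b1 := by exact_mod_cast (Int.one_le_abs (h s hs).1).trans (h s hs).2.2.2.1
  have h3 : 1 ≤ b2 := by exact_mod_cast (Int.one_le_abs (h s hs).2.1).trans (h s hs).2.2.2.2
  calc _ ≤ (7 * b1) * (7 * b2) := h1.trans (Nat.mul_le_mul (by omega) (by omega))
    _ = _ := by ring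

theorem col_card {ι : Type*} (T : Finset ι) (x y : ι → ℤ) (b2 : ℕ)
    (h : ∀ t ∈ T, y t ≠ 0 ∧ |y t| ≤ b2) (hc : ∀ s ∈ T, ∀ t ∈ T, x s * y t = x t * y s) :
    (T.image fun t => (x t, y t)).card ≤ 3 * b2 := by
  rcases T.eq_empty_or_nonempty with rfl | ⟨t0, ht0⟩
  · simp
  have h3 : 1 ≤ b2 := by exact_mod_cast (Int.one_le_abs (h t0 ht0).1).trans (h t0 ht0).2
  have h1 : (T.image fun t => (x t, y t)).card ≤ (Icc (-(b2 : ℤ)) b2).card := by
    refine card_le_card_of_injOn Prod.snd (fun P hP => ?_) fun P hP Q hQ e => ?_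
    · obtain ⟨c, hc, rfl⟩ := mem_image.1 hP
      simpa [← abs_le] using (h c hc).2
    · obtain ⟨c, hc', rfl⟩ := mem_image.1 hP
      obtain ⟨d, hd, rfl⟩ := mem_image.1 hQ
      simp only at e
      have := hc c hc' d hd
      rw [e] at this
      rw [mul_right_cancel₀ (h d hd).1 this, e]
  rw [Int.card_Icc] at h1
  omega

theorem col_param {ι : Type*} (T : Finset ι) (x y : ι → ℤ) {t0 : ι} (ht0 : t0 ∈ T)
    (hy : y t0 ≠ 0) (hc : ∀ s ∈ T, ∀ t ∈ T, x s * y t = x t * y s) :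
    ∃ r q : ℤ, IsCoprime r q ∧ q ≠ 0 ∧ ∀ t ∈ T, ∃ u, x t = u * r ∧ y t = u * q := by
  obtain ⟨r, q, hc', hr, hq⟩ := Int.exists_gcd_one (Int.gcd_pos_of_ne_zero_right (x t0) hy)
  set g : ℤ := ((Int.gcd (x t0) (y t0) : ℕ) : ℤ)
  have hg : g ≠ 0 := fun h0 => hy (by rw [hq, h0, mul_zero])
  have hq0 : q ≠ 0 := fun h0 => hy (by rw [hq, h0, zero_mul])
  obtain ⟨a, b, hab⟩ := Int.isCoprime_iff_gcd_eq_one.2 hc'
  refine ⟨r, q, ⟨a, b, hab⟩, hq0, fun t ht => ⟨a * x t + b * y t, ?_, ?_⟩⟩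
  all_goals
    have h1 := hc t0 ht0 t ht
    rw [hr, hq] at h1
    have h2 : r * y t = x t * q := mul_right_cancel₀ hg (by linear_combination h1)
  · linear_combination (-x t) * hab - b * h2
  · linear_combination (-y t) * hab + a * h2

theorem short_or {j x y u r : ℤ} {T : ℕ} (h : j * (x * y) = u * r) (hj : j ≠ 0) (hx : x ≠ 0)
    (hy : y ≠ 0) (hu : |u| ≤ T ^ 2) : |x| ≤ T * Int.gcd r x ∨ |y| ≤ T * Int.gcd r y := by
  by_contra hc
  push Not at hc
  have b1 := Int.gcd_eq_gcd_ab r x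
  have b2 := Int.gcd_eq_gcd_ab r y
  have p1 : (0 : ℤ) < Int.gcd r x := by exact_mod_cast Int.gcd_pos_of_ne_zero_right r hx
  have p2 : (0 : ℤ) < Int.gcd r y := by exact_mod_cast Int.gcd_pos_of_ne_zero_right r hy
  generalize ((Int.gcd r x : ℕ) : ℤ) = g1 at *
  generalize ((Int.gcd r y : ℕ) : ℤ) = g2 at *
  have hd : r ∣ j * (g1 * g2) := by
    refine ⟨j * (Int.gcdA r x * g2 + x * Int.gcdB r x * Int.gcdA r y) +
      u * (Int.gcdB r x * Int.gcdB r y), ?_⟩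
    linear_combination j * g2 * b1 + j * x * Int.gcdB r x * b2 + Int.gcdB r x * Int.gcdB r y * h
  have h1 := Int.le_of_dvd (abs_pos.2 (mul_ne_zero hj (mul_pos p1 p2).ne'))
    ((abs_dvd_abs _ _).2 hd)
  rw [abs_mul, abs_of_pos (mul_pos p1 p2)] at h1
  have h2 := congrArg abs h
  rw [abs_mul, abs_mul, abs_mul] at h2
  have h3 : T * g1 * (T * g2) < |x| * |y| :=
    mul_lt_mul'' hc.1 hc.2 (by positivity) (by positivity)
  have h4 : |u| * |r| ≤ T ^ 2 * (|j| * (g1 * g2)) :=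
    mul_le_mul hu h1 (abs_nonneg _) (by positivity)
  have h5 := mul_lt_mul_of_pos_left h3 (abs_pos.2 hj)
  nlinarith

variable {p m : ℕ} [Fact p.Prime] {L : ZMod p} {V : Finset ℤ}

/-- An integral affine model `V0 v + U0` of `L + v`, of size about `ζ` on `V`. -/
structure Cen (p : ℕ) (L : ZMod p) (V : Finset ℤ) (V0 U0 : ℤ) (ζ : ℕ) : Prop where
  v0 : (V0 : ZMod p) ≠ 0
  u0 : (U0 : ZMod p) = V0 * L
  lo : ∀ v ∈ V, ζ ≤ |V0 * v + U0|
  hi : ∀ v ∈ V, |V0 * v + U0| ≤ 2 * ζ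
  pos : 1 ≤ ζ

/-- The data of structured triples. -/
structure Sdat (L : ZMod p) (V : Finset ℤ) (V0 U0 : ℤ) (G : Finset (ℤ × ℤ × ℤ))
    (j W e : ZMod p → ℤ) (j0 μ φ : ℕ) : Prop where
  mem : ∀ t ∈ G, t.1 ∈ V ∧ t.2.1 ∈ V ∧ t.2.2 ∈ V
  jne : ∀ t ∈ G, j (om L t) ≠ 0
  jle : ∀ t ∈ G, |j (om L t)| ≤ j0
  ele : ∀ t ∈ G, |e (om L t)| ≤ μ
  eq : ∀ t ∈ G, ∀ u ∈ Rep L V (om L t), j (om L t) * ((V0 * u.1 + U0) * (V0 * u.2.1 + U0)) +
    W (om L t) * (V0 * u.2.2 + U0) = p * e (om L t)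
  dvd : ∀ t ∈ G, ∀ u ∈ Rep L V (om L t), j (om L t) ∣ t.2.2 - u.2.2
  big : ∀ t ∈ G, φ < ((Rep L V (om L t)).image fun u => u.2.2).card

variable {V0 U0 : ℤ} {ζ j0 μ φ D : ℕ} {G : Finset (ℤ × ℤ × ℤ)} {j W e : ZMod p → ℤ}

theorem Sdat.mono (h : Sdat L V V0 U0 G j W e j0 μ φ) {G' : Finset (ℤ × ℤ × ℤ)} (hG : G' ⊆ G) :
    Sdat L V V0 U0 G' j W e j0 μ φ :=
  ⟨fun t ht => h.mem t (hG ht), fun t ht => h.jne t (hG ht), fun t ht => h.jle t (hG ht),
    fun t ht => h.ele t (hG ht), fun t ht => h.eq t (hG ht), fun t ht => h.dvd t (hG ht),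
    fun t ht => h.big t (hG ht)⟩

theorem Sdat.self (h : Sdat L V V0 U0 G j W e j0 μ φ) {t : ℤ × ℤ × ℤ} (ht : t ∈ G) :
    t ∈ Rep L V (om L t) := mem_Rep.2 ⟨h.mem t ht, rfl⟩

omit [Fact p.Prime] in
theorem Cen.ne (hC : Cen p L V V0 U0 ζ) {v : ℤ} (hv : v ∈ V) : V0 * v + U0 ≠ 0 := by
  intro h0
  have h1 := hC.lo v hv
  have h2 := hC.pos
  rw [h0] at h1
  simp at h1
  omega

theorem Sdat.zero (h : Sdat L V V0 U0 G j W e j0 μ φ) (hC : Cen p L V V0 U0 ζ)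
    (hD : Dm (8 * ζ ^ 3) ≤ D) (h0 : ∀ t ∈ G, e (om L t) = 0) :
    G.card * φ ≤ V.card ^ 3 * (2 * D) := by
  classical
  rw [← card_cube]
  have hV0 : V0 ≠ 0 := fun h0 => hC.v0 (by rw [h0, Int.cast_zero])
  refine card_mul_le_card_mul (fun t u => u.1 = t.1 ∧ u.2.1 = t.2.1 ∧
    u.2.2 ∈ (Rep L V (om L t)).image fun u => u.2.2) (fun t ht => ?_) fun u hu => ?_
  · refine (h.big t ht).le.trans (card_le_card_of_injOn (fun f => (t.1, t.2.1, f))
      (fun f hf => ?_) fun f _ f' _ e => by simpa using e)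
    have hf' := hf
    obtain ⟨u, hu, rfl⟩ := mem_image.1 (mem_coe.1 hf')
    simp only [mem_coe, mem_bipartiteAbove, mem_product, true_and]
    exact ⟨⟨(h.mem t ht).1, (h.mem t ht).2.1, (mem_Rep.1 hu).1.2.2⟩, hf⟩
  · simp only [mem_product] at hu
    refine (card_le_of_dvd _ (fun t => V0 * t.2.2 + U0)
      ((V0 * u.1 + U0) * (V0 * u.2.1 + U0) * (V0 * u.2.2 + U0)) (8 * ζ ^ 3)
      (fun s hs t ht e => ?_) fun t ht => ?_).trans (Nat.mul_le_mul_left 2 hD)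
    · rw [mem_bipartiteBelow] at hs ht
      refine Prod.ext (hs.2.1.symm.trans ht.2.1) (Prod.ext (hs.2.2.1.symm.trans ht.2.2.1) ?_)
      exact mul_left_cancel₀ hV0 (by linear_combination e)
    · rw [mem_bipartiteBelow] at ht
      obtain ⟨ht, e1, e2, e3⟩ := ht
      obtain ⟨t', ht', e4⟩ := mem_image.1 e3
      refine ⟨⟨(V0 * t'.1 + U0) * (V0 * t'.2.1 + U0), ?_⟩, mul_ne_zero (mul_ne_zero (hC.ne hu.1)
        (hC.ne hu.2.1)) (hC.ne hu.2.2), ?_⟩
      · have k1 := h.eq t ht t (h.self ht)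
        have k2 := h.eq t ht t' ht'
        rw [h0 t ht] at k1 k2
        rw [e1, e2, ← e4]
        apply mul_left_cancel₀ (h.jne t ht)
        linear_combination (V0 * t'.2.2 + U0) * k1 - (V0 * t.2.2 + U0) * k2
      · rw [abs_mul, abs_mul]
        have := mul_le_mul (mul_le_mul (hC.hi _ hu.1) (hC.hi _ hu.2.1) (abs_nonneg _)
          (by positivity)) (hC.hi _ hu.2.2) (abs_nonneg _) (by positivity)
        push_cast
        nlinarith

theorem Sdat.jcount (h : Sdat L V V0 U0 G j W e j0 μ φ) (hV : Nrm p L V m) (hD : Dm (m ^ 2) ≤ D)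
    {f : ℤ} (hf : ∀ t ∈ G, t.2.2 = f) :
    (G.image fun t => j (om L t)).card * φ ≤ V.card * (2 * D) := by
  classical
  refine card_mul_le_card_mul (fun i v => v ≠ f ∧ i ∣ f - v ∧ f ∈ V) (fun i hi => ?_)
    fun v hv => ?_
  · obtain ⟨t, ht, rfl⟩ := mem_image.1 hi
    have h1 := h.big t ht
    have h2 := pred_card_le_card_erase (s := (Rep L V (om L t)).image fun u => u.2.2) (a := f)
    refine le_trans (by omega) (h2.trans (card_le_card fun v hv => ?_))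
    rw [mem_erase] at hv
    obtain ⟨u, hu, rfl⟩ := mem_image.1 hv.2
    rw [mem_bipartiteAbove]
    refine ⟨(mem_Rep.1 hu).1.2.2, hv.1, ?_, ?_⟩
    · rw [← hf t ht]
      exact h.dvd t ht u hu
    · rw [← hf t ht]
      exact (h.mem t ht).2.2
  · refine (card_le_of_dvd _ id (f - v) (m ^ 2) (fun s _ t _ e => e) fun i hi => ?_).trans
      (Nat.mul_le_mul_left 2 hD)
    rw [mem_bipartiteBelow] at hi
    refine ⟨hi.2.2.1, sub_ne_zero.2 hi.2.1.symm, ?_⟩
    have h1 := hV.mem _ hv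
    have h2 := hV.mem _ hi.2.2.2
    have h3 : (m : ℤ) ≤ (m ^ 2 : ℕ) := by exact_mod_cast Nat.le_self_pow (by norm_num) m
    rw [abs_le]
    constructor <;> linarith [h1.1, h1.2, h2.1, h2.2]

omit [Fact p.Prime] in
theorem Nrm.abs_mul_le (hV : Nrm p L V m) {b c f : ℤ} (hb : b ∈ V) (hc : c ∈ V) (hf : f ∈ V) :
    |(b - f) * (c - f)| ≤ (m ^ 2 : ℕ) := by
  have h1 := hV.mem _ hb
  have h2 := hV.mem _ hc
  have h3 := hV.mem _ hf
  have h4 : |b - f| ≤ m := by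
    rw [abs_le]
    constructor <;> linarith [h1.1, h1.2, h3.1, h3.2]
  have h5 : |c - f| ≤ m := by
    rw [abs_le]
    constructor <;> linarith [h2.1, h2.2, h3.1, h3.2]
  rw [abs_mul, Nat.cast_pow, sq]
  exact mul_le_mul h4 h5 (abs_nonneg _) (by positivity)

theorem Sdat.cong (h : Sdat L V V0 U0 G j W e j0 μ φ) (hV : Nrm p L V m) (hC : Cen p L V V0 U0 ζ)
    {f : ℤ} (hfV : f ∈ V) (hf : ∀ t ∈ G, t.2.2 = f) :
    ∃ w : ZMod (V0 * f + U0).natAbs, ∀ t ∈ G, (e (om L t) : ZMod (V0 * f + U0).natAbs) =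
      w * (j (om L t) * ((t.1 - f) * (t.2.1 - f)) : ℤ) := by
  have hu : IsUnit (p : ZMod (V0 * f + U0).natAbs) := by
    rw [ZMod.isUnit_iff_coprime, (Fact.out : p.Prime).coprime_iff_not_dvd]
    intro hd
    have h1 : ((V0 * f + U0 : ℤ) : ZMod p) = 0 :=
      (ZMod.intCast_zmod_eq_zero_iff_dvd _ p).2 (Int.natCast_dvd.2 hd)
    push_cast at h1
    rw [hC.u0] at h1
    exact mul_ne_zero hC.v0 (hV.nz f hfV) (by linear_combination h1)
  obtain ⟨i, hi⟩ := hu.exists_left_inv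
  refine ⟨i * V0 ^ 2, fun t ht => ?_⟩
  have h0 : ((V0 * f + U0 : ℤ) : ZMod (V0 * f + U0).natAbs) = 0 := by
    rw [ZMod.intCast_zmod_eq_zero_iff_dvd]
    simp
  have h1 := congrArg (Int.cast : ℤ → ZMod (V0 * f + U0).natAbs) (h.eq t ht t (h.self ht))
  rw [hf t ht] at h1
  generalize e (om L t) = e0 at *
  generalize j (om L t) = j1 at *
  generalize W (om L t) = W0 at *
  generalize (V0 * f + U0).natAbs = q at *
  push_cast at h0 h1 ⊢
  linear_combination (-((e0 : ℤ) : ZMod q)) * hi - i * h1 +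
    i * (((j1 : ℤ) : ZMod q) * (V0 * (t.1 + t.2.1 - f) + U0) + W0) * h0

theorem Sdat.boundII (h : Sdat L V V0 U0 G j W e j0 μ φ) (hV : Nrm p L V m)
    (hC : Cen p L V V0 U0 ζ) (hD : Dm (m ^ 2) ≤ D) {f : ℤ} (hfV : f ∈ V) (hf : ∀ t ∈ G, t.2.2 = f)
    (hne : ∀ t ∈ G, e (om L t) ≠ 0 ∧ t.1 ≠ f ∧ t.2.1 ≠ f) :
    G.card * ζ * φ ≤ 4 * D ^ 2 * V.card * ((49 * m ^ 2 + 3 * ζ) * μ) := by
  classical
  obtain ⟨w, hw⟩ := h.cong hV hC hfV hf
  have : NeZero (V0 * f + U0).natAbs := ⟨Int.natAbs_ne_zero.2 (hC.ne hfV)⟩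
  have hq : ζ ≤ (V0 * f + U0).natAbs := by
    have := hC.lo f hfV
    rw [Int.abs_eq_natAbs] at this
    exact_mod_cast this
  have h1 : G.card * ζ ≤ (G.image fun t => j (om L t)).card *
      (2 * D * ((49 * m ^ 2 + 3 * ζ) * μ)) := by
    refine card_mul_le_of_fib (fun t ht => mem_image_of_mem _ ht) fun i _ => ?_
    set Y := G.filter fun t => j (om L t) = i with hY
    have hYm : ∀ t ∈ Y, t ∈ G ∧ j (om L t) = i := fun t ht => mem_filter.1 ht
    have hx : ∀ t ∈ G, (t.1 - f) * (t.2.1 - f) ≠ 0 := fun t ht =>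
      mul_ne_zero (sub_ne_zero.2 (hne t ht).2.1) (sub_ne_zero.2 (hne t ht).2.2)
    have hb : ∀ t ∈ G, |(t.1 - f) * (t.2.1 - f)| ≤ (m ^ 2 : ℕ) := fun t ht =>
      hV.abs_mul_le (h.mem t ht).1 (h.mem t ht).2.1 hfV
    have h2 : Y.card ≤ 2 * D * (Y.image fun t => ((t.1 - f) * (t.2.1 - f), e (om L t))).card := by
      refine card_le_mul_card_image _ _ fun P _ => ?_
      refine (card_le_of_dvd _ (fun t => t.1 - f) P.1 (m ^ 2) (fun s hs t ht e => ?_)
        fun t ht => ?_).trans (Nat.mul_le_mul_left 2 hD)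
      · rw [mem_filter] at hs ht
        have e1 := congrArg Prod.fst (hs.2.trans ht.2.symm)
        simp only at e e1
        rw [← e] at e1
        have e2 := mul_left_cancel₀ (sub_ne_zero.2 (hne s (hYm s hs.1).1).2.1) e1
        exact Prod.ext (by linarith) (Prod.ext (by linarith)
          (by rw [hf s (hYm s hs.1).1, hf t (hYm t ht.1).1]))
      · rw [mem_filter] at ht
        rw [← ht.2]
        exact ⟨dvd_mul_right _ _, hx t (hYm t ht.1).1, hb t (hYm t ht.1).1⟩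
    have h3 : (Y.image fun t => ((t.1 - f) * (t.2.1 - f), e (om L t))).card * ζ ≤
        (49 * m ^ 2 + 3 * ζ) * μ := by
      rcases dich (w * ((i : ℤ) : ZMod _)) Y (fun t => (t.1 - f) * (t.2.1 - f)) (fun t => e (om L t)) (m ^ 2) μ
        (fun t ht => ⟨hx t (hYm t ht).1, (hne t (hYm t ht).1).1, by
          rw [hw t (hYm t ht).1, (hYm t ht).2]
          push_cast
          ring, hb t (hYm t ht).1, h.ele t (hYm t ht).1⟩) with h4 | h4
      · exact ((Nat.mul_le_mul_left _ hq).trans h4).trans (by nlinarith)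
      · have := col_card Y _ (fun t => e (om L t)) μ
          (fun t ht => ⟨(hne t (hYm t ht).1).1, h.ele t (hYm t ht).1⟩) h4
        exact (Nat.mul_le_mul_right _ this).trans (by nlinarith)
    calc Y.card * ζ ≤ 2 * D * (Y.image fun t => ((t.1 - f) * (t.2.1 - f), e (om L t))).card * ζ :=
          Nat.mul_le_mul_right _ h2
      _ ≤ _ := by rw [mul_assoc]; exact Nat.mul_le_mul_left _ h3
  have h2 := h.jcount hV hD hf
  calc G.card * ζ * φ ≤ (G.image fun t => j (om L t)).card *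
        (2 * D * ((49 * m ^ 2 + 3 * ζ) * μ)) * φ := Nat.mul_le_mul_right _ h1
    _ = (G.image fun t => j (om L t)).card * φ * (2 * D * ((49 * m ^ 2 + 3 * ζ) * μ)) := by ring
    _ ≤ V.card * (2 * D) * (2 * D * ((49 * m ^ 2 + 3 * ζ) * μ)) := Nat.mul_le_mul_right _ h2
    _ = _ := by ring

/-- Short progressions contain few elements of `V`. -/
def FewAP (V : Finset ℤ) (m T B : ℕ) : Prop :=
  ∀ f ∈ V, ∀ r : ℕ, 1 ≤ r → r ≤ m →
    (V.filter fun b => (r : ℤ) ∣ b - f ∧ |b - f| ≤ T * r).card ≤ B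

theorem Sdat.boundI (h : Sdat L V V0 U0 G j W e j0 μ φ) (hV : Nrm p L V m)
    (hC : Cen p L V V0 U0 ζ) (hD : Dm (j0 * m ^ 2) ≤ D) {f : ℤ} (hfV : f ∈ V)
    (hf : ∀ t ∈ G, t.2.2 = f) (hne : ∀ t ∈ G, e (om L t) ≠ 0 ∧ t.1 ≠ f ∧ t.2.1 ≠ f) {T B : ℕ}
    (hT : μ ≤ T ^ 2) (hB : FewAP V m T B) :
    G.card * ζ ≤ 196 * D ^ 2 * (j0 * m ^ 2) * μ ∨ G.card ≤ 2 * D * B * V.card := by
  classical
  obtain ⟨w, hw⟩ := h.cong hV hC hfV hf
  have : NeZero (V0 * f + U0).natAbs := ⟨Int.natAbs_ne_zero.2 (hC.ne hfV)⟩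
  have hq : ζ ≤ (V0 * f + U0).natAbs := by
    have := hC.lo f hfV
    rw [Int.abs_eq_natAbs] at this
    exact_mod_cast this
  have hx : ∀ t ∈ G, j (om L t) * ((t.1 - f) * (t.2.1 - f)) ≠ 0 := fun t ht =>
    mul_ne_zero (h.jne t ht)
      (mul_ne_zero (sub_ne_zero.2 (hne t ht).2.1) (sub_ne_zero.2 (hne t ht).2.2))
  have hb : ∀ t ∈ G, |j (om L t) * ((t.1 - f) * (t.2.1 - f))| ≤ (j0 * m ^ 2 : ℕ) := fun t ht => by
    rw [abs_mul, Nat.cast_mul]
    exact mul_le_mul (h.jle t ht) (hV.abs_mul_le (h.mem t ht).1 (h.mem t ht).2.1 hfV)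
      (abs_nonneg _) (by positivity)
  rcases dich w G (fun t => j (om L t) * ((t.1 - f) * (t.2.1 - f))) (fun t => e (om L t))
    (j0 * m ^ 2) μ (fun t ht => ⟨hx t ht, (hne t ht).1, hw t ht, hb t ht, h.ele t ht⟩) with h4 | h4
  · left
    have h2 : G.card ≤ 2 * D * (2 * D) *
        (G.image fun t => (j (om L t) * ((t.1 - f) * (t.2.1 - f)), e (om L t))).card := by
      refine card_le_mul_card_image _ _ fun P _ => ?_
      set Y := G.filter fun t => (j (om L t) * ((t.1 - f) * (t.2.1 - f)), e (om L t)) = P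
      have hY : ∀ t ∈ Y, t ∈ G ∧ j (om L t) * ((t.1 - f) * (t.2.1 - f)) = P.1 := fun t ht =>
        ⟨(mem_filter.1 ht).1, congrArg Prod.fst (mem_filter.1 ht).2⟩
      have hP : ∀ t ∈ Y, P.1 ≠ 0 ∧ |P.1| ≤ (j0 * m ^ 2 : ℕ) := fun t ht => by
        rw [← (hY t ht).2]
        exact ⟨hx t (hY t ht).1, hb t (hY t ht).1⟩
      refine (card_le_mul_card_image (f := fun t => t.1) Y (2 * D) fun b _ => ?_).trans
        (Nat.mul_le_mul_left _ ?_)
      · refine (card_le_of_dvd _ (fun t => t.2.1 - f) P.1 (j0 * m ^ 2) (fun s hs t ht e => ?_)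
          fun t ht => ?_).trans (Nat.mul_le_mul_left 2 hD)
        · rw [mem_filter] at hs ht
          exact Prod.ext (hs.2.trans ht.2.symm) (Prod.ext (by linarith)
            (by rw [hf s (hY s hs.1).1, hf t (hY t ht.1).1]))
        · rw [mem_filter] at ht
          refine ⟨?_, hP t ht.1⟩
          rw [← (hY t ht.1).2]
          exact (dvd_mul_left _ _).mul_left _
      · refine (card_le_of_dvd _ (fun b => b - f) P.1 (j0 * m ^ 2) (fun s _ t _ e => by linarith)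
          fun b hb => ?_).trans (Nat.mul_le_mul_left 2 hD)
        obtain ⟨t, ht, rfl⟩ := mem_image.1 hb
        refine ⟨?_, hP t ht⟩
        rw [← (hY t ht).2]
        exact (dvd_mul_right _ _).mul_left _
    calc G.card * ζ ≤ 2 * D * (2 * D) * (G.image fun t =>
          (j (om L t) * ((t.1 - f) * (t.2.1 - f)), e (om L t))).card * (V0 * f + U0).natAbs :=
          Nat.mul_le_mul h2 hq
      _ ≤ 2 * D * (2 * D) * (49 * (j0 * m ^ 2) * μ) := by
          rw [mul_assoc]; exact Nat.mul_le_mul_left _ h4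
      _ = _ := by ring
  right
  rcases G.eq_empty_or_nonempty with rfl | ⟨t0, ht0⟩
  · simp
  obtain ⟨r, q, -, hq0, hr⟩ := col_param G _ _ ht0 (hne t0 ht0).1 h4
  obtain ⟨u0, hu0, -⟩ := hr t0 ht0
  have hr0 : r ≠ 0 := fun h0 => hx t0 ht0 (by rw [hu0, h0, mul_zero])
  have hr1 : r.natAbs ≤ j0 * m ^ 2 := by
    have h5 := hb t0 ht0
    have h6 : u0 ≠ 0 := fun h0 => hx t0 ht0 (by rw [hu0, h0, zero_mul])
    rw [hu0, abs_mul] at h5
    have h7 : |r| ≤ (j0 * m ^ 2 : ℕ) := by nlinarith [Int.one_le_abs h6, abs_nonneg r]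
    rw [Int.abs_eq_natAbs] at h7
    exact_mod_cast h7
  set S := V.filter fun b => b ≠ f ∧ |b - f| ≤ T * Int.gcd r (b - f) with hS
  have hSc : S.card ≤ B * D := by
    refine (card_le_mul_card_image_of_maps_to (f := fun b => Int.gcd r (b - f))
      (t := r.natAbs.divisors) (fun b _ => ?_) B fun g _ => ?_).trans
      (Nat.mul_le_mul_left _ ((card_divisors_le hr1).trans hD))
    · exact Nat.mem_divisors.2 ⟨Int.natCast_dvd.1 (Int.gcd_dvd_left _ _), Int.natAbs_ne_zero.2 hr0⟩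
    · rcases (S.filter fun b => Int.gcd r (b - f) = g).eq_empty_or_nonempty with h0 | ⟨b, hb⟩
      · rw [h0]
        simp
      simp only [hS, mem_filter] at hb
      have k1 : b - f ≠ 0 := sub_ne_zero.2 hb.1.2.1
      refine le_trans (card_le_card fun b' hb' => ?_) (hB f hfV g ?_ ?_)
      · simp only [hS, mem_filter] at hb' ⊢
        rw [← hb'.2]
        exact ⟨hb'.1.1, Int.gcd_dvd_right _ _, hb'.1.2.2⟩
      · rw [← hb.2]
        exact Int.gcd_pos_of_ne_zero_right _ k1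
      · rw [← hb.2]
        have k2 := Int.le_of_dvd (abs_pos.2 k1) ((dvd_abs _ _).2 (Int.gcd_dvd_right r (b - f)))
        have k3 := hV.mem _ hb.1.1
        have k4 := hV.mem _ hfV
        have k5 : |b - f| ≤ m := by
          rw [abs_le]
          constructor <;> linarith [k3.1, k3.2, k4.1, k4.2]
        exact_mod_cast k2.trans k5
  have h5 : G.card ≤ (S ×ˢ V ∪ V ×ˢ S).card := by
    refine card_le_card_of_injOn (fun t => (t.1, t.2.1)) (fun t ht => ?_) fun s hs t ht e => ?_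
    · obtain ⟨u, hu, hu'⟩ := hr t ht
      have k1 : |u| ≤ T ^ 2 := by
        have k2 := h.ele t ht
        have k3 : (μ : ℤ) ≤ T ^ 2 := by exact_mod_cast hT
        rw [hu', abs_mul] at k2
        nlinarith [Int.one_le_abs hq0, abs_nonneg u]
      have hm := h.mem t ht
      have hn := hne t ht
      simp only [coe_union, coe_product, Set.mem_union, Set.mem_prod, mem_coe, hS, mem_filter]
      rcases short_or hu (h.jne t ht) (sub_ne_zero.2 hn.2.1) (sub_ne_zero.2 hn.2.2) k1 with k | k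
      · exact Or.inl ⟨⟨hm.1, hn.2.1, k⟩, hm.2.1⟩
      · exact Or.inr ⟨hm.1, hm.2.1, hn.2.2, k⟩
    · simp only [Prod.mk.injEq] at e
      exact Prod.ext e.1 (Prod.ext e.2 (by rw [hf s hs, hf t ht]))
  refine h5.trans ((card_union_le _ _).trans ?_)
  rw [card_product, card_product]
  nlinarith

end Pool.Agent.MP_bd74a7_nt
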