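import Pool.Agent.MP_bd74a7_nt.Geom
import Pool.Agent.MP_bd74a7_nt.Hyp

/-!
Quotients whose representations lie on few lines.
-/

open Finset Matrix

namespace Pool.Agent.MP_bd74a7_nt

variable {p m : ℕ} [Fact p.Prime] {L : ZMod p} {V : Finset ℤ}

/-- The quotient attached to a triple. -/
def om (L : ZMod p) (t : ℤ × ℤ × ℤ) : ZMod p := (L + t.1) * (L + t.2.1) / (L + t.2.2)

/-- The point attached to a triple. -/
def pt (t : ℤ × ℤ × ℤ) : Fin 3 → ℤ := ![t.1 + t.2.1, t.1 * t.2.1, t.2.2]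

/-- The representations of a residue. -/
def Rep (L : ZMod p) (V : Finset ℤ) (ω : ZMod p) : Finset (ℤ × ℤ × ℤ) :=
  (V ×ˢ V ×ˢ V).filter fun t => om L t = ω

theorem mem_Rep {ω : ZMod p} {t : ℤ × ℤ × ℤ} :
    t ∈ Rep L V ω ↔ (t.1 ∈ V ∧ t.2.1 ∈ V ∧ t.2.2 ∈ V) ∧ om L t = ω := by
  simp [Rep]

theorem om_mul (hV : Nrm p L V m) {t : ℤ × ℤ × ℤ} (ht : t.2.2 ∈ V) :
    om L t * (L + t.2.2) = (L + t.1) * (L + t.2.1) := div_mul_cancel₀ _ (hV.nz _ ht)

omit [Fact p.Prime] in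
theorem lt_of_cube (hp : 4 * m ^ 3 < p) : m < p := by
  nlinarith [Nat.le_self_pow (show 3 ≠ 0 by norm_num) m]

theorem geom_rep (hV : Nrm p L V m) (hm : 1 ≤ m) (hp : 4 * m ^ 3 < p) (ω : ZMod p) {s : ℕ}
    (hs : 1 ≤ s) :
    (∃ g : Fin 3 → ℤ, g ≠ 0 ∧ (∀ k, |g k| ≤ Bx m k) ∧
      (((Rep L V ω).image pt).image (crossProduct g)).card ≤ s) ∨
    s ^ 3 * p ^ 2 ≤ 4 * 4394 ^ 3 * m ^ 8 ∨
    (s < (Rep L V ω).card ∧ ∃ n e : Fin 3 → ℤ, e ⬝ᵥ n = 1 ∧ (n 1 : ZMod p) ≠ 0 ∧
      (n 0 : ZMod p) = n 1 * L ∧ (n 2 : ZMod p) = -(n 1 * ω) ∧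
      (∀ t ∈ Rep L V ω, ∀ t' ∈ Rep L V ω, n ⬝ᵥ pt t = n ⬝ᵥ pt t') ∧
      s ^ 2 * (2 * (n 0).natAbs + m * (n 1).natAbs + (n 2).natAbs) ≤ 54 * 4394 ^ 2 * m ^ 3) := by
  rcases geom hm hp ![L, 1, -ω] (by simp) (ω * L - L ^ 2) ((Rep L V ω).image pt) (by
    intro x hx
    obtain ⟨t, ht, rfl⟩ := mem_image.1 hx
    rw [mem_Rep] at ht
    have h1 := hV.mem _ ht.1.1
    have h2 := hV.mem _ ht.1.2.1
    have h3 := hV.mem _ ht.1.2.2
    constructor
    · have := om_mul hV ht.1.2.2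
      rw [ht.2] at this
      simp [lf_apply, pt]
      linear_combination -this
    · intro k
      fin_cases k
      · simp [pt, Bx]
        constructor <;> linarith [h1.1, h1.2, h2.1, h2.2]
      · simp [pt, Bx]
        exact ⟨mul_nonneg h1.1 h2.1, by
          rw [sq]; exact mul_le_mul h1.2 h2.2 h2.1 (by positivity)⟩
      · simpa [pt, Bx] using h3) hs with h | h | ⟨h1, n, e, h2, h3, h4, h5, h6⟩
  · exact Or.inl h
  · exact Or.inr (Or.inl h)
  · refine Or.inr (Or.inr ⟨h1.trans_le card_image_le, n, e, h2, h3, by simpa using h4 0,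
      by simpa using h4 2, fun t ht t' ht' => h5 _ (mem_image_of_mem _ ht) _
        (mem_image_of_mem _ ht'), h6⟩)

theorem rep_le (hV : Nrm p L V m) (hm : 1 ≤ m) (hp : 4 * m ^ 3 < p) (ω : ZMod p) :
    (Rep L V ω).card ≤ 2 * Dm (9 * m ^ 4) * ((Rep L V ω).image fun t => t.2.2).card := by
  refine card_le_mul_card_image _ _ fun f hf => ?_
  obtain ⟨t0, ht0, rfl⟩ := mem_image.1 hf
  rw [mem_Rep] at ht0
  refine hyp hp hm _ (fun t => t.1) (fun t => t.2.1) (fun s hs t ht e1 e2 => ?_) (fun t ht => ?_)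
    (fun t ht => ?_) (κ := -L) (mul_ne_zero (hV.nz _ ht0.1.1) (hV.nz _ ht0.1.2.1)) fun t ht => ?_
  · rw [mem_filter] at hs ht
    exact Prod.ext e1 (Prod.ext e2 (by rw [hs.2, ht.2]))
  · exact hV.mem _ (mem_Rep.1 (mem_filter.1 ht).1).1.1
  · exact hV.mem _ (mem_Rep.1 (mem_filter.1 ht).1).1.2.1
  · rw [mem_filter, mem_Rep] at ht
    have h1 := om_mul hV ht.1.1.2.2
    have h2 := om_mul hV ht0.1.2.2
    rw [ht.1.2, ht.2] at h1
    rw [ht0.2] at h2
    linear_combination h2 - h1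

theorem unstr (hV : Nrm p L V m) (hm : 1 ≤ m) (hp : 4 * m ^ 3 < p) (U : Finset (ℤ × ℤ × ℤ))
    (hU : U ⊆ V ×ˢ V ×ˢ V) (S : Finset (ZMod p)) (hS : ∀ t ∈ U, om L t ∈ S)
    (G : ZMod p → Fin 3 → ℤ) {s : ℕ} (hG : ∀ t ∈ U, G (om L t) ≠ 0 ∧
      (∀ k, |G (om L t) k| ≤ Bx m k) ∧
      (((Rep L V (om L t)).image pt).image (crossProduct (G (om L t)))).card ≤ s) :
    U.card ^ 2 ≤ s * S.card * (12 * Dm (9 * m ^ 4) * V.card ^ 3) := by
  classical
  have hUm : ∀ t ∈ U, t.1 ∈ V ∧ t.2.1 ∈ V ∧ t.2.2 ∈ V := fun t ht => by simpa using hU ht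
  set lab : ℤ × ℤ × ℤ → ZMod p × (Fin 3 → ℤ) :=
    fun t => (om L t, crossProduct (G (om L t)) (pt t)) with hlab
  have h1 := sq_le_mul_coll U (U.image lab) lab fun t ht => mem_image_of_mem _ ht
  have h2 : (U.image lab).card ≤ s * S.card := by
    refine card_le_mul_card_image_of_maps_to (f := Prod.fst) (fun l hl => ?_) _ fun ω _ => ?_
    · obtain ⟨t, ht, rfl⟩ := mem_image.1 hl
      exact hS t ht
    · rcases ((U.image lab).filter fun l => l.1 = ω).eq_empty_or_nonempty with h0 | ⟨l0, hl0⟩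
      · rw [h0]
        simp
      obtain ⟨t0, ht0, rfl⟩ := mem_image.1 (mem_filter.1 hl0).1
      have e0 : om L t0 = ω := (mem_filter.1 hl0).2
      refine le_trans (card_le_card_of_injOn Prod.snd (fun l hl => ?_) fun l hl l' hl' e => ?_)
        (hG t0 ht0).2.2
      · rw [mem_coe, mem_filter] at hl
        obtain ⟨t, ht, rfl⟩ := mem_image.1 hl.1
        have e1 : om L t = om L t0 := hl.2.trans e0.symm
        rw [mem_coe]
        refine mem_image.2 ⟨pt t, mem_image_of_mem _ (mem_Rep.2 ⟨hUm t ht, e1⟩), ?_⟩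
        simp only [hlab, e1]
      · rw [mem_coe, mem_filter] at hl hl'
        exact Prod.ext (hl.2.trans hl'.2.symm) e
  set P := (U ×ˢ U).filter fun x => lab x.1 = lab x.2 with hP
  have hPm : ∀ x ∈ P, x.1 ∈ U ∧ x.2 ∈ U ∧ om L x.1 = om L x.2 ∧
      crossProduct (G (om L x.1)) (pt x.1) = crossProduct (G (om L x.1)) (pt x.2) := by
    intro x hx
    simp only [hP, hlab, mem_filter, mem_product, Prod.mk.injEq] at hx
    refine ⟨hx.1.1, hx.1.2, hx.2.1, ?_⟩
    rw [hx.2.2, hx.2.1]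
  have hX : Sext p L V P (fun x => x.1.1) (fun x => x.1.2.1) (fun x => x.1.2.2)
      (fun x => x.2.1) (fun x => x.2.2.1) (fun x => x.2.2.2) := by
    refine ⟨fun x hx => (hUm _ (hPm x hx).1).1, fun x hx => (hUm _ (hPm x hx).1).2.1,
      fun x hx => (hUm _ (hPm x hx).1).2.2, fun x hx => (hUm _ (hPm x hx).2.1).1,
      fun x hx => (hUm _ (hPm x hx).2.1).2.1, fun x hx => (hUm _ (hPm x hx).2.1).2.2,
      fun x hx => ?_, fun x _ y _ e1 e2 e3 e4 e5 e6 =>
        Prod.ext (Prod.ext e1 (Prod.ext e2 e3)) (Prod.ext e4 (Prod.ext e5 e6))⟩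
    rw [← om_mul hV (hUm _ (hPm x hx).1).2.2, ← om_mul hV (hUm _ (hPm x hx).2.1).2.2,
      (hPm x hx).2.2.1]
    ring
  set D := Dm (9 * m ^ 4)
  set N0 : (ℤ × ℤ × ℤ) → (ℤ × ℤ × ℤ) → ℤ := fun t u =>
    (G (om L t) 0 * u.1 - G (om L t) 1) * (G (om L t) 0 * u.2.1 - G (om L t) 1) with hN0
  have hN : ∀ x ∈ P, N0 x.1 x.2 = N0 x.1 x.1 := by
    intro x hx
    have := congrFun (hPm x hx).2.2.2 2
    simp [cross_apply, pt] at this
    simp only [hN0]
    linear_combination (-G (om L x.1) 0) * this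
  have a1 := (hX.mono (filter_subset (fun x => x.1.1 = x.2.1) P)).share hV hp hm
    fun x hx => (mem_filter.1 hx).2
  have a2 := (hX.swap.mono (filter_subset (fun x => x.1.2.1 = x.2.1) P)).share hV hp hm
    fun x hx => (mem_filter.1 hx).2
  have a3 := (hX.swap'.mono (filter_subset (fun x => x.1.1 = x.2.2.1) P)).share hV hp hm
    fun x hx => (mem_filter.1 hx).2
  have a4 := (hX.swap.swap'.mono (filter_subset (fun x => x.1.2.1 = x.2.2.1) P)).share hV hp hm
    fun x hx => (mem_filter.1 hx).2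
  have a5 := (hX.mono (filter_subset
    (fun x => x.1.1 + x.1.2.1 = x.2.1 + x.2.2.1 ∧ x.1.2.2 ≠ x.2.2.2) P)).sameSum hV hp hm
    fun x hx => (mem_filter.1 hx).2
  have a6 : (P.filter fun x => G (om L x.1) 0 ≠ 0 ∧ N0 x.1 x.1 ≠ 0).card ≤ 2 * D * V.card ^ 3 := by
    rw [← card_cube]
    refine card_le_mul_card_image_of_maps_to (f := Prod.fst)
      (fun x hx => hU (hPm x (mem_filter.1 hx).1).1) _ fun t _ => ?_
    rcases ((P.filter fun x => G (om L x.1) 0 ≠ 0 ∧ N0 x.1 x.1 ≠ 0).filter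
      fun x => x.1 = t).eq_empty_or_nonempty with h0 | ⟨x0, hx0⟩
    · rw [h0]
      simp
    simp only [mem_filter] at hx0
    obtain ⟨⟨hx0, hg0, hN1⟩, rfl⟩ := hx0
    have hb := (hG _ (hPm x0 hx0).1).2.1
    refine ihyp _ (fun x => x.2.1) (fun x => x.2.2.1) (fun x hx y hy e1 e2 => ?_)
      (fun x hx => ?_) (fun x hx => ?_) hg0 (by simpa [Bx] using hb 0) (by simpa [Bx] using hb 1)
      hN1 fun x hx => ?_
    · simp only [mem_filter] at hx hy
      have k1 := hPm x hx.1.1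
      have k2 := hPm y hy.1.1
      refine Prod.ext (hx.2.trans hy.2.symm) (Prod.ext e1 (Prod.ext e2 ?_))
      have f1 := (hUm _ k1.2.1).2.2
      have f2 := (hUm _ k2.2.1).2.2
      refine hV.inj (lt_of_cube hp) f1 f2 ?_
      have r1 := om_mul hV f1
      have r2 := om_mul hV f2
      rw [← k1.2.2.1, hx.2] at r1
      rw [← k2.2.2.1, hy.2, ← e1, ← e2, ← r1] at r2
      refine (mul_left_cancel₀ ?_ r2).symm
      intro h0
      rw [h0, zero_mul] at r1
      exact mul_ne_zero (hV.nz _ (hUm _ k1.2.1).1) (hV.nz _ (hUm _ k1.2.1).2.1) r1.symm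
    · simp only [mem_filter] at hx
      exact hV.mem _ (hX.mb' x hx.1.1)
    · simp only [mem_filter] at hx
      exact hV.mem _ (hX.mc' x hx.1.1)
    · simp only [mem_filter] at hx
      have := hN x hx.1.1
      rw [hx.2] at this
      exact this
  have h3 : P.card ≤ 12 * D * V.card ^ 3 := by
    have hsub : P ⊆ (P.filter fun x => x.1.1 = x.2.1) ∪ (P.filter fun x => x.1.2.1 = x.2.1) ∪
        (P.filter fun x => x.1.1 = x.2.2.1) ∪ (P.filter fun x => x.1.2.1 = x.2.2.1) ∪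
        (P.filter fun x => x.1.1 + x.1.2.1 = x.2.1 + x.2.2.1 ∧ x.1.2.2 ≠ x.2.2.2) ∪
        (P.filter fun x => G (om L x.1) 0 ≠ 0 ∧ N0 x.1 x.1 ≠ 0) := by
      intro x hx
      simp only [mem_union, mem_filter, hx, true_and]
      by_contra hc
      simp only [not_or, not_and, not_not] at hc
      obtain ⟨⟨⟨⟨⟨n1, n2⟩, n3⟩, n4⟩, n5⟩, n6⟩ := hc
      obtain ⟨k1, k2, k3, k4⟩ := hPm x hx
      by_cases hσ : x.1.1 + x.1.2.1 = x.2.1 + x.2.2.1
      · have r := hX.rel x hx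
        simp only [n5 hσ] at r
        have r1 := mul_right_cancel₀ (hV.nz _ (hUm _ k2).2.2) r
        have e : ((x.1.1 + x.1.2.1 : ℤ) : ZMod p) = (x.2.1 + x.2.2.1 : ℤ) := by rw [hσ]
        have r2 : x.1.1 * x.1.2.1 - x.2.1 * x.2.2.1 = 0 := by
          refine eq_zero_of_cast (p := p) ?_ ((abs_pi (hV.mem _ (hUm _ k1).1)
            (hV.mem _ (hUm _ k1).2.1) (hV.mem _ (hUm _ k2).1)
            (hV.mem _ (hUm _ k2).2.1)).trans_lt ?_)
          · push_cast at e ⊢
            linear_combination r1 - L * e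
          · have hp' : 4 * (m : ℤ) ^ 3 < p := by exact_mod_cast hp
            have hm' : (1 : ℤ) ≤ m := by exact_mod_cast hm
            nlinarith
        have r3 : (x.1.1 - x.2.1) * (x.1.2.1 - x.2.1) = 0 := by
          linear_combination r2 - x.2.1 * hσ
        rcases mul_eq_zero.1 r3 with h | h
        · exact n1 (sub_eq_zero.1 h)
        · exact n2 (sub_eq_zero.1 h)
      by_cases hg : G (om L x.1) 0 = 0
      · have c1 := congrFun k4 1
        have c2 := congrFun k4 2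
        simp [cross_apply, pt, hg, hσ] at c1 c2
        refine (hG _ k1).1 (funext fun k => ?_)
        fin_cases k
        · exact hg
        · exact c2
        · exact c1
      have z1 := n6 hg
      have z2 := (hN x hx).trans z1
      simp only [hN0] at z1 z2
      rcases mul_eq_zero.1 z1 with h | h <;> rcases mul_eq_zero.1 z2 with h' | h'
      · exact n1 (mul_left_cancel₀ hg (by linear_combination h - h'))
      · exact n3 (mul_left_cancel₀ hg (by linear_combination h - h'))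
      · exact n2 (mul_left_cancel₀ hg (by linear_combination h - h'))
      · exact n4 (mul_left_cancel₀ hg (by linear_combination h - h'))
    refine (card_le_card hsub).trans ?_
    refine (card_union_le _ _).trans ((Nat.add_le_add ((card_union_le _ _).trans
      (Nat.add_le_add ((card_union_le _ _).trans (Nat.add_le_add ((card_union_le _ _).trans
      (Nat.add_le_add ((card_union_le _ _).trans (Nat.add_le_add a1 a2)) a3)) a4)) a5)) a6).trans
      (le_of_eq ?_))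
    ring
  exact h1.trans (Nat.mul_le_mul h2 h3)

end Pool.Agent.MP_bd74a7_nt
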