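import Pool.Agent.MP_bd74a7_nt.Core

/-!
Choice of the centre, dyadic decomposition and short progressions.
-/

open Finset

namespace Pool.Agent.MP_bd74a7_nt

variable {p m : ℕ} [Fact p.Prime] {L : ZMod p} {V : Finset ℤ}

theorem exists_centre (hV : Nrm p L V m) (hm : 1 ≤ m) : ∃ V0 U0 : ℤ, Centre p L m V0 U0 ∧
    ∀ v ∈ V, V0 * v + U0 ≠ 0 ∧ (V0 * v + U0).natAbs ≤ cp * m ^ 3 := by
  by_cases h : ∃ (V' U : ℤ) (Z : ℕ), Z ^ 2 < p * m ∧ Z ≤ cp * m ^ 3 ∧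
    2 * U.natAbs + m * V'.natAbs ≤ Z ∧ (U : ZMod p) = V' * L ∧ (V' : ZMod p) ≠ 0
  swap
  · refine ⟨0, 1, fun V' U Z h1 h2 h3 h4 h5 => absurd ⟨V', U, Z, h1, h2, h3, h4, h5⟩ h,
      fun v _ => ⟨by simp, ?_⟩⟩
    have := one_le_cp
    have := Nat.one_le_pow 3 m hm
    simp only [zero_mul, zero_add, Int.natAbs_one]
    exact Nat.mul_pos (by omega) (by omega)
  obtain ⟨V1, U1, Z1, h1, h2, h3, h4, h5⟩ := h
  have hV1 : V1 ≠ 0 := fun h0 => h5 (by rw [h0, Int.cast_zero])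
  obtain ⟨V0, U0, hco, e1, e2⟩ := Int.exists_gcd_one (Int.gcd_pos_of_ne_zero_left U1 hV1)
  generalize ((Int.gcd V1 U1 : ℕ) : ℤ) = g at *
  have hg : g ≠ 0 := fun h0 => hV1 (by rw [e1, h0, mul_zero])
  obtain ⟨a, b, hab⟩ := Int.isCoprime_iff_gcd_eq_one.2 hco
  have h3' : 2 * |U1| + m * |V1| ≤ Z1 := by
    simp only [Int.abs_eq_natAbs]
    exact_mod_cast h3
  have hm' : (0 : ℤ) < m := by exact_mod_cast hm
  refine ⟨V0, U0, fun V' U Z k1 _ k3 k4 _ => ?_, fun v hv => ?_⟩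
  · have k3' : 2 * |U| + m * |V'| ≤ Z := by
      simp only [Int.abs_eq_natAbs]
      exact_mod_cast k3
    have hdet : U1 * V' - U * V1 = 0 := by
      refine eq_zero_of_cast (p := p) (by push_cast; rw [h4, k4]; ring) ?_
      have i1 : (Z1 : ℤ) ^ 2 < p * m := by exact_mod_cast h1
      have i2 : (Z : ℤ) ^ 2 < p * m := by exact_mod_cast k1
      have i3 := abs_sub (U1 * V') (U * V1)
      rw [abs_mul, abs_mul] at i3
      have i4 : 2 * |U1| * (m * |V'|) ≤ Z1 * Z :=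
        mul_le_mul (by nlinarith [abs_nonneg V1]) (by nlinarith [abs_nonneg U]) (by positivity)
          (by positivity)
      have i5 : 2 * |U| * (m * |V1|) ≤ Z * Z1 :=
        mul_le_mul (by nlinarith [abs_nonneg V']) (by nlinarith [abs_nonneg U1]) (by positivity)
          (by positivity)
      have i6 := mul_le_mul_of_nonneg_left i3 hm'.le
      refine lt_of_mul_lt_mul_left (a := (m : ℤ)) ?_ hm'.le
      nlinarith [sq_nonneg ((Z1 : ℤ) - Z)]
    rw [e1, e2] at hdet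
    have h6 : U0 * V' = U * V0 := mul_right_cancel₀ hg (by linear_combination hdet)
    exact ⟨a * V' + b * U, by linear_combination (-V') * hab + b * h6,
      by linear_combination (-U) * hab - a * h6⟩
  · have e3 : (V0 * v + U0) * g = V1 * v + U1 := by rw [e1, e2]; ring
    constructor
    · intro h0
      rw [h0, zero_mul] at e3
      have e4 := congrArg (Int.cast : ℤ → ZMod p) e3
      push_cast at e4
      rw [h4] at e4
      exact mul_ne_zero h5 (hV.nz v hv) (by linear_combination -e4)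
    · refine le_trans ?_ h2
      have k := hV.mem v hv
      have i1 := abs_add_le (V1 * v) U1
      rw [← e3, abs_mul, abs_mul, abs_of_nonneg k.1] at i1
      have i2 : |V0 * v + U0| ≤ Z1 := by
        nlinarith [Int.one_le_abs hg, abs_nonneg (V0 * v + U0), abs_nonneg U1, abs_nonneg V1, k.2]
      rw [Int.abs_eq_natAbs] at i2
      exact_mod_cast i2

theorem core2 (hV : Nrm p L V m) (hm : 1 ≤ m) (hp : 4 * m ^ 3 < p) (S : Finset (ZMod p))
    (hS : ∀ t ∈ V ×ˢ V ×ˢ V, om L t ∈ S) {N : ℕ} (hN : S.card ≤ N) (hN1 : 1 ≤ N)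
    {T B D : ℕ} (hT : 4 * m ≤ T ^ 2) (hB : FewAP V m T B) (hD : Dm (8 * cp ^ 3 * m ^ 9) ≤ D) :
    ∃ j φ : ℕ, V.card ≤ j * D ∧ j ^ 3 ≤ 96 * N * D ^ 2 * (φ + 1) ∧ (φ < 16 * D ∨ j < 16 ∨
      j ≤ 8 * D * B ∨ j * φ ^ 3 * p ≤ 3328 * cp * D ^ 2 * m ^ 5 ∨
      j ^ 3 * φ ^ 7 * p ^ 2 ≤ 10436608 * cp ^ 3 * D ^ 4 * m ^ 11 ∨
      φ ^ 4 * p ≤ cp ^ 2 * m ^ 5 ∨ φ ^ 3 * p ^ 2 ≤ ce * m ^ 8) := by
  obtain ⟨V0, U0, hc, hz⟩ := exists_centre hV hm
  have hle : cp * m ^ 3 ≤ 8 * cp ^ 3 * m ^ 9 := by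
    have h1 : cp * m ^ 3 ≤ (cp * m ^ 3) ^ 3 := Nat.le_self_pow (by norm_num) _
    have h2 : 8 * cp ^ 3 * m ^ 9 = 8 * (cp * m ^ 3) ^ 3 := by ring
    omega
  have hD1 : 1 ≤ D := by
    refine le_trans (one_le_Dm (le_trans ?_ hle)) hD
    have := one_le_cp
    exact Nat.mul_pos (by omega) (Nat.one_le_pow 3 m hm)
  obtain ⟨i, -, hi⟩ := exists_max_image (range D)
    (fun i => (V.filter fun v => Nat.log 2 (V0 * v + U0).natAbs = i).card) ⟨0, mem_range.2 hD1⟩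
  set W := V.filter fun v => Nat.log 2 (V0 * v + U0).natAbs = i with hW
  have hWV : W ⊆ V := filter_subset _ _
  have h1 : V.card ≤ W.card * D := by
    have := card_le_mul_card_image_of_maps_to (s := V) (t := range D)
      (f := fun v => Nat.log 2 (V0 * v + U0).natAbs) (fun v hv => mem_range.2
        ((log_le_Dm (Int.natAbs_ne_zero.2 (hz v hv).1) ((hz v hv).2.trans hle)).trans hD)) _ hi
    rwa [card_range] at this
  obtain ⟨φ, h2⟩ := core (ζ := 2 ^ i) (hV.mono hWV) hm hp S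
    (fun t ht => hS t (product_subset_product hWV (product_subset_product hWV hWV) ht)) hN hN1
    (fun v hv => by
      rw [mem_filter] at hv
      rw [Int.abs_eq_natAbs, ← hv.2]
      exact_mod_cast Nat.pow_log_le_self 2 (Int.natAbs_ne_zero.2 (hz v hv.1).1))
    (fun v hv => by
      rw [mem_filter] at hv
      have := Nat.lt_pow_succ_log_self (b := 2) (by norm_num) (V0 * v + U0).natAbs
      rw [hv.2, pow_succ'] at this
      rw [Int.abs_eq_natAbs]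
      exact_mod_cast this.le) Nat.one_le_two_pow hc hT
    (fun f hf r h1 h2 => (card_le_card (filter_subset_filter _ hWV)).trans (hB f (hWV hf) r h1 h2))
    hD
  exact ⟨W.card, φ, h1, h2⟩

theorem exists_T {m : ℕ} (hm : 1 ≤ m) : ∃ T, 1 ≤ T ∧ 4 * m ≤ T ^ 2 ∧ T ^ 2 ≤ 10 * m := by
  refine ⟨Nat.sqrt (4 * m) + 1, by omega, (Nat.lt_succ_sqrt' _).le, ?_⟩
  have := Nat.sqrt_le' (4 * m)
  nlinarith [sq_nonneg ((Nat.sqrt (4 * m) : ℤ) - 1)]

theorem fewAP_triv (V : Finset ℤ) (m T : ℕ) : FewAP V m T (2 * T + 1) := by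
  intro f _ r hr _
  have h : (V.filter fun b => (r : ℤ) ∣ b - f ∧ |b - f| ≤ T * r).card ≤
      (Icc (-(T : ℤ)) T).card := by
    refine card_le_card_of_injOn (fun b => (b - f) / r) (fun b hb => ?_) fun b hb b' hb' e => ?_
    · obtain ⟨-, ⟨c, hc⟩, h2⟩ := mem_filter.1 hb
      have hr' : (0 : ℤ) < r := by exact_mod_cast hr
      simp only [mem_coe, mem_Icc, ← abs_le]
      rw [hc, Int.mul_ediv_cancel_left _ hr'.ne']
      rw [hc, abs_mul, abs_of_pos hr', mul_comm] at h2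
      exact le_of_mul_le_mul_right h2 hr'
    · have h1 := Int.mul_ediv_cancel' (mem_filter.1 hb).2.1
      have h2 := Int.mul_ediv_cancel' (mem_filter.1 hb').2.1
      simp only at e
      rw [e] at h1
      linarith
  rw [Int.card_Icc] at h
  omega

theorem pow_bound {x c D k i : ℕ} (hk : k ≠ 0) (hD : 1 ≤ D) (hi : i ≤ k) (hc : c ≤ (10 ^ 7) ^ k)
    (h : x ^ k ≤ c * D ^ i) : x ≤ 10 ^ 7 * D := by
  refine (Nat.pow_le_pow_iff_left hk).1 (h.trans ?_)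
  rw [mul_pow]
  exact Nat.mul_le_mul hc (Nat.pow_le_pow_right hD hi)

theorem inner {m' : ℕ} (hV : Nrm p L V m') (hm : 1 ≤ m') (hp : 4 * m ^ 3 < p) (h1 : m' ≤ m)
    (h2 : m' ^ 2 ≤ 40 * m) (S : Finset (ZMod p)) (hS : ∀ t ∈ V ×ˢ V ×ˢ V, om L t ∈ S) {N : ℕ}
    (hN : S.card ≤ N) (hN1 : m ≤ N) {D : ℕ} (hD : Dm (8 * cp ^ 3 * m ^ 9) ≤ D) :
    V.card ^ 3 ≤ 2 * 10 ^ 9 * N * D ^ 6 := by
  obtain ⟨T, hT1, hT, hT'⟩ := exists_T hm
  have hD' : Dm (8 * cp ^ 3 * m' ^ 9) ≤ D := (Dm_mono (by gcongr)).trans hD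
  have hD1 : 1 ≤ D := by
    refine le_trans (one_le_Dm ?_) hD'
    have : 0 < cp := lt_of_lt_of_le (by norm_num) one_le_cp
    exact Nat.succ_le_of_lt (by positivity)
  have hN0 : 1 ≤ N := by omega
  obtain ⟨j, φ, k1, k2, k3⟩ := core2 hV hm (lt_of_le_of_lt (by gcongr) hp) S hS hN hN0 hT
    (fewAP_triv V m' T) hD'
  suffices h : j ^ 3 ≤ 2 * 10 ^ 9 * N * D ^ 3 by
    calc V.card ^ 3 ≤ (j * D) ^ 3 := by gcongr
      _ = j ^ 3 * D ^ 3 := by ring
      _ ≤ 2 * 10 ^ 9 * N * D ^ 3 * D ^ 3 := by gcongr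
      _ = _ := by ring
  rcases Nat.eq_zero_or_pos j with rfl | hj
  · simp
  have hp0 : 0 < p := by omega
  have h6 : m' ^ 6 ≤ 16000 * p := by
    calc m' ^ 6 = (m' ^ 2) ^ 3 := by ring
      _ ≤ (40 * m) ^ 3 := by gcongr
      _ = 16000 * (4 * m ^ 3) := by ring
      _ ≤ _ := by gcongr
  have h5 : m' ^ 5 ≤ 16000 * p := (Nat.pow_le_pow_right hm (by norm_num)).trans h6
  have h12 : m' ^ 12 ≤ 16000 ^ 2 * p ^ 2 := by
    calc m' ^ 12 = (m' ^ 6) ^ 2 := by ring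
      _ ≤ (16000 * p) ^ 2 := by gcongr
      _ = _ := by ring
  have h11 : m' ^ 11 ≤ 16000 ^ 2 * p ^ 2 := (Nat.pow_le_pow_right hm (by norm_num)).trans h12
  have h8 : m' ^ 8 ≤ 16000 ^ 2 * p ^ 2 := (Nat.pow_le_pow_right hm (by norm_num)).trans h12
  have fin : φ ≤ 10 ^ 7 * D → j ^ 3 ≤ 2 * 10 ^ 9 * N * D ^ 3 := fun h => by
    refine k2.trans ?_
    calc 96 * N * D ^ 2 * (φ + 1) ≤ 96 * N * D ^ 2 * (2 * 10 ^ 7 * D) := by gcongr; omega
      _ = 1920000000 * N * D ^ 3 := by ring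
      _ ≤ _ := Nat.mul_le_mul_right _ (Nat.mul_le_mul_right _ (by norm_num))
  have hND : 1 ≤ N * D ^ 3 := Nat.mul_pos hN0 (by positivity)
  rcases k3 with h | h | h | h | h | h | h
  · exact fin (by omega)
  · calc j ^ 3 ≤ 16 ^ 3 := by gcongr
      _ ≤ 2 * 10 ^ 9 * 1 := by norm_num
      _ ≤ _ := by rw [mul_assoc (2 * 10 ^ 9)]; gcongr
  · calc j ^ 3 ≤ (8 * D * (3 * T)) ^ 3 := by gcongr; exact h.trans (by gcongr; omega)
      _ = 13824 * D ^ 3 * T ^ 3 := by ring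
      _ ≤ 13824 * D ^ 3 * (T ^ 2) ^ 2 := by
          rw [← pow_mul]
          gcongr
          norm_num
      _ ≤ 13824 * D ^ 3 * (10 * m') ^ 2 := by gcongr
      _ = 1382400 * D ^ 3 * m' ^ 2 := by ring
      _ ≤ 1382400 * D ^ 3 * (40 * N) := by gcongr; omega
      _ = 55296000 * N * D ^ 3 := by ring
      _ ≤ _ := by gcongr; norm_num
  · refine fin (pow_bound (k := 3) (i := 2) (c := 3328 * cp * 16000) (by norm_num) hD1
      (by norm_num) (by norm_num [cp]) (Nat.le_of_mul_le_mul_right ?_ hp0))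
    calc φ ^ 3 * p ≤ j * φ ^ 3 * p := by gcongr; exact Nat.le_mul_of_pos_left _ hj
      _ ≤ 3328 * cp * D ^ 2 * (16000 * p) := h.trans (by gcongr)
      _ = _ := by ring
  · refine fin (pow_bound (k := 7) (i := 4) (c := 10436608 * cp ^ 3 * 16000 ^ 2) (by norm_num) hD1
      (by norm_num) (by norm_num [cp]) (Nat.le_of_mul_le_mul_right ?_ (pow_pos hp0 2)))
    calc φ ^ 7 * p ^ 2 ≤ j ^ 3 * φ ^ 7 * p ^ 2 := by
          gcongr; exact Nat.le_mul_of_pos_left _ (pow_pos hj 3)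
      _ ≤ 10436608 * cp ^ 3 * D ^ 4 * (16000 ^ 2 * p ^ 2) := h.trans (by gcongr)
      _ = _ := by ring
  · refine fin (pow_bound (k := 4) (i := 0) (c := cp ^ 2 * 16000) (by norm_num) hD1
      (by norm_num) (by norm_num [cp]) (Nat.le_of_mul_le_mul_right ?_ hp0))
    calc φ ^ 4 * p ≤ cp ^ 2 * (16000 * p) := h.trans (by gcongr)
      _ = _ := by ring
  · refine fin (pow_bound (k := 3) (i := 0) (c := ce * 16000 ^ 2) (by norm_num) hD1
      (by norm_num) (by norm_num [ce]) (Nat.le_of_mul_le_mul_right ?_ (pow_pos hp0 2)))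
    calc φ ^ 3 * p ^ 2 ≤ ce * (16000 ^ 2 * p ^ 2) := h.trans (by gcongr)
      _ = _ := by ring

theorem fewAP_inner (hV : Nrm p L V m) (hp : 4 * m ^ 3 < p) {T : ℕ} (hT1 : 1 ≤ T)
    (hT : T ^ 2 ≤ 10 * m) (hm : 40 ≤ m) (S : Finset (ZMod p))
    (hS : ∀ t ∈ V ×ˢ V ×ˢ V, om L t ∈ S) {N : ℕ} (hN : S.card ≤ N) (hN1 : m ≤ N) {D : ℕ}
    (hD : Dm (8 * cp ^ 3 * m ^ 9) ≤ D) :
    ∃ B, FewAP V m T B ∧ B ^ 3 ≤ 2 * 10 ^ 9 * N * D ^ 6 := by
  classical
  obtain ⟨B, h1, h2⟩ := exists_root 1 (2 * 10 ^ 9 * N * D ^ 6) 3 le_rfl (by norm_num)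
  refine ⟨B, fun f hf r hr hr' => ?_, by simpa using h1⟩
  have hr0 : (r : ZMod p) ≠ 0 := by
    rw [Ne, ZMod.natCast_eq_zero_iff]
    exact Nat.not_dvd_of_pos_of_lt hr (hr'.trans_lt (lt_of_cube hp))
  have hr1 : (0 : ℤ) < r := by exact_mod_cast hr
  set W := V.filter fun b => (r : ℤ) ∣ b - f ∧ |b - f| ≤ T * r with hW
  have hmem : ∀ x ∈ W.image fun b => (b - f) / r + T, (0 ≤ x ∧ x ≤ (2 * T : ℕ)) ∧
      ∃ b ∈ V, (L + f) / r - T + x = (L + b) / r := by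
    intro x hx
    obtain ⟨b, hb, rfl⟩ := mem_image.1 hx
    obtain ⟨hb, ⟨c, hc⟩, h3⟩ := mem_filter.1 hb
    rw [hc, Int.mul_ediv_cancel_left _ hr1.ne']
    rw [hc, abs_mul, abs_of_pos hr1, mul_comm] at h3
    have h4 := abs_le.1 (le_of_mul_le_mul_right h3 hr1)
    refine ⟨by push_cast; constructor <;> linarith [h4.1, h4.2], b, hb, ?_⟩
    rw [show b = f + r * c by linarith]
    push_cast
    field_simp
    ring
  have h3 := inner (m := m) (L := (L + (f : ZMod p)) / (r : ZMod p) - (T : ZMod p)) (V := W.image fun b => (b - f) / r + T)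
    (m' := 2 * T) ⟨fun x hx => (hmem x hx).1, fun x hx => by
      obtain ⟨-, b, hb, e⟩ := hmem x hx
      rw [e]
      exact div_ne_zero (hV.nz b hb) hr0⟩ (by omega) hp (by nlinarith) (by nlinarith)
    (S.image fun s => s / r) (fun t ht => by
      simp only [mem_product] at ht
      obtain ⟨-, b, hb, e1⟩ := hmem _ ht.1
      obtain ⟨-, c, hc, e2⟩ := hmem _ ht.2.1
      obtain ⟨-, d, hd, e3⟩ := hmem _ ht.2.2
      refine mem_image.2 ⟨om L (b, c, d), hS _ (by simp [hb, hc, hd]), ?_⟩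
      have := hV.nz d hd
      simp only [om, e1, e2, e3]
      field_simp) (card_image_le.trans hN) hN1 hD
  rw [card_image_of_injOn] at h3
  · have h4 := h3.trans_lt h2
    rw [mul_one] at h4
    exact Nat.lt_succ_iff.1 (lt_of_pow_lt_pow_left₀ 3 (Nat.zero_le _) h4)
  · intro b hb b' hb' e
    have k1 := Int.mul_ediv_cancel' (mem_filter.1 hb).2.1
    have k2 := Int.mul_ediv_cancel' (mem_filter.1 hb').2.1
    simp only [add_left_inj] at e
    rw [e] at k1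
    linarith

end Pool.Agent.MP_bd74a7_nt
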